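import Pool.Agent.Work.MP_5da384_an.Phi

set_option autoImplicit false

open Filter Topology Set
open scoped ENNReal NNReal

namespace Pool.Agent.Work.MP_5da384_an

/-! ### fixed point ball arithmetic on cosine series -/

/-- finite sums, for evaluation -/
def sumr (f : ℕ → ℤ) : ℕ → ℤ
  | 0 => 0
  | (n+1) => sumr f n + f n

lemma sumr_eq (f : ℕ → ℤ) (n : ℕ) : sumr f n = ∑ i ∈ Finset.range n, f i := by
  induction n with
  | zero => rfl
  | succ n ih => rw [Finset.sum_range_succ, ← ih]; rfl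

/-- absolute value, for evaluation -/
def ab (x : ℤ) : ℤ := (x.natAbs : ℤ)

lemma ab_eq (x : ℤ) : ab x = |x| := Int.natCast_natAbs x

/-- coefficient -/
def gt (c : List ℤ) (n : ℕ) : ℤ := c.getD n 0

lemma gt_of_le {c : List ℤ} {n : ℕ} (h : c.length ≤ n) : gt c n = 0 := by
  unfold gt
  rw [List.getD_eq_default _ _ h]

/-- trigonometric polynomial with coefficients `c n / 10^12` -/
noncomputable def ofL (c : List ℤ) : W :=
  ∑ i ∈ Finset.range c.length, ((gt c i : ℝ) / 10^12) • bs i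

lemma W.sum_apply {ι : Type*} (s : Finset ι) (f : ι → W) (n : ℕ) :
    (∑ i ∈ s, f i : W) n = ∑ i ∈ s, f i n := by
  rw [lp.coeFn_sum, Finset.sum_apply]

lemma W.smul_apply (a : ℝ) (f : W) (n : ℕ) : (a • f : W) n = a * f n := by
  rw [lp.coeFn_smul, Pi.smul_apply, smul_eq_mul]

lemma W.add_apply (f g : W) (n : ℕ) : (f + g : W) n = f n + g n := by
  rw [lp.coeFn_add, Pi.add_apply]

lemma W.sub_apply (f g : W) (n : ℕ) : (f - g : W) n = f n - g n := by
  rw [lp.coeFn_sub, Pi.sub_apply]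

lemma ofL_apply (c : List ℤ) (n : ℕ) : ofL c n = (gt c n : ℝ) / 10^12 := by
  unfold ofL
  rw [W.sum_apply]
  simp only [W.smul_apply, bs_apply]
  by_cases h : n < c.length
  · rw [Finset.sum_eq_single n]
    · simp
    · intro b _ hb; simp [Ne.symm hb]
    · intro hn; exact absurd (Finset.mem_range.mpr h) hn
  · rw [gt_of_le (not_lt.mp h), Finset.sum_eq_zero]
    · simp
    · intro i hi
      have := Finset.mem_range.mp hi
      rw [if_neg (by omega)]; simp

lemma norm_of_supp {f : W} {K : ℕ} (hf : ∀ n, K ≤ n → f n = 0) :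
    ‖f‖ = ∑ n ∈ Finset.range K, |f n| := by
  rw [W.norm_def, tsum_eq_sum]
  intro n hn
  rw [hf n (by simpa using hn), abs_zero]

/-- `ℓ¹` norm times `10^12` -/
def l1 (c : List ℤ) : ℤ := sumr (fun i => ab (gt c i)) c.length

lemma norm_ofL (c : List ℤ) : ‖ofL c‖ = (l1 c : ℝ) / 10^12 := by
  rw [norm_of_supp (K := c.length)]
  · unfold l1
    rw [sumr_eq]
    push_cast
    rw [Finset.sum_div]
    apply Finset.sum_congr rfl
    intro i _
    rw [ofL_apply, abs_div, ab_eq]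
    push_cast
    congr 1
    norm_num
  · intro n hn
    rw [ofL_apply, gt_of_le hn]; simp

/-- `f` is within `r / 10^12` of the polynomial `c` -/
def near (f : W) (c : List ℤ) (r : ℤ) : Prop := ‖f - ofL c‖ ≤ (r : ℝ) / 10^12

lemma near.norm_le {f : W} {c : List ℤ} {r : ℤ} (h : near f c r) :
    ‖f‖ ≤ ((l1 c : ℝ) + r) / 10^12 := by
  have h1 : ‖f‖ ≤ ‖f - ofL c‖ + ‖ofL c‖ := by
    have := norm_add_le (f - ofL c) (ofL c)
    simpa using this
  have h2 : ‖f - ofL c‖ ≤ (r : ℝ) / 10^12 := h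
  rw [norm_ofL] at h1
  rw [add_div]
  linarith

lemma near.coeff {f : W} {c : List ℤ} {r : ℤ} (h : near f c r) (n : ℕ) :
    |f n - (gt c n : ℝ) / 10^12| ≤ (r : ℝ) / 10^12 := by
  have h1 := W.abs_le (f - ofL c) n
  rw [W.sub_apply, ofL_apply] at h1
  exact h1.trans h

lemma near.nonneg {f : W} {c : List ℤ} {r : ℤ} (h : near f c r) : (0:ℝ) ≤ r := by
  have h1 : (0:ℝ) ≤ (r:ℝ) / 10^12 := (norm_nonneg _).trans h
  have := mul_nonneg h1 (by norm_num : (0:ℝ) ≤ 10^12)
  rwa [div_mul_cancel₀ _ (by norm_num)] at this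

lemma near_mono {f : W} {c : List ℤ} {r s : ℤ} (h : near f c r) (hrs : r ≤ s) : near f c s := by
  have h1 : ‖f - ofL c‖ ≤ (r : ℝ) / 10^12 := h
  refine h1.trans ?_
  have : (r:ℝ) ≤ s := by exact_mod_cast hrs
  gcongr

lemma l1_nonneg (c : List ℤ) : (0:ℝ) ≤ l1 c := by
  have h := norm_ofL c
  have h1 := norm_nonneg (ofL c)
  rw [h] at h1
  have := mul_nonneg h1 (by norm_num : (0:ℝ) ≤ 10^12)
  rwa [div_mul_cancel₀ _ (by norm_num)] at this

/-! ### products -/

lemma bil_sum_left {h : ℕ × ℕ → W} (hh : ∀ p, ‖h p‖ ≤ 1) (s : Finset ℕ) (F : ℕ → W) (g : W) :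
    bil h (∑ i ∈ s, F i) g = ∑ i ∈ s, bil h (F i) g := by
  classical
  induction s using Finset.induction_on with
  | empty =>
    rw [Finset.sum_empty, Finset.sum_empty]
    have := bil_smul_left hh 0 (0 : W) g
    simpa using this
  | insert a s ha ih => rw [Finset.sum_insert ha, Finset.sum_insert ha, bil_add_left hh, ih]

lemma bil_sum_right {h : ℕ × ℕ → W} (hh : ∀ p, ‖h p‖ ≤ 1) (s : Finset ℕ) (F : ℕ → W) (g : W) :
    bil h g (∑ i ∈ s, F i) = ∑ i ∈ s, bil h g (F i) := by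
  classical
  induction s using Finset.induction_on with
  | empty =>
    rw [Finset.sum_empty, Finset.sum_empty]
    have := bil_smul_right hh 0 g (0 : W)
    simpa using this
  | insert a s ha ih => rw [Finset.sum_insert ha, Finset.sum_insert ha, bil_add_right hh, ih]

lemma bil_ofL {h : ℕ × ℕ → W} (hh : ∀ p, ‖h p‖ ≤ 1) (a b : List ℤ) :
    bil h (ofL a) (ofL b) = ∑ i ∈ Finset.range a.length, ∑ j ∈ Finset.range b.length,
      ((gt a i : ℝ) / 10^12 * ((gt b j : ℝ) / 10^12)) • h (i, j) := by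
  unfold ofL
  rw [bil_sum_left hh]
  apply Finset.sum_congr rfl
  intro i _
  rw [bil_smul_left hh, bil_sum_right hh, Finset.smul_sum]
  apply Finset.sum_congr rfl
  intro j _
  rw [bil_smul_right hh, bil_bs hh, smul_smul]

/-- coefficients of the product of two cosine polynomials -/
def mulC (a b : List ℤ) (n : ℕ) : ℤ :=
  sumr (fun i => sumr (fun j => (if i + j = n then gt a i * gt b j else 0) +
    (if (i - j) + (j - i) = n then gt a i * gt b j else 0)) b.length) a.length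

/-- coefficients of the product of two sine polynomials -/
def smlC (a b : List ℤ) (n : ℕ) : ℤ :=
  sumr (fun i => sumr (fun j => (if (i - j) + (j - i) = n then gt a i * gt b j else 0) -
    (if i + j = n then gt a i * gt b j else 0)) b.length) a.length

lemma mul_ofL (a b : List ℤ) (n : ℕ) :
    mul (ofL a) (ofL b) n = (mulC a b n : ℝ) / (2 * 10^24) := by
  unfold mul
  rw [bil_ofL norm_hc, W.sum_apply]
  unfold mulC
  rw [sumr_eq, Int.cast_sum, Finset.sum_div]
  apply Finset.sum_congr rfl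
  intro i _
  rw [W.sum_apply, sumr_eq, Int.cast_sum, Finset.sum_div]
  apply Finset.sum_congr rfl
  intro j _
  rw [W.smul_apply]
  unfold hc
  rw [W.smul_apply, W.add_apply, bs_apply, bs_apply]
  dsimp only
  push_cast
  have e1 : (n = i + j) = (i + j = n) := propext eq_comm
  have e2 : (n = Nat.dist i j) = ((i - j) + (j - i) = n) := propext eq_comm
  simp only [e1, e2]
  split_ifs <;> ring

lemma sml_ofL (a b : List ℤ) (n : ℕ) :
    sml (ofL a) (ofL b) n = (smlC a b n : ℝ) / (2 * 10^24) := by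
  unfold sml
  rw [bil_ofL norm_hs, W.sum_apply]
  unfold smlC
  rw [sumr_eq, Int.cast_sum, Finset.sum_div]
  apply Finset.sum_congr rfl
  intro i _
  rw [W.sum_apply, sumr_eq, Int.cast_sum, Finset.sum_div]
  apply Finset.sum_congr rfl
  intro j _
  rw [W.smul_apply]
  unfold hs
  rw [W.smul_apply, W.sub_apply, bs_apply, bs_apply]
  dsimp only
  push_cast
  have e1 : (n = i + j) = (i + j = n) := propext eq_comm
  have e2 : (n = Nat.dist i j) = ((i - j) + (j - i) = n) := propext eq_comm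
  simp only [e1, e2]
  split_ifs <;> ring

lemma mulC_zero (a b : List ℤ) (n : ℕ) (hn : a.length + b.length ≤ n) : mulC a b n = 0 := by
  unfold mulC
  rw [sumr_eq]
  apply Finset.sum_eq_zero
  intro i hi
  rw [sumr_eq]
  apply Finset.sum_eq_zero
  intro j hj
  have h1 := Finset.mem_range.mp hi
  have h2 := Finset.mem_range.mp hj
  rw [if_neg (by omega), if_neg (by omega)]; rfl

lemma smlC_zero (a b : List ℤ) (n : ℕ) (hn : a.length + b.length ≤ n) : smlC a b n = 0 := by
  unfold smlC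
  rw [sumr_eq]
  apply Finset.sum_eq_zero
  intro i hi
  rw [sumr_eq]
  apply Finset.sum_eq_zero
  intro j hj
  have h1 := Finset.mem_range.mp hi
  have h2 := Finset.mem_range.mp hj
  rw [if_neg (by omega), if_neg (by omega)]; rfl

/-- check for a product -/
def mulOK (a : List ℤ) (r : ℤ) (b : List ℤ) (s : ℤ) (c : List ℤ) (t : ℤ) : Bool :=
  Nat.ble c.length (a.length + b.length) &&
  decide (2 * r * l1 b + 2 * (l1 a + r) * s +
    sumr (fun n => ab (2 * 10^12 * gt c n - mulC a b n)) (a.length + b.length) ≤ 2 * 10^12 * t)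

def smlOK (a : List ℤ) (r : ℤ) (b : List ℤ) (s : ℤ) (c : List ℤ) (t : ℤ) : Bool :=
  Nat.ble c.length (a.length + b.length) &&
  decide (2 * r * l1 b + 2 * (l1 a + r) * s +
    sumr (fun n => ab (2 * 10^12 * gt c n - smlC a b n)) (a.length + b.length) ≤ 2 * 10^12 * t)

/-- norm of a difference with a polynomial, in scaled integers -/
lemma norm_sub_ofL_le {g : W} {c : List ℤ} {K : ℕ} {G : ℕ → ℤ} {D : ℝ} (hD : 0 < D)
    (hg : ∀ n, g n = (G n : ℝ) / (D * 10^12)) (hG : ∀ n, K ≤ n → G n = 0) (hc : c.length ≤ K)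
    (D' : ℤ) (hDD : D = D') :
    ‖g - ofL c‖ = ((sumr (fun n => ab (D' * gt c n - G n)) K : ℤ) : ℝ) / (D * 10^12) := by
  rw [norm_of_supp (K := K)]
  · rw [sumr_eq, Int.cast_sum, Finset.sum_div]
    apply Finset.sum_congr rfl
    intro n _
    rw [W.sub_apply, hg, ofL_apply, ab_eq]
    push_cast
    rw [← hDD]
    have e : (G n : ℝ) / (D * 10^12) - (gt c n : ℝ) / 10^12 =
        -((D * gt c n - G n) / (D * 10^12)) := by
      field_simp; ring
    rw [e, abs_neg, abs_div, abs_of_pos (by positivity : 0 < D * 10^12)]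
  · intro n hn
    rw [W.sub_apply, hg, ofL_apply, hG n hn, gt_of_le (hc.trans hn)]; simp

theorem near_mul {f g : W} {a b : List ℤ} {r s : ℤ} (hf : near f a r) (hg : near g b s)
    (c : List ℤ) (t : ℤ) (ok : mulOK a r b s c t = true) : near (mul f g) c t := by
  unfold mulOK at ok
  rw [Bool.and_eq_true, Nat.ble_eq, decide_eq_true_eq] at ok
  obtain ⟨h1, h2⟩ := ok
  have hr := hf.nonneg
  have hs := hg.nonneg
  have hf' : ‖f - ofL a‖ ≤ (r : ℝ) / 10^12 := hf
  have hg' : ‖g - ofL b‖ ≤ (s : ℝ) / 10^12 := hg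
  have e1 : ‖mul (ofL a) (ofL b) - ofL c‖ =
      ((sumr (fun n => ab (2 * 10^12 * gt c n - mulC a b n)) (a.length + b.length) : ℤ) : ℝ) /
        (2 * 10^12 * 10^12) :=
    norm_sub_ofL_le (by norm_num) (fun n => by rw [mul_ofL]; norm_num) (mulC_zero a b) h1
      (2 * 10^12) (by norm_num)
  have e2 := mul_diff_le f (ofL a) g (ofL b)
  have e3 : ‖mul f g - ofL c‖ ≤ ‖mul f g - mul (ofL a) (ofL b)‖ +
      ‖mul (ofL a) (ofL b) - ofL c‖ := by
    have := norm_add_le (mul f g - mul (ofL a) (ofL b)) (mul (ofL a) (ofL b) - ofL c)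
    simpa using this
  have e4 : ‖f‖ * ‖g - ofL b‖ ≤ (((l1 a : ℝ) + r) / 10^12) * ((s : ℝ) / 10^12) :=
    mul_le_mul hf.norm_le hg' (norm_nonneg _) ((norm_nonneg _).trans hf.norm_le)
  have e5 : ‖f - ofL a‖ * ‖ofL b‖ ≤ ((r : ℝ) / 10^12) * ((l1 b : ℝ) / 10^12) := by
    rw [norm_ofL]
    exact mul_le_mul_of_nonneg_right hf' (by have := l1_nonneg b; positivity)
  generalize sumr (fun n => ab (2 * 10^12 * gt c n - mulC a b n)) (a.length + b.length) = Z
    at h2 e1
  have h3 : ((2 * r * l1 b + 2 * (l1 a + r) * s + Z : ℤ) : ℝ) ≤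
      ((2 * 10^12 * t : ℤ) : ℝ) := by exact_mod_cast h2
  push_cast at h3
  unfold near
  rw [e1] at e3
  have e6 : (t : ℝ) / 10^12 = (2 * 10^12 * t) / (2 * 10^12 * 10^12) := by
    field_simp
  rw [e6, le_div_iff₀ (by norm_num)]
  have e7 : (((l1 a : ℝ) + r) / 10^12) * ((s : ℝ) / 10^12) * (2 * 10^12 * 10^12) =
      2 * (l1 a + r) * s := by ring
  have e8 : ((r : ℝ) / 10^12) * ((l1 b : ℝ) / 10^12) * (2 * 10^12 * 10^12) =
      2 * r * l1 b := by ring
  have e9 : ‖mul f g - ofL c‖ * (2 * 10^12 * 10^12) ≤ ((((l1 a : ℝ) + r) / 10^12) *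
      ((s : ℝ) / 10^12) + ((r : ℝ) / 10^12) * ((l1 b : ℝ) / 10^12) +
      (Z : ℝ) / (2 * 10^12 * 10^12)) * (2 * 10^12 * 10^12) :=
    mul_le_mul_of_nonneg_right (by linarith) (by norm_num)
  rw [add_mul, add_mul, div_mul_cancel₀ _ (by norm_num), e7, e8] at e9
  linarith

theorem near_sml {f g : W} {a b : List ℤ} {r s : ℤ} (hf : near f a r) (hg : near g b s)
    (c : List ℤ) (t : ℤ) (ok : smlOK a r b s c t = true) : near (sml f g) c t := by
  unfold smlOK at ok
  rw [Bool.and_eq_true, Nat.ble_eq, decide_eq_true_eq] at ok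
  obtain ⟨h1, h2⟩ := ok
  have hr := hf.nonneg
  have hs := hg.nonneg
  have hf' : ‖f - ofL a‖ ≤ (r : ℝ) / 10^12 := hf
  have hg' : ‖g - ofL b‖ ≤ (s : ℝ) / 10^12 := hg
  have e1 : ‖sml (ofL a) (ofL b) - ofL c‖ =
      ((sumr (fun n => ab (2 * 10^12 * gt c n - smlC a b n)) (a.length + b.length) : ℤ) : ℝ) /
        (2 * 10^12 * 10^12) :=
    norm_sub_ofL_le (by norm_num) (fun n => by rw [sml_ofL]; norm_num) (smlC_zero a b) h1
      (2 * 10^12) (by norm_num)
  have e2 := sml_diff_le f (ofL a) g (ofL b)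
  have e3 : ‖sml f g - ofL c‖ ≤ ‖sml f g - sml (ofL a) (ofL b)‖ +
      ‖sml (ofL a) (ofL b) - ofL c‖ := by
    have := norm_add_le (sml f g - sml (ofL a) (ofL b)) (sml (ofL a) (ofL b) - ofL c)
    simpa using this
  have e4 : ‖f‖ * ‖g - ofL b‖ ≤ (((l1 a : ℝ) + r) / 10^12) * ((s : ℝ) / 10^12) :=
    mul_le_mul hf.norm_le hg' (norm_nonneg _) ((norm_nonneg _).trans hf.norm_le)
  have e5 : ‖f - ofL a‖ * ‖ofL b‖ ≤ ((r : ℝ) / 10^12) * ((l1 b : ℝ) / 10^12) := by
    rw [norm_ofL]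
    exact mul_le_mul_of_nonneg_right hf' (by have := l1_nonneg b; positivity)
  generalize sumr (fun n => ab (2 * 10^12 * gt c n - smlC a b n)) (a.length + b.length) = Z
    at h2 e1
  have h3 : ((2 * r * l1 b + 2 * (l1 a + r) * s + Z : ℤ) : ℝ) ≤
      ((2 * 10^12 * t : ℤ) : ℝ) := by exact_mod_cast h2
  push_cast at h3
  unfold near
  rw [e1] at e3
  have e6 : (t : ℝ) / 10^12 = (2 * 10^12 * t) / (2 * 10^12 * 10^12) := by
    field_simp
  rw [e6, le_div_iff₀ (by norm_num)]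
  have e7 : (((l1 a : ℝ) + r) / 10^12) * ((s : ℝ) / 10^12) * (2 * 10^12 * 10^12) =
      2 * (l1 a + r) * s := by ring
  have e8 : ((r : ℝ) / 10^12) * ((l1 b : ℝ) / 10^12) * (2 * 10^12 * 10^12) =
      2 * r * l1 b := by ring
  have e9 : ‖sml f g - ofL c‖ * (2 * 10^12 * 10^12) ≤ ((((l1 a : ℝ) + r) / 10^12) *
      ((s : ℝ) / 10^12) + ((r : ℝ) / 10^12) * ((l1 b : ℝ) / 10^12) +
      (Z : ℝ) / (2 * 10^12 * 10^12)) * (2 * 10^12 * 10^12) :=
    mul_le_mul_of_nonneg_right (by linarith) (by norm_num)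
  rw [add_mul, add_mul, div_mul_cancel₀ _ (by norm_num), e7, e8] at e9
  linarith

/-! ### multipliers and linear combinations -/

/-- check for a multiplier with coefficients `m` up to `eps`, bounded by `B` -/
def multOK (m : List ℤ) (eps B : ℤ) (a : List ℤ) (r : ℤ) (c : List ℤ) (t : ℤ) : Bool :=
  Nat.ble a.length m.length && (Nat.ble c.length a.length &&
  decide (B * r + eps * l1 a +
    sumr (fun n => ab (10^12 * gt c n - gt m n * gt a n)) a.length ≤ 10^12 * t))

lemma mult_ofL_sub {mu : ℕ → ℝ} {m : List ℤ} {eps : ℤ} {a : List ℤ} {B : ℝ}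
    (hmu : ∀ n, |mu n| ≤ B)
    (happ : ∀ n < m.length, |mu n - (gt m n : ℝ) / 10^12| ≤ (eps : ℝ) / 10^12)
    (hl : a.length ≤ m.length) {c : List ℤ} (hc : c.length ≤ a.length) :
    ‖mult mu (ofL a) - ofL c‖ ≤ ((eps : ℝ) * l1 a +
      (sumr (fun n => ab (10^12 * gt c n - gt m n * gt a n)) a.length : ℤ)) / (10^12 * 10^12) := by
  rw [norm_of_supp (K := a.length)]
  · have hterm : ∀ n ∈ Finset.range a.length, |(mult mu (ofL a) - ofL c : W) n| ≤
        ((eps : ℝ) * (ab (gt a n) : ℤ) + (ab (10^12 * gt c n - gt m n * gt a n) : ℤ)) /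
          (10^12 * 10^12) := by
      intro n hn
      have hn' := Finset.mem_range.mp hn
      have h1 := happ n (by omega)
      rw [W.sub_apply, mult_apply hmu, ofL_apply, ofL_apply, ab_eq, ab_eq]
      push_cast
      have e : mu n * ((gt a n : ℝ) / 10^12) - (gt c n : ℝ) / 10^12 =
          (mu n - (gt m n : ℝ) / 10^12) * ((gt a n : ℝ) / 10^12) -
            (10^12 * gt c n - gt m n * gt a n) / (10^12 * 10^12) := by
        field_simp; ring
      rw [e]
      refine (abs_sub _ _).trans ?_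
      rw [abs_mul, abs_div (gt a n : ℝ), abs_div (10^12 * (gt c n : ℝ) - gt m n * gt a n),
        abs_of_pos (by norm_num : (0:ℝ) < 10^12), abs_of_pos (by norm_num : (0:ℝ) < 10^12 * 10^12)]
      have h2 : |mu n - (gt m n : ℝ) / 10^12| * (|(gt a n : ℝ)| / 10^12) ≤
          (eps : ℝ) / 10^12 * (|(gt a n : ℝ)| / 10^12) :=
        mul_le_mul_of_nonneg_right h1 (by positivity)
      calc _ ≤ (eps : ℝ) / 10^12 * (|(gt a n : ℝ)| / 10^12) +
            |10^12 * (gt c n : ℝ) - gt m n * gt a n| / (10^12 * 10^12) := by linarith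
        _ = _ := by ring
    refine (Finset.sum_le_sum hterm).trans ?_
    rw [← Finset.sum_div, Finset.sum_add_distrib, ← Finset.mul_sum]
    unfold l1
    rw [sumr_eq, sumr_eq]
    push_cast
    exact le_refl _
  · intro n hn
    rw [W.sub_apply, mult_apply hmu, ofL_apply, ofL_apply, gt_of_le hn, gt_of_le (hc.trans hn)]
    simp

theorem near_mult {mu : ℕ → ℝ} {m : List ℤ} {eps B : ℤ} {f : W} {a : List ℤ} {r : ℤ}
    (hf : near f a r) (hmu : ∀ n, |mu n| ≤ (B : ℝ) / 10^12)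
    (happ : ∀ n < m.length, |mu n - (gt m n : ℝ) / 10^12| ≤ (eps : ℝ) / 10^12)
    (c : List ℤ) (t : ℤ) (ok : multOK m eps B a r c t = true) : near (mult mu f) c t := by
  unfold multOK at ok
  rw [Bool.and_eq_true, Bool.and_eq_true, Nat.ble_eq, Nat.ble_eq, decide_eq_true_eq] at ok
  obtain ⟨h1, h1', h2⟩ := ok
  have hr := hf.nonneg
  have hf' : ‖f - ofL a‖ ≤ (r : ℝ) / 10^12 := hf
  have e1 := mult_ofL_sub hmu happ h1 h1'
  have e2 : ‖mult mu f - mult mu (ofL a)‖ ≤ (B : ℝ) / 10^12 * ((r : ℝ) / 10^12) := by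
    rw [← mult_sub hmu]
    refine (norm_mult_le hmu _).trans ?_
    apply mul_le_mul_of_nonneg_left hf'
    exact (abs_nonneg _).trans (hmu 0)
  have e3 : ‖mult mu f - ofL c‖ ≤ ‖mult mu f - mult mu (ofL a)‖ +
      ‖mult mu (ofL a) - ofL c‖ := by
    have := norm_add_le (mult mu f - mult mu (ofL a)) (mult mu (ofL a) - ofL c)
    simpa using this
  generalize sumr (fun n => ab (10^12 * gt c n - gt m n * gt a n)) a.length = Z at h2 e1
  have h3 : ((B * r + eps * l1 a + Z : ℤ) : ℝ) ≤ ((10^12 * t : ℤ) : ℝ) := by exact_mod_cast h2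
  push_cast at h3
  unfold near
  have e6 : (t : ℝ) / 10^12 = (10^12 * t) / (10^12 * 10^12) := by
    field_simp
  rw [e6]
  refine (e3.trans (add_le_add e2 e1)).trans ?_
  rw [div_mul_div_comm, ← add_div]
  apply div_le_div_of_nonneg_right _ (by norm_num)
  linarith

/-- check for `f + α g` -/
def linOK (a : List ℤ) (r : ℤ) (al eps : ℤ) (b : List ℤ) (s : ℤ) (c : List ℤ) (t : ℤ) : Bool :=
  Nat.ble c.length (a.length + b.length) &&
  decide (10^12 * r + (ab al + eps) * s + eps * l1 b +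
    sumr (fun n => ab (10^12 * gt c n - (10^12 * gt a n + al * gt b n))) (a.length + b.length)
      ≤ 10^12 * t)

theorem near_lin {f g : W} {a b : List ℤ} {r s : ℤ} (hf : near f a r) (hg : near g b s)
    {α : ℝ} {al eps : ℤ} (hα : |α - (al : ℝ) / 10^12| ≤ (eps : ℝ) / 10^12)
    (c : List ℤ) (t : ℤ) (ok : linOK a r al eps b s c t = true) : near (f + α • g) c t := by
  unfold linOK at ok
  rw [Bool.and_eq_true, Nat.ble_eq, decide_eq_true_eq] at ok
  obtain ⟨h1, h2⟩ := ok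
  have hr := hf.nonneg
  have hs := hg.nonneg
  have hf' : ‖f - ofL a‖ ≤ (r : ℝ) / 10^12 := hf
  have hg' : ‖g - ofL b‖ ≤ (s : ℝ) / 10^12 := hg
  have heps : (0:ℝ) ≤ (eps : ℝ) / 10^12 := (abs_nonneg _).trans hα
  have hα' : |α| ≤ ((ab al : ℤ) : ℝ) / 10^12 + (eps : ℝ) / 10^12 := by
    have := abs_add_le (α - (al : ℝ) / 10^12) ((al : ℝ) / 10^12)
    rw [sub_add_cancel, abs_div, abs_of_pos (by norm_num : (0:ℝ) < 10^12)] at this
    rw [ab_eq]
    push_cast
    linarith
  have e0 : ‖(ofL a + ((al : ℝ) / 10^12) • ofL b) - ofL c‖ =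
      ((sumr (fun n => ab (10^12 * gt c n - (10^12 * gt a n + al * gt b n)))
        (a.length + b.length) : ℤ) : ℝ) / (10^12 * 10^12) := by
    apply norm_sub_ofL_le (by norm_num) _ _ h1 (10^12) (by norm_num)
    · intro n
      rw [W.add_apply, W.smul_apply, ofL_apply, ofL_apply]
      push_cast
      ring
    · intro n hn
      rw [gt_of_le (by omega), gt_of_le (by omega)]; ring
  have e1 : (f + α • g) - ofL c = (f - ofL a) + α • (g - ofL b) +
      (α - (al : ℝ) / 10^12) • ofL b + ((ofL a + ((al : ℝ) / 10^12) • ofL b) - ofL c) := by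
    module
  have e2 : ‖(f + α • g) - ofL c‖ ≤ ‖f - ofL a‖ + ‖α • (g - ofL b)‖ +
      ‖(α - (al : ℝ) / 10^12) • ofL b‖ + ‖(ofL a + ((al : ℝ) / 10^12) • ofL b) - ofL c‖ := by
    rw [e1]
    refine (norm_add_le _ _).trans ?_
    gcongr
    refine (norm_add_le _ _).trans ?_
    gcongr
    exact norm_add_le _ _
  have e3 : ‖α • (g - ofL b)‖ ≤ (((ab al : ℤ) : ℝ) / 10^12 + (eps : ℝ) / 10^12) *
      ((s : ℝ) / 10^12) := by
    rw [norm_smul, Real.norm_eq_abs]
    exact mul_le_mul hα' hg' (norm_nonneg _) ((abs_nonneg _).trans hα')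
  have e4 : ‖(α - (al : ℝ) / 10^12) • ofL b‖ ≤ (eps : ℝ) / 10^12 * ((l1 b : ℝ) / 10^12) := by
    rw [norm_smul, Real.norm_eq_abs, norm_ofL]
    exact mul_le_mul_of_nonneg_right hα (by have := l1_nonneg b; positivity)
  generalize sumr (fun n => ab (10^12 * gt c n - (10^12 * gt a n + al * gt b n)))
    (a.length + b.length) = Z at h2 e0
  have h3 : ((10^12 * r + (ab al + eps) * s + eps * l1 b + Z : ℤ) : ℝ) ≤
    ((10^12 * t : ℤ) : ℝ) := by exact_mod_cast h2
  push_cast at h3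
  unfold near
  have e6 : (t : ℝ) / 10^12 = (10^12 * t) / (10^12 * 10^12) := by
    field_simp
  rw [e6, le_div_iff₀ (by norm_num)]
  rw [e0] at e2
  have e7 : ‖(f + α • g) - ofL c‖ * (10^12 * 10^12) ≤ ((r : ℝ) / 10^12 +
      (((ab al : ℤ) : ℝ) / 10^12 + (eps : ℝ) / 10^12) * ((s : ℝ) / 10^12) +
      (eps : ℝ) / 10^12 * ((l1 b : ℝ) / 10^12) + (Z : ℝ) / (10^12 * 10^12)) * (10^12 * 10^12) :=
    mul_le_mul_of_nonneg_right (by linarith) (by norm_num)
  have e8 : ((r : ℝ) / 10^12 +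
      (((ab al : ℤ) : ℝ) / 10^12 + (eps : ℝ) / 10^12) * ((s : ℝ) / 10^12) +
      (eps : ℝ) / 10^12 * ((l1 b : ℝ) / 10^12) + (Z : ℝ) / (10^12 * 10^12)) * (10^12 * 10^12) =
      10^12 * r + (ab al + eps) * s + eps * l1 b + Z := by
    field_simp
  rw [e8] at e7
  linarith

lemma near_zero : near 0 [] 0 := by
  unfold near
  have : ofL [] = 0 := by unfold ofL; simp
  rw [this]; simp

lemma near_ofL (c : List ℤ) : near (ofL c) c 0 := by
  unfold near; simp

lemma near_bs_zero : near (bs 0) [10^12] 0 := by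
  unfold near
  have : ofL [10^12] = bs 0 := by
    unfold ofL
    norm_num [gt]
  rw [this]; simp

/-! ### truncated power series -/

noncomputable def psum (c : ℕ → ℝ) (f : W) (N : ℕ) : W := ∑ n ∈ Finset.range N, c n • pw f n

lemma psum_succ (c : ℕ → ℝ) (f : W) (N : ℕ) : psum c f (N+1) = psum c f N + c N • pw f N :=
  Finset.sum_range_succ _ _

lemma near_psum_zero (c : ℕ → ℝ) (f : W) : near (psum c f 0) [] 0 := by
  unfold psum; simpa using near_zero

lemma near_psum_succ {c : ℕ → ℝ} {f : W} {N : ℕ} {a b : List ℤ} {r s : ℤ}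
    (h : near (psum c f N) a r) (hp : near (pw f N) b s)
    {al eps : ℤ} (hα : |c N - (al : ℝ) / 10^12| ≤ (eps : ℝ) / 10^12)
    (d : List ℤ) (t : ℤ) (ok : linOK a r al eps b s d t = true) :
    near (psum c f (N+1)) d t := by
  rw [psum_succ]
  exact near_lin h hp hα d t ok

lemma near_psum_skip {c : ℕ → ℝ} {f : W} {N : ℕ} {a : List ℤ} {r : ℤ}
    (h : near (psum c f N) a r) (hc : c N = 0) : near (psum c f (N+1)) a r := by
  rw [psum_succ, hc, zero_smul, add_zero]; exact h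

/-- from the truncation to the series -/
lemma near_ps {c : ℕ → ℝ} {f : W} {N : ℕ} {a : List ℤ} {r : ℤ} {A R : ℝ}
    (h : near (psum c f N) a r) (hs : Summable fun n => |c n| * R ^ n)
    (hA : ∀ n, |c (n + N)| ≤ A) (hf : ‖f‖ ≤ R) (hR1 : R < 1) {t : ℤ}
    (ht : A * R ^ N / (1 - R) ≤ ((t : ℝ) - r) / 10^12) : near (ps c f) a t := by
  have hR0 : 0 ≤ R := (norm_nonneg f).trans hf
  have h1 := ps_trunc hs hf N
  have h2 : ∑' n, |c (n + N)| * R ^ (n + N) ≤ A * R^N / (1 - R) := by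
    have := (tsum_shift_le (a := fun n => |c (n + N)| * R ^ (n + N)) (k := 0) (A := A * R^N)
      (r := R) (fun n => by positivity) (fun n hn => by omega) hR0 hR1 (by
        intro n
        rw [add_zero, pow_add]
        have := mul_le_mul_of_nonneg_right (hA n) (by positivity : (0:ℝ) ≤ R^n * R^N)
        linarith)).2
    exact this
  unfold near
  have e : ps c f - ofL a = (ps c f - psum c f N) + (psum c f N - ofL a) := by abel
  rw [e]
  refine (norm_add_le _ _).trans ?_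
  have h3 : ‖psum c f N - ofL a‖ ≤ (r : ℝ) / 10^12 := h
  have h4 : ‖ps c f - psum c f N‖ ≤ A * R^N / (1 - R) := h1.trans h2
  rw [sub_div] at ht
  linarith

end Pool.Agent.Work.MP_5da384_an
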