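import Pool.Agent.Work.MP_5da384_an.CertC

set_option autoImplicit false

open Filter Topology Set
open scoped ENNReal NNReal

namespace Pool.Agent.Work.MP_5da384_an

/-- approximate fixed point at `0.159` -/
def ZA : List ℤ := [-3160821706, 31725688, 2923311240, 74188276, 2085377, 59339]

theorem certA : near (Phi 0.159 (ofL ZA)) [-3160821706, 31725688, 2923311240, 74188276, 2085377, 59339] 392152 ∧
    near (Ef (lf 0.159 (ofL ZA))) [26, 158730443664, 9222867232, 472887461, 22625636, 1031653] 48110 ∧
    near (Nf 0.159 (ofL ZA)) [63459510, 22803119779, 4991229947, 391664916, 23233780, 1158226] 341470 := by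
  have hz : near (ofL ZA) [-3160821706, 31725688, 2923311240, 74188276, 2085377, 59339] 0 := near_ofL _
  have hmz : near (mult mM (ofL ZA)) [-6321643412, 0, 2923311240, 74188276, 2085377, 59339] 0 :=
    near_mult (m := LmM) (eps := 0) (B := 2000000000000) hz BmM AmM _ _ (by decide +kernel)
  have hl : near (lf 0.159 (ofL ZA)) [-6321643412, 159000000000, 2923311240, 74188276, 2085377, 59339] 0 := by
    unfold lf; rw [add_comm]
    exact near_lin (al := 159000000000) (eps := 0) hmz near_bs_one (by norm_num) _ _ (by decide +kernel)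
  have lp1 : near (pw (lf 0.159 (ofL ZA)) 1) [-6321643412, 159000000000, 2923311240, 74188276, 2085377, 59339] 0 :=
    near_mul hl near_bs_zero _ _ (by decide +kernel)
  have lp2 : near (pw (lf 0.159 (ofL ZA)) 2) [12684738804, -1545259088, 12615341774, 464200252, 16051879, 547700] 18619 :=
    near_mul hl lp1 _ _ (by decide +kernel)
  have lp3 : near (pw (lf 0.159 (ofL ZA)) 3) [-184579972, 3028450618, -128633100, 999943273, 55254360, 2418260] 102773 :=
    near_mul hl lp2 _ _ (by decide +kernel)
  have lp4 : near (pw (lf 0.159 (ofL ZA)) 4) [241777805, -52832882, 320723988, -7735348, 79262469, 5837382] 334167 :=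
    near_mul hl lp3 _ _ (by decide +kernel)
  have lp5 : near (pw (lf 0.159 (ofL ZA)) 5) [-5260063, 64200526, -6021440, 31797024, -184627, 6265014] 648003 :=
    near_mul hl lp4 _ _ (by decide +kernel)
  have lp6 : near (pw (lf 0.159 (ofL ZA)) 6) [5129572, -1580782, 7656832, -591719, 3020670, -7963] 617472 :=
    near_mul hl lp5 _ _ (by decide +kernel)
  have Ps0 : near (psum cP (lf 0.159 (ofL ZA)) 0) [] 0 := near_psum_zero _ _
  have Ps1 : near (psum cP (lf 0.159 (ofL ZA)) 1) [] 0 :=
    near_psum_skip Ps0 cPz0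
  have Ps2 : near (psum cP (lf 0.159 (ofL ZA)) 2) [] 0 :=
    near_psum_skip Ps1 cPz1
  have Ps3 : near (psum cP (lf 0.159 (ofL ZA)) 3) [6342369402, -772629544, 6307670887, 232100126, 8025940, 273850] 9310 :=
    near_psum_succ (al := 500000000000) (eps := 0) Ps2 lp2 cPv2 _ _ (by decide +kernel)
  have Ps4 : near (psum cP (lf 0.159 (ofL ZA)) 4) [6311606073, -267887774, 6286232037, 398757338, 17235000, 676893] 26441 :=
    near_psum_succ (al := 166666666667) (eps := 1) Ps3 lp3 cPv3 _ _ (by decide +kernel)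
  have Ps5 : near (psum cP (lf 0.159 (ofL ZA)) 5) [6321680148, -270089144, 6299595537, 398435032, 20537603, 920117] 40366 :=
    near_psum_succ (al := 41666666667) (eps := 1) Ps4 lp4 cPv4 _ _ (by decide +kernel)
  have Ps6 : near (psum cP (lf 0.159 (ofL ZA)) 6) [6321636314, -269554140, 6299545358, 398700007, 20536064, 972325] 45768 :=
    near_psum_succ (al := 8333333333) (eps := 1) Ps5 lp5 cPv5 _ _ (by decide +kernel)
  have Ps7 : near (psum cP (lf 0.159 (ofL ZA)) 7) [6321643438, -269556336, 6299555992, 398699185, 20540259, 972314] 46628 :=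
    near_psum_succ (al := 1388888889) (eps := 1) Ps6 lp6 cPv6 _ _ (by decide +kernel)
  have hP : near (ps cP (lf 0.159 (ofL ZA))) [6321643438, -269556336, 6299555992, 398699185, 20540259, 972314] 48110 :=
    near_ps (A := 1/5040) (R := 180000000000/10^12) Ps7 (sumP (by norm_num) (by norm_num)).1 cPt7
      (hl.norm_le' (by decide +kernel)) (by norm_num) (by norm_num)
  have hP' : near (Pf (lf 0.159 (ofL ZA))) [6321643438, -269556336, 6299555992, 398699185, 20540259, 972314] 48110 := hP
  have hE : near (Ef (lf 0.159 (ofL ZA))) [26, 158730443664, 9222867232, 472887461, 22625636, 1031653] 48110 :=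
    near_add hl hP' _ _ (by decide +kernel)
  have hy : near (yf (Ef (lf 0.159 (ofL ZA)))) [0, -4338822214, -232912570, -10402168, -404029, -13616] 3004 :=
    near_mult (m := Lyc) (eps := 10000) (B := 27400000000) hE Byc Ayc _ _ (by decide +kernel)
  have yp1 : near (pw (yf (Ef (lf 0.159 (ofL ZA)))) 1) [0, -4338822214, -232912570, -10402168, -404029, -13616] 3004 :=
    near_mul hy near_bs_zero _ _ (by decide +kernel)
  have yp2 : near (pw (yf (Ef (lf 0.159 (ofL ZA)))) 2) [9439867, 1012993, 9457917, 1012322, 72316, 4176] 245 :=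
    near_mul hy yp1 _ _ (by decide +kernel)
  have Ss0 : near (psum cS (yf (Ef (lf 0.159 (ofL ZA)))) 0) [] 0 := near_psum_zero _ _
  have Ss1 : near (psum cS (yf (Ef (lf 0.159 (ofL ZA)))) 1) [] 0 :=
    near_psum_skip Ss0 cSz0
  have Ss2 : near (psum cS (yf (Ef (lf 0.159 (ofL ZA)))) 2) [0, -4338822214, -232912570, -10402168, -404029, -13616] 3004 :=
    near_psum_succ (al := 1000000000000) (eps := 0) Ss1 yp1 cSv1 _ _ (by decide +kernel)
  have Ss3 : near (psum cS (yf (Ef (lf 0.159 (ofL ZA)))) 3) [0, -4338822214, -232912570, -10402168, -404029, -13616] 3004 :=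
    near_psum_skip Ss2 cSz2
  have hs : near (ps cS (yf (Ef (lf 0.159 (ofL ZA))))) [0, -4338822214, -232912570, -10402168, -404029, -13616] 23943 :=
    near_ps (A := 1/6) (R := 5000000000/10^12) Ss3 (sumS (by norm_num) (by norm_num)).1 cSt3
      (hy.norm_le' (by decide +kernel)) (by norm_num) (by norm_num)
  have Cs0 : near (psum cC (yf (Ef (lf 0.159 (ofL ZA)))) 0) [] 0 := near_psum_zero _ _
  have Cs1 : near (psum cC (yf (Ef (lf 0.159 (ofL ZA)))) 1) [] 0 :=
    near_psum_skip Cs0 cCz0
  have Cs2 : near (psum cC (yf (Ef (lf 0.159 (ofL ZA)))) 2) [] 0 :=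
    near_psum_skip Cs1 cCz1
  have Cs3 : near (psum cC (yf (Ef (lf 0.159 (ofL ZA)))) 3) [-4719933, -506496, -4728958, -506161, -36158, -2088] 124 :=
    near_psum_succ (al := -500000000000) (eps := 0) Cs2 yp2 cCv2 _ _ (by decide +kernel)
  have Cs4 : near (psum cC (yf (Ef (lf 0.159 (ofL ZA)))) 4) [-4719933, -506496, -4728958, -506161, -36158, -2088] 124 :=
    near_psum_skip Cs3 cCz3
  have hc : near (ps cC (yf (Ef (lf 0.159 (ofL ZA))))) [-4719933, -506496, -4728958, -506161, -36158, -2088] 151 :=
    near_ps (A := 1/24) (R := 5000000000/10^12) Cs4 (sumC (by norm_num) (by norm_num)).1 cCt4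
      (hy.norm_le' (by decide +kernel)) (by norm_num) (by norm_num)
  have hd : near (df (yf (Ef (lf 0.159 (ofL ZA))))) [-4719933, -21813238762, -1175659519, -52801391, -2067349, -70540] 132437 :=
    near_lin (al := 5027339492126) (eps := 2600000) hc hs tauv _ _ (by decide +kernel)
  have dp1 : near (pw (df (yf (Ef (lf 0.159 (ofL ZA))))) 1) [-4719933, -21813238762, -1175659519, -52801391, -2067349, -70540] 132437 :=
    near_mul hd near_bs_zero _ _ (by decide +kernel)
  have dp2 : near (pw (df (yf (Ef (lf 0.159 (ofL ZA))))) 2) [238601199, 25913042, 239073994, 25690619, 1844415, 107173] 11669 :=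
    near_mul hd dp1 _ _ (by decide +kernel)
  have dp3 : near (pw (df (yf (Ef (lf 0.159 (ofL ZA))))) 3) [-424965, -7848998, -846483, -2655656, -423089, -41574] 3673 :=
    near_mul hd dp2 _ _ (by decide +kernel)
  have Gs0 : near (psum cG (df (yf (Ef (lf 0.159 (ofL ZA))))) 0) [] 0 := near_psum_zero _ _
  have Gs1 : near (psum cG (df (yf (Ef (lf 0.159 (ofL ZA))))) 1) [1000000000000] 0 :=
    near_psum_succ (al := 1000000000000) (eps := 0) Gs0 near_bs_zero cGv0 _ _ (by decide +kernel)
  have Gs2 : near (psum cG (df (yf (Ef (lf 0.159 (ofL ZA))))) 2) [1000004719933, 21813238762, 1175659519, 52801391, 2067349, 70540] 132437 :=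
    near_psum_succ (al := -1000000000000) (eps := 0) Gs1 dp1 cGv1 _ _ (by decide +kernel)
  have Gs3 : near (psum cG (df (yf (Ef (lf 0.159 (ofL ZA))))) 3) [1000243321132, 21839151804, 1414733513, 78492010, 3911764, 177713] 144106 :=
    near_psum_succ (al := 1000000000000) (eps := 0) Gs2 dp2 cGv2 _ _ (by decide +kernel)
  have Gs4 : near (psum cG (df (yf (Ef (lf 0.159 (ofL ZA))))) 4) [1000243746097, 21847000802, 1415579996, 81147666, 4334853, 219287] 147779 :=
    near_psum_succ (al := -1000000000000) (eps := 0) Gs3 dp3 cGv3 _ _ (by decide +kernel)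
  have hv : near (ps cG (df (yf (Ef (lf 0.159 (ofL ZA)))))) [1000243746097, 21847000802, 1415579996, 81147666, 4334853, 219287] 616954 :=
    near_ps (A := 1) (R := 26000000000/10^12) Gs4 (sumG (by norm_num) (by norm_num)).1 cGt4
      (hd.norm_le' (by decide +kernel)) (by norm_num) (by norm_num)
  have hsv : near (mul (ps cS (yf (Ef (lf 0.159 (ofL ZA))))) (vf (yf (Ef (lf 0.159 (ofL ZA)))))) [-47560402, -4345511832, -280654931, -16033752, -859276, -44250] 29251 :=
    near_mul hs hv _ _ (by decide +kernel)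
  have hU : near (UU (lf 0.159 (ofL ZA))) [248562639, 22710739292, 1466773355, 83796426, 4490793, 231262] 162257 :=
    near_smul (al := -5226251859506) (eps := 2000000) hsv ppv _ _ (by decide +kernel)
  have hCE : near (mult Cc (Ef (lf 0.159 (ofL ZA)))) [26, 146647808088, 6521551962, 180966197, 0, -394797] 64957 :=
    near_mult (m := LCc) (eps := 100000) (B := 1000000000000) hE BCc ACc _ _ (by decide +kernel)
  have hCU : near (mul (mult Cc (Ef (lf 0.159 (ofL ZA)))) (UU (lf 0.159 (ofL ZA)))) [1670030470, 218461714, 1675074950, 181978910, 12994512, 735144] 62052 :=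
    near_mul hCE hU _ _ (by decide +kernel)
  have hD : near (mult Sc (lf 0.159 (ofL ZA))) [0, 60846665746, 2067093201, 68541030, 2085377, 54822] 16833 :=
    near_mult (m := LSc) (eps := 100000) (B := 1000000000000) hl BSc ASc _ _ (by decide +kernel)
  have hq : near (qf (lf 0.159 (ofL ZA))) [1853297154, 125917553, -1846983559, -125648728, -6303595, -268569] 12381 :=
    near_sml hD hD _ _ (by decide +kernel)
  have qp1 : near (pw (qf (lf 0.159 (ofL ZA))) 1) [1853297154, 125917553, -1846983559, -125648728, -6303595, -268569] 12381 :=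
    near_mul hq near_bs_zero _ _ (by decide +kernel)
  have qp2 : near (pw (qf (lf 0.159 (ofL ZA))) 2) [5156226, 467023, -6842236, -698594, 1666454, 230282] 20946 :=
    near_mul hq qp1 _ _ (by decide +kernel)
  have Hs0 : near (psum cH (qf (lf 0.159 (ofL ZA))) 0) [] 0 := near_psum_zero _ _
  have Hs1 : near (psum cH (qf (lf 0.159 (ofL ZA))) 1) [] 0 :=
    near_psum_skip Hs0 cHz0
  have Hs2 : near (psum cH (qf (lf 0.159 (ofL ZA))) 2) [1853297154, 125917553, -1846983559, -125648728, -6303595, -268569] 12381 :=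
    near_psum_succ (al := 1000000000000) (eps := 0) Hs1 qp1 cHv1 _ _ (by decide +kernel)
  have Hs3 : near (psum cH (qf (lf 0.159 (ofL ZA))) 3) [1855015896, 126073227, -1849264304, -125881593, -5748110, -191808] 19365 :=
    near_psum_succ (al := 333333333333) (eps := 1) Hs2 qp2 cHv2 _ _ (by decide +kernel)
  have hch : near (ps cH (qf (lf 0.159 (ofL ZA)))) [1855015896, 126073227, -1849264304, -125881593, -5748110, -191808] 117151 :=
    near_ps (A := 1) (R := 4600000000/10^12) Hs3 (sumH (by norm_num) (by norm_num)).1 cHt3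
      (hq.norm_le' (by decide +kernel)) (by norm_num) (by norm_num)
  have hUC : near (UU (lf 0.159 (ofL ZA)) + mul (mult Cc (Ef (lf 0.159 (ofL ZA)))) (UU (lf 0.159 (ofL ZA)))) [1918593109, 22929201006, 3141848305, 265775336, 17485305, 966406] 224309 :=
    near_add hU hCU _ _ (by decide +kernel)
  have hN : near (Nf 0.159 (ofL ZA)) [63459510, 22803119779, 4991229947, 391664916, 23233780, 1158226] 341470 := by
    unfold Nf Ff; rw [sub_eq_add_neg, ← neg_smul]
    exact near_lin (al := -1000063451376) (eps := 0) hUC hch (by rw [ofL_apply]; norm_num [gt, ZA]) _ _ (by decide +kernel)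
  have ha1 : near (mult m1 (ofL ZA)) [0, 0, 524874216, 3678312, 0, -1765] 1859 :=
    near_mult (m := Lm1) (eps := 300000) (B := 320000000000) hz Bm1 Am1 _ _ (by decide +kernel)
  have ha2 : near (mult m2 (Pf (lf 0.159 (ofL ZA)))) [-3160821719, 0, 1131071665, 19767811, 0, -28925] 28049 :=
    near_mult (m := Lm2) (eps := 300000) (B := 500000000000) hP' Bm2 Am2 _ _ (by decide +kernel)
  have ha3 : near (mult m3 (Nf 0.159 (ofL ZA))) [0, 0, 1267368062, 50744415, 2085787, 90036] 182046 :=
    near_mult (m := Lm3) (eps := 400000) (B := 500000000000) hN Bm3 Am3 _ _ (by decide +kernel)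
  have hn0 : |((1/2) * Nf 0.159 (ofL ZA) 0) - (((31729755 : ℤ) : ℝ)) / 10^12| ≤ (((170736 : ℤ) : ℝ)) / 10^12 := by
    have := hN.coeff 0
    norm_num [gt] at this
    rw [abs_le] at this ⊢
    norm_num
    constructor <;> linarith [this.1, this.2]
  have ha4 : near (mult m3 (Nf 0.159 (ofL ZA)) + ((1/2) * Nf 0.159 (ofL ZA) 0) • bs 1) [0, 31729755, 1267368062, 50744415, 2085787, 90036] 352782 :=
    near_lin (al := 31729755) (eps := 170736) ha3 near_bs_one hn0 _ _ (by decide +kernel)
  have ha12 : near (mult m1 (ofL ZA) + mult m2 (Pf (lf 0.159 (ofL ZA)))) [-3160821719, 0, 1655945881, 23446123, 0, -30690] 29908 :=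
    near_add ha1 ha2 _ _ (by decide +kernel)
  have hres : near (Phi 0.159 (ofL ZA)) [-3160821706, 31725688, 2923311240, 74188276, 2085377, 59339] 392152 :=
    near_add ha12 ha4 _ _ (by decide +kernel)
  exact ⟨hres, hE, hN⟩

/-- approximate fixed point at `0.166` -/
def ZB : List ℤ := [-3445327145, 34488614, 3186026456, 84411386, 2477095, 73585]

theorem certB : near (Phi 0.166 (ofL ZB)) [-3445327145, 34488614, 3186026456, 84411386, 2477095, 73585] 427247 ∧
    near (Ef (lf 0.166 (ofL ZB))) [38, 165693273799, 10050443454, 537970588, 26871117, 1278987] 62011 ∧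
    near (Nf 0.166 (ofL ZB)) [68986905, 23815352105, 5440688852, 445666894, 27598008, 1436130] 366856 := by
  have hz : near (ofL ZB) [-3445327145, 34488614, 3186026456, 84411386, 2477095, 73585] 0 := near_ofL _
  have hmz : near (mult mM (ofL ZB)) [-6890654290, 0, 3186026456, 84411386, 2477095, 73585] 0 :=
    near_mult (m := LmM) (eps := 0) (B := 2000000000000) hz BmM AmM _ _ (by decide +kernel)
  have hl : near (lf 0.166 (ofL ZB)) [-6890654290, 166000000000, 3186026456, 84411386, 2477095, 73585] 0 := by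
    unfold lf; rw [add_comm]
    exact near_lin (al := 166000000000) (eps := 0) hmz near_bs_one (by norm_num) _ _ (by decide +kernel)
  have lp1 : near (pw (lf 0.166 (ofL ZB)) 1) [-6890654290, 166000000000, 3186026456, 84411386, 2477095, 73585] 0 :=
    near_mul hl near_bs_zero _ _ (by decide +kernel)
  have lp2 : near (pw (lf 0.166 (ofL ZB)) 2) [13830560065, -1758547686, 13748112575, 528128525, 19065750, 679121] 24126 :=
    near_mul hl lp1 _ _ (by decide +kernel)
  have lp3 : near (pw (lf 0.166 (ofL ZB)) 3) [-219337827, 3447705494, -152820524, 1137402127, 65620559, 2998182] 133364 :=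
    near_mul hl lp2 _ _ (by decide +kernel)
  have lp4 : near (pw (lf 0.166 (ofL ZB)) 4) [287475578, -65549258, 381168176, -9592275, 94102708, 7235548] 434027 :=
    near_mul hl lp3 _ _ (by decide +kernel)
  have lp5 : near (pw (lf 0.166 (ofL ZB)) 5) [-6814565, 79709940, -7799423, 39444885, -238888, 7761414] 842918 :=
    near_mul hl lp4 _ _ (by decide +kernel)
  have lp6 : near (pw (lf 0.166 (ofL ZB)) 6) [6652122, -2138289, 9925185, -800115, 3910695, -10704] 806710 :=
    near_mul hl lp5 _ _ (by decide +kernel)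
  have Ps0 : near (psum cP (lf 0.166 (ofL ZB)) 0) [] 0 := near_psum_zero _ _
  have Ps1 : near (psum cP (lf 0.166 (ofL ZB)) 1) [] 0 :=
    near_psum_skip Ps0 cPz0
  have Ps2 : near (psum cP (lf 0.166 (ofL ZB)) 2) [] 0 :=
    near_psum_skip Ps1 cPz1
  have Ps3 : near (psum cP (lf 0.166 (ofL ZB)) 3) [6915280033, -879273843, 6874056288, 264064263, 9532875, 339561] 12065 :=
    near_psum_succ (al := 500000000000) (eps := 0) Ps2 lp2 cPv2 _ _ (by decide +kernel)
  have Ps4 : near (psum cP (lf 0.166 (ofL ZB)) 4) [6878723728, -304656261, 6848586201, 453631284, 20469635, 839258] 34294 :=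
    near_psum_succ (al := 166666666667) (eps := 1) Ps3 lp3 cPv3 _ _ (by decide +kernel)
  have Ps5 : near (psum cP (lf 0.166 (ofL ZB)) 5) [6890701877, -307387480, 6864468208, 453231606, 24390581, 1140739] 52380 :=
    near_psum_succ (al := 41666666667) (eps := 1) Ps4 lp4 cPv4 _ _ (by decide +kernel)
  have Ps6 : near (psum cP (lf 0.166 (ofL ZB)) 6) [6890645089, -306723231, 6864403213, 453560313, 24388590, 1205417] 59407 :=
    near_psum_succ (al := 8333333333) (eps := 1) Ps5 lp5 cPv5 _ _ (by decide +kernel)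
  have Ps7 : near (psum cP (lf 0.166 (ofL ZB)) 7) [6890654328, -306726201, 6864416998, 453559202, 24394022, 1205402] 60529 :=
    near_psum_succ (al := 1388888889) (eps := 1) Ps6 lp6 cPv6 _ _ (by decide +kernel)
  have hP : near (ps cP (lf 0.166 (ofL ZB))) [6890654328, -306726201, 6864416998, 453559202, 24394022, 1205402] 62011 :=
    near_ps (A := 1/5040) (R := 180000000000/10^12) Ps7 (sumP (by norm_num) (by norm_num)).1 cPt7
      (hl.norm_le' (by decide +kernel)) (by norm_num) (by norm_num)
  have hP' : near (Pf (lf 0.166 (ofL ZB))) [6890654328, -306726201, 6864416998, 453559202, 24394022, 1205402] 62011 := hP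
  have hE : near (Ef (lf 0.166 (ofL ZB))) [38, 165693273799, 10050443454, 537970588, 26871117, 1278987] 62011 :=
    near_add hl hP' _ _ (by decide +kernel)
  have hy : near (yf (Ef (lf 0.166 (ofL ZB)))) [0, -4529147910, -253812026, -11833810, -479841, -16880] 3464 :=
    near_mult (m := Lyc) (eps := 10000) (B := 27400000000) hE Byc Ayc _ _ (by decide +kernel)
  have yp1 : near (pw (yf (Ef (lf 0.166 (ofL ZB)))) 1) [0, -4529147910, -253812026, -11833810, -479841, -16880] 3464 :=
    near_mul hy near_bs_zero _ _ (by decide +kernel)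
  have yp2 : near (pw (yf (Ef (lf 0.166 (ofL ZB)))) 2) [10288871, 1152561, 10310309, 1151730, 85884, 5177] 314 :=
    near_mul hy yp1 _ _ (by decide +kernel)
  have Ss0 : near (psum cS (yf (Ef (lf 0.166 (ofL ZB)))) 0) [] 0 := near_psum_zero _ _
  have Ss1 : near (psum cS (yf (Ef (lf 0.166 (ofL ZB)))) 1) [] 0 :=
    near_psum_skip Ss0 cSz0
  have Ss2 : near (psum cS (yf (Ef (lf 0.166 (ofL ZB)))) 2) [0, -4529147910, -253812026, -11833810, -479841, -16880] 3464 :=
    near_psum_succ (al := 1000000000000) (eps := 0) Ss1 yp1 cSv1 _ _ (by decide +kernel)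
  have Ss3 : near (psum cS (yf (Ef (lf 0.166 (ofL ZB)))) 3) [0, -4529147910, -253812026, -11833810, -479841, -16880] 3464 :=
    near_psum_skip Ss2 cSz2
  have hs : near (ps cS (yf (Ef (lf 0.166 (ofL ZB))))) [0, -4529147910, -253812026, -11833810, -479841, -16880] 24403 :=
    near_ps (A := 1/6) (R := 5000000000/10^12) Ss3 (sumS (by norm_num) (by norm_num)).1 cSt3
      (hy.norm_le' (by decide +kernel)) (by norm_num) (by norm_num)
  have Cs0 : near (psum cC (yf (Ef (lf 0.166 (ofL ZB)))) 0) [] 0 := near_psum_zero _ _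
  have Cs1 : near (psum cC (yf (Ef (lf 0.166 (ofL ZB)))) 1) [] 0 :=
    near_psum_skip Cs0 cCz0
  have Cs2 : near (psum cC (yf (Ef (lf 0.166 (ofL ZB)))) 2) [] 0 :=
    near_psum_skip Cs1 cCz1
  have Cs3 : near (psum cC (yf (Ef (lf 0.166 (ofL ZB)))) 3) [-5144435, -576280, -5155154, -575865, -42942, -2588] 159 :=
    near_psum_succ (al := -500000000000) (eps := 0) Cs2 yp2 cCv2 _ _ (by decide +kernel)
  have Cs4 : near (psum cC (yf (Ef (lf 0.166 (ofL ZB)))) 4) [-5144435, -576280, -5155154, -575865, -42942, -2588] 159 :=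
    near_psum_skip Cs3 cCz3
  have hc : near (ps cC (yf (Ef (lf 0.166 (ofL ZB))))) [-5144435, -576280, -5155154, -575865, -42942, -2588] 186 :=
    near_ps (A := 1/24) (R := 5000000000/10^12) Cs4 (sumC (by norm_num) (by norm_num)).1 cCt4
      (hy.norm_le' (by decide +kernel)) (by norm_num) (by norm_num)
  have hd : near (df (yf (Ef (lf 0.166 (ofL ZB))))) [-5144435, -22770140434, -1281154376, -60068445, -2455266, -87449] 135338 :=
    near_lin (al := 5027339492126) (eps := 2600000) hc hs tauv _ _ (by decide +kernel)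
  have dp1 : near (pw (df (yf (Ef (lf 0.166 (ofL ZB))))) 1) [-5144435, -22770140434, -1281154376, -60068445, -2455266, -87449] 135338 :=
    near_mul hd near_bs_zero _ _ (by decide +kernel)
  have dp2 : near (pw (df (yf (Ef (lf 0.166 (ofL ZB))))) 2) [260062160, 29483449, 260623747, 29228702, 2190462, 132865] 13740 :=
    near_mul hd dp1 _ _ (by decide +kernel)
  have dp3 : near (pw (df (yf (Ef (lf 0.166 (ofL ZB))))) 3) [-504839, -8934562, -1005576, -3026949, -502770, -51549] 4734 :=
    near_mul hd dp2 _ _ (by decide +kernel)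
  have Gs0 : near (psum cG (df (yf (Ef (lf 0.166 (ofL ZB))))) 0) [] 0 := near_psum_zero _ _
  have Gs1 : near (psum cG (df (yf (Ef (lf 0.166 (ofL ZB))))) 1) [1000000000000] 0 :=
    near_psum_succ (al := 1000000000000) (eps := 0) Gs0 near_bs_zero cGv0 _ _ (by decide +kernel)
  have Gs2 : near (psum cG (df (yf (Ef (lf 0.166 (ofL ZB))))) 2) [1000005144435, 22770140434, 1281154376, 60068445, 2455266, 87449] 135338 :=
    near_psum_succ (al := -1000000000000) (eps := 0) Gs1 dp1 cGv1 _ _ (by decide +kernel)
  have Gs3 : near (psum cG (df (yf (Ef (lf 0.166 (ofL ZB))))) 3) [1000265206595, 22799623883, 1541778123, 89297147, 4645728, 220314] 149078 :=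
    near_psum_succ (al := 1000000000000) (eps := 0) Gs2 dp2 cGv2 _ _ (by decide +kernel)
  have Gs4 : near (psum cG (df (yf (Ef (lf 0.166 (ofL ZB))))) 4) [1000265711434, 22808558445, 1542783699, 92324096, 5148498, 271863] 153812 :=
    near_psum_succ (al := -1000000000000) (eps := 0) Gs3 dp3 cGv3 _ _ (by decide +kernel)
  have hv : near (ps cG (df (yf (Ef (lf 0.166 (ofL ZB)))))) [1000265711434, 22808558445, 1542783699, 92324096, 5148498, 271863] 622987 :=
    near_ps (A := 1) (R := 26000000000/10^12) Gs4 (sumG (by norm_num) (by norm_num)).1 cGt4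
      (hd.norm_le' (by decide +kernel)) (by norm_num) (by norm_num)
  have hsv : near (mul (ps cS (yf (Ef (lf 0.166 (ofL ZB))))) (vf (yf (Ef (lf 0.166 (ofL ZB)))))) [-51848003, -4536760545, -305876191, -18242424, -1020596, -54861] 30477 :=
    near_mul hs hv _ _ (by decide +kernel)
  have hU : near (UU (lf 0.166 (ofL ZB))) [270970722, 23710253234, 1598586012, 95339502, 5333892, 286717] 169110 :=
    near_smul (al := -5226251859506) (eps := 2000000) hsv ppv _ _ (by decide +kernel)
  have hCE : near (mult Cc (Ef (lf 0.166 (ofL ZB)))) [38, 153080624338, 7106736720, 205872431, 0, -489447] 79643 :=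
    near_mult (m := LCc) (eps := 100000) (B := 1000000000000) hE BCc ACc _ _ (by decide +kernel)
  have hCU : near (mul (mult Cc (Ef (lf 0.166 (ofL ZB)))) (UU (lf 0.166 (ofL ZB)))) [1820480363, 248591781, 1826472820, 207072207, 15434467, 911454] 75265 :=
    near_mul hCE hU _ _ (by decide +kernel)
  have hD : near (mult Sc (lf 0.166 (ofL ZB))) [0, 63525449773, 2252860912, 77985952, 2477095, 67984] 17618 :=
    near_mult (m := LSc) (eps := 100000) (B := 1000000000000) hl BSc ASc _ _ (by decide +kernel)
  have hq : near (qf (lf 0.166 (ofL ZB))) [2020282120, 143289888, -2012781706, -142956491, -7487465, -333050] 15617 :=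
    near_sml hD hD _ _ (by decide +kernel)
  have qp1 : near (pw (qf (lf 0.166 (ofL ZB))) 1) [2020282120, 143289888, -2012781706, -142956491, -7487465, -333050] 15617 :=
    near_mul hq near_bs_zero _ _ (by decide +kernel)
  have qp2 : near (pw (qf (lf 0.166 (ofL ZB))) 2) [6127697, 579374, -8127874, -866439, 1974860, 285322] 27198 :=
    near_mul hq qp1 _ _ (by decide +kernel)
  have Hs0 : near (psum cH (qf (lf 0.166 (ofL ZB))) 0) [] 0 := near_psum_zero _ _
  have Hs1 : near (psum cH (qf (lf 0.166 (ofL ZB))) 1) [] 0 :=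
    near_psum_skip Hs0 cHz0
  have Hs2 : near (psum cH (qf (lf 0.166 (ofL ZB))) 2) [2020282120, 143289888, -2012781706, -142956491, -7487465, -333050] 15617 :=
    near_psum_succ (al := 1000000000000) (eps := 0) Hs1 qp1 cHv1 _ _ (by decide +kernel)
  have Hs3 : near (psum cH (qf (lf 0.166 (ofL ZB))) 3) [2022324686, 143483013, -2015490997, -143245304, -6829178, -237943] 24685 :=
    near_psum_succ (al := 333333333333) (eps := 1) Hs2 qp2 cHv2 _ _ (by decide +kernel)
  have hch : near (ps cH (qf (lf 0.166 (ofL ZB)))) [2022324686, 143483013, -2015490997, -143245304, -6829178, -237943] 122471 :=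
    near_ps (A := 1) (R := 4600000000/10^12) Hs3 (sumH (by norm_num) (by norm_num)).1 cHt3
      (hq.norm_le' (by decide +kernel)) (by norm_num) (by norm_num)
  have hUC : near (UU (lf 0.166 (ofL ZB)) + mul (mult Cc (Ef (lf 0.166 (ofL ZB)))) (UU (lf 0.166 (ofL ZB)))) [2091451085, 23958845015, 3425058832, 302411709, 20768359, 1198171] 244375 :=
    near_add hU hCU _ _ (by decide +kernel)
  have hN : near (Nf 0.166 (ofL ZB)) [68986905, 23815352105, 5440688852, 445666894, 27598008, 1436130] 366856 := by
    unfold Nf Ff; rw [sub_eq_add_neg, ← neg_smul]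
    exact near_lin (al := -1000068977228) (eps := 0) hUC hch (by rw [ofL_apply]; norm_num [gt, ZB]) _ _ (by decide +kernel)
  have ha1 : near (mult m1 (ofL ZB)) [0, 0, 572044165, 4185181, 0, -2189] 2027 :=
    near_mult (m := Lm1) (eps := 300000) (B := 320000000000) hz Bm1 Am1 _ _ (by decide +kernel)
  have ha2 : near (mult m2 (Pf (lf 0.166 (ofL ZB)))) [-3445327164, 0, 1232491238, 22487813, 0, -35859] 35368 :=
    near_mult (m := Lm2) (eps := 300000) (B := 500000000000) hP' Bm2 Am2 _ _ (by decide +kernel)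
  have ha3 : near (mult m3 (Nf 0.166 (ofL ZB))) [0, 0, 1381494213, 57740954, 2477581, 111640] 195350 :=
    near_mult (m := Lm3) (eps := 400000) (B := 500000000000) hN Bm3 Am3 _ _ (by decide +kernel)
  have hn0 : |((1/2) * Nf 0.166 (ofL ZB) 0) - (((34493453 : ℤ) : ℝ)) / 10^12| ≤ (((183429 : ℤ) : ℝ)) / 10^12 := by
    have := hN.coeff 0
    norm_num [gt] at this
    rw [abs_le] at this ⊢
    norm_num
    constructor <;> linarith [this.1, this.2]
  have ha4 : near (mult m3 (Nf 0.166 (ofL ZB)) + ((1/2) * Nf 0.166 (ofL ZB) 0) • bs 1) [0, 34493453, 1381494213, 57740954, 2477581, 111640] 378779 :=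
    near_lin (al := 34493453) (eps := 183429) ha3 near_bs_one hn0 _ _ (by decide +kernel)
  have ha12 : near (mult m1 (ofL ZB) + mult m2 (Pf (lf 0.166 (ofL ZB)))) [-3445327164, 0, 1804535403, 26672994, 0, -38048] 37395 :=
    near_add ha1 ha2 _ _ (by decide +kernel)
  have hres : near (Phi 0.166 (ofL ZB)) [-3445327145, 34488614, 3186026456, 84411386, 2477095, 73585] 427247 :=
    near_add ha12 ha4 _ _ (by decide +kernel)
  exact ⟨hres, hE, hN⟩

end Pool.Agent.Work.MP_5da384_an
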