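import Pool.Agent.Work.MP_5da384_an.Ball

set_option autoImplicit false

open Filter Topology Set
open scoped ENNReal NNReal

namespace Pool.Agent.Work.MP_5da384_an

lemma near_bs_one : near (bs 1) [0, 10^12] 0 := by
  unfold near
  have : ofL [0, 10^12] = bs 1 := by
    unfold ofL
    norm_num [gt, Finset.sum_range_succ]
  rw [this]; simp

lemma near_add {f g : W} {a b : List ℤ} {r s : ℤ} (hf : near f a r) (hg : near g b s)
    (c : List ℤ) (t : ℤ) (ok : linOK a r (10^12) 0 b s c t = true) : near (f + g) c t := by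
  have := near_lin (α := 1) (al := 10^12) (eps := 0) hf hg (by norm_num) c t ok
  rwa [one_smul] at this

lemma near_smul {g : W} {b : List ℤ} {s : ℤ} (hg : near g b s) {α : ℝ} {al eps : ℤ}
    (hα : |α - (al : ℝ) / 10^12| ≤ (eps : ℝ) / 10^12)
    (c : List ℤ) (t : ℤ) (ok : linOK [] 0 al eps b s c t = true) : near (α • g) c t := by
  have := near_lin near_zero hg hα c t ok
  rwa [zero_add] at this

lemma near.norm_le' {f : W} {c : List ℤ} {r : ℤ} (h : near f c r) {R : ℤ}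
    (ok : decide (l1 c + r ≤ R) = true) : ‖f‖ ≤ (R : ℝ) / 10^12 := by
  rw [decide_eq_true_eq] at ok
  refine h.norm_le.trans ?_
  have : ((l1 c + r : ℤ) : ℝ) ≤ (R : ℝ) := by exact_mod_cast ok
  push_cast at this
  gcongr

def LSc : List ℤ := [0, 382683432365, 707106781187, 923879532511, 1000000000000, 923879532511]
def LCc : List ℤ := [1000000000000, 923879532511, 707106781187, 382683432365, 0, -382683432365]
def LmM : List ℤ := [2000000000000, 0, 1000000000000, 1000000000000, 1000000000000, 1000000000000]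
def Lyc : List ℤ := [0, -27334530883, -25253813614, -21997131726, -17857142857, -13198279036]
def Lm1 : List ℤ := [0, 0, 179547839004, 49580766674, 0, -29748460004]
def Lm2 : List ℤ := [-500000000000, 0, 179547839004, 49580766674, 0, -29748460004]
def Lm3 : List ℤ := [0, 0, 253918989015, 129560787012, 89773919502, 77736472207]

lemma AmM : ∀ n < LmM.length, |mM n - (gt LmM n : ℝ) / 10^12| ≤ ((0 : ℤ) : ℝ) / 10^12 := by
  intro n hn
  have hn' : n < 6 := hn
  interval_cases n <;> norm_num [mM, gt, LmM]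

lemma BmM : ∀ n, |mM n| ≤ ((2000000000000 : ℤ) : ℝ) / 10^12 := by
  intro n; have := mM_le n; norm_num; exact this

lemma ASc : ∀ n < LSc.length, |Sc n - (gt LSc n : ℝ) / 10^12| ≤ ((100000 : ℤ) : ℝ) / 10^12 := by
  intro n hn
  have hn' : n < 6 := hn
  obtain ⟨h1, h2⟩ := s1_bounds
  obtain ⟨h3, h4⟩ := c1_bounds
  obtain ⟨h5, h6⟩ := sqrt2_bounds
  interval_cases n
  · rw [Sc_zero]; norm_num [gt, LSc]
  · rw [abs_le]; norm_num [gt, LSc]; constructor <;> linarith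
  · rw [Sc_two, abs_le]; norm_num [gt, LSc]; constructor <;> linarith
  · rw [Sc_three, abs_le]; norm_num [gt, LSc]; constructor <;> linarith
  · rw [Sc_four, abs_le]; norm_num [gt, LSc]
  · rw [Sc_five, abs_le]; norm_num [gt, LSc]; constructor <;> linarith

lemma BSc : ∀ n, |Sc n| ≤ ((1000000000000 : ℤ) : ℝ) / 10^12 := by
  intro n; have := abs_Sc_le n; norm_num; exact this

lemma ACc : ∀ n < LCc.length, |Cc n - (gt LCc n : ℝ) / 10^12| ≤ ((100000 : ℤ) : ℝ) / 10^12 := by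
  intro n hn
  have hn' : n < 6 := hn
  obtain ⟨h1, h2⟩ := s1_bounds
  obtain ⟨h3, h4⟩ := c1_bounds
  obtain ⟨h5, h6⟩ := sqrt2_bounds
  interval_cases n
  · rw [Cc_zero]; norm_num [gt, LCc]
  · rw [abs_le]; norm_num [gt, LCc]; constructor <;> linarith
  · rw [Cc_two, abs_le]; norm_num [gt, LCc]; constructor <;> linarith
  · rw [Cc_three, abs_le]; norm_num [gt, LCc]; constructor <;> linarith
  · rw [Cc_four, abs_le]; norm_num [gt, LCc]
  · rw [Cc_five, abs_le]; norm_num [gt, LCc]; constructor <;> linarith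

lemma BCc : ∀ n, |Cc n| ≤ ((1000000000000 : ℤ) : ℝ) / 10^12 := by
  intro n; have := abs_Cc_le n; norm_num; exact this

lemma Ayc : ∀ n < Lyc.length, |yc n - (gt Lyc n : ℝ) / 10^12| ≤ ((10000 : ℤ) : ℝ) / 10^12 := by
  intro n hn
  have hn' : n < 6 := hn
  obtain ⟨h1, h2⟩ := s1_bounds
  obtain ⟨h3, h4⟩ := c1_bounds
  obtain ⟨h5, h6⟩ := sqrt2_bounds
  unfold yc
  interval_cases n
  · rw [Sc_zero]; norm_num [gt, Lyc]
  · rw [abs_le]; norm_num [gt, Lyc]; constructor <;> linarith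
  · rw [Sc_two, abs_le]; norm_num [gt, Lyc]; constructor <;> linarith
  · rw [Sc_three, abs_le]; norm_num [gt, Lyc]; constructor <;> linarith
  · rw [Sc_four, abs_le]; norm_num [gt, Lyc]
  · rw [Sc_five, abs_le]; norm_num [gt, Lyc]; constructor <;> linarith

lemma Byc : ∀ n, |yc n| ≤ ((27400000000 : ℤ) : ℝ) / 10^12 := by
  intro n; have := yc_le n; norm_num at this ⊢; exact this

lemma quot_bounds : |om * Sc 1 / (3 * Cc 1) - 0.049580766674| ≤ 0.0000003 ∧
    |om / (3 * Cc 1) - 0.129560787012| ≤ 0.0000004 := by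
  obtain ⟨h1, h2⟩ := s1_bounds
  obtain ⟨h3, h4⟩ := c1_bounds
  obtain ⟨h5, h6⟩ := om_bounds
  have hc : 0 < 3 * Cc 1 := by linarith
  constructor
  · rw [abs_le]
    constructor
    · rw [neg_le_sub_iff_le_add, ← sub_le_iff_le_add, le_div_iff₀ hc]; nlinarith
    · rw [sub_le_iff_le_add, div_le_iff₀ hc]; nlinarith
  · rw [abs_le]
    constructor
    · rw [neg_le_sub_iff_le_add, ← sub_le_iff_le_add, le_div_iff₀ hc]; nlinarith
    · rw [sub_le_iff_le_add, div_le_iff₀ hc]; nlinarith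

lemma m_two : om * Cc 2 / ((2:ℕ) * Sc 2) = om / 2 := by
  rw [Sc_two, Cc_two]
  have h6 : 0 < √2 := by positivity
  push_cast; field_simp

lemma m_three : om * Cc 3 / ((3:ℕ) * Sc 3) = om * Sc 1 / (3 * Cc 1) := by
  rw [Sc_three, Cc_three]; push_cast; rfl

lemma m_five : om * Cc 5 / ((5:ℕ) * Sc 5) = -(3/5) * (om * Sc 1 / (3 * Cc 1)) := by
  obtain ⟨h3, h4⟩ := c1_bounds
  have hc : 0 < Cc 1 := by linarith
  rw [Sc_five, Cc_five]; push_cast; field_simp

lemma m3_two : om / ((2:ℕ) * Sc 2) = om * √2 / 2 := by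
  rw [Sc_two]
  have h6 : 0 < √2 := by positivity
  have h7 : √2 * √2 = 2 := Real.mul_self_sqrt (by norm_num)
  push_cast
  rw [div_eq_div_iff (by positivity) (by norm_num)]
  linear_combination (-om) * h7

lemma Am1 : ∀ n < Lm1.length, |m1 n - (gt Lm1 n : ℝ) / 10^12| ≤ ((300000 : ℤ) : ℝ) / 10^12 := by
  intro n hn
  have hn' : n < 6 := hn
  obtain ⟨h5, h6⟩ := om_bounds
  obtain ⟨h7, h8⟩ := quot_bounds
  rw [abs_le] at h7
  unfold m1
  interval_cases n
  · norm_num [gt, Lm1]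
  · norm_num [gt, Lm1]
  · rw [if_neg (by norm_num), m_two, abs_le]; norm_num [gt, Lm1]; constructor <;> linarith
  · rw [if_neg (by norm_num), m_three, abs_le]; norm_num [gt, Lm1]
    constructor <;> linarith [h7.1, h7.2]
  · rw [if_neg (by norm_num), Cc_four]; norm_num [gt, Lm1]
  · rw [if_neg (by norm_num), m_five, abs_le]; norm_num [gt, Lm1]
    constructor <;> linarith [h7.1, h7.2]

lemma Bm1 : ∀ n, |m1 n| ≤ ((320000000000 : ℤ) : ℝ) / 10^12 := by
  intro n; have := m1_le n; norm_num at this ⊢; exact this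

lemma Am2 : ∀ n < Lm2.length, |m2 n - (gt Lm2 n : ℝ) / 10^12| ≤ ((300000 : ℤ) : ℝ) / 10^12 := by
  intro n hn
  have hn' : n < 6 := hn
  obtain ⟨h5, h6⟩ := om_bounds
  obtain ⟨h7, h8⟩ := quot_bounds
  rw [abs_le] at h7
  unfold m2
  interval_cases n
  · norm_num [gt, Lm2]
  · norm_num [gt, Lm2]
  · rw [if_neg (by norm_num), if_neg (by norm_num), m_two, abs_le]; norm_num [gt, Lm2]
    constructor <;> linarith
  · rw [if_neg (by norm_num), if_neg (by norm_num), m_three, abs_le]; norm_num [gt, Lm2]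
    constructor <;> linarith [h7.1, h7.2]
  · rw [if_neg (by norm_num), if_neg (by norm_num), Cc_four]; norm_num [gt, Lm2]
  · rw [if_neg (by norm_num), if_neg (by norm_num), m_five, abs_le]; norm_num [gt, Lm2]
    constructor <;> linarith [h7.1, h7.2]

lemma Bm2 : ∀ n, |m2 n| ≤ ((500000000000 : ℤ) : ℝ) / 10^12 := by
  intro n; have := m2_le n; norm_num at this ⊢; exact this

lemma Am3 : ∀ n < Lm3.length, |m3 n - (gt Lm3 n : ℝ) / 10^12| ≤ ((400000 : ℤ) : ℝ) / 10^12 := by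
  intro n hn
  have hn' : n < 6 := hn
  obtain ⟨h5, h6⟩ := om_bounds
  obtain ⟨h1, h2⟩ := sqrt2_bounds
  obtain ⟨h7, h8⟩ := quot_bounds
  rw [abs_le] at h8
  unfold m3
  interval_cases n
  · norm_num [gt, Lm3]
  · norm_num [gt, Lm3]
  · rw [if_neg (by norm_num), if_neg (by norm_num), m3_two, abs_le]; norm_num [gt, Lm3]
    constructor <;> nlinarith
  · rw [if_neg (by norm_num), if_neg (by norm_num), Sc_three, abs_le]
    push_cast; norm_num [gt, Lm3]
    constructor <;> linarith [h8.1, h8.2]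
  · rw [if_neg (by norm_num), if_neg (by norm_num), Sc_four, abs_le]; norm_num [gt, Lm3]
    constructor <;> linarith
  · have e : om / ((5:ℕ) * Sc 5) = (3/5) * (om / (3 * Cc 1)) := by
      obtain ⟨h3, h4⟩ := c1_bounds
      have hc : 0 < Cc 1 := by linarith
      rw [Sc_five]; push_cast; field_simp
    rw [if_neg (by norm_num), if_neg (by norm_num), e, abs_le]; norm_num [gt, Lm3]
    constructor <;> linarith [h8.1, h8.2]

lemma Bm3 : ∀ n, |m3 n| ≤ ((500000000000 : ℤ) : ℝ) / 10^12 := by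
  intro n; have := m3_le n; norm_num at this ⊢; exact this

/-! ### values of the coefficient sequences -/

lemma cPz0 : cP 0 = 0 := by simp [cP]
lemma cPz1 : cP 1 = 0 := by simp [cP]
lemma cPv2 : |cP 2 - ((500000000000 : ℤ) : ℝ) / 10^12| ≤ ((0 : ℤ) : ℝ) / 10^12 := by
  norm_num [cP, Nat.factorial]
lemma cPv3 : |cP 3 - ((166666666667 : ℤ) : ℝ) / 10^12| ≤ ((1 : ℤ) : ℝ) / 10^12 := by
  norm_num [cP, Nat.factorial, abs_le]
lemma cPv4 : |cP 4 - ((41666666667 : ℤ) : ℝ) / 10^12| ≤ ((1 : ℤ) : ℝ) / 10^12 := by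
  norm_num [cP, Nat.factorial, abs_le]
lemma cPv5 : |cP 5 - ((8333333333 : ℤ) : ℝ) / 10^12| ≤ ((1 : ℤ) : ℝ) / 10^12 := by
  norm_num [cP, Nat.factorial, abs_le]
lemma cPv6 : |cP 6 - ((1388888889 : ℤ) : ℝ) / 10^12| ≤ ((1 : ℤ) : ℝ) / 10^12 := by
  norm_num [cP, Nat.factorial, abs_le]

lemma inv_fact_anti {m n : ℕ} (h : m ≤ n) : (1:ℝ) / n.factorial ≤ 1 / m.factorial := by
  apply one_div_le_one_div_of_le (by positivity)
  exact_mod_cast Nat.factorial_le h

lemma cPt7 (n : ℕ) : |cP (n + 7)| ≤ 1/5040 := by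
  have h := inv_fact_anti (m := 7) (n := n + 7) (by omega)
  unfold cP
  rw [if_neg (by omega), abs_of_nonneg (by positivity)]
  refine h.trans ?_
  norm_num [Nat.factorial]

lemma cSz0 : cS 0 = 0 := cS_zero
lemma cSz2 : cS 2 = 0 := by simp [cS]
lemma cSv1 : |cS 1 - ((1000000000000 : ℤ) : ℝ) / 10^12| ≤ ((0 : ℤ) : ℝ) / 10^12 := by
  norm_num [cS]
lemma cSt3 (n : ℕ) : |cS (n + 3)| ≤ 1/6 := by
  have h := inv_fact_anti (m := 3) (n := n + 3) (by omega)
  refine (abs_cS_le _).trans (h.trans ?_)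
  norm_num [Nat.factorial]

lemma cCz0 : cC 0 = 0 := cC_zero
lemma cCz1 : cC 1 = 0 := cC_one
lemma cCz3 : cC 3 = 0 := by
  unfold cC; rw [if_pos (Or.inr (by decide))]
lemma cCv2 : |cC 2 - ((-500000000000 : ℤ) : ℝ) / 10^12| ≤ ((0 : ℤ) : ℝ) / 10^12 := by
  unfold cC
  rw [if_neg (by decide)]
  norm_num [Nat.factorial]
lemma cCt4 (n : ℕ) : |cC (n + 4)| ≤ 1/24 := by
  have h := inv_fact_anti (m := 4) (n := n + 4) (by omega)
  refine (abs_cC_le _).trans (h.trans ?_)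
  norm_num [Nat.factorial]

lemma cGv0 : |cG 0 - ((1000000000000 : ℤ) : ℝ) / 10^12| ≤ ((0 : ℤ) : ℝ) / 10^12 := by
  norm_num [cG]
lemma cGv1 : |cG 1 - ((-1000000000000 : ℤ) : ℝ) / 10^12| ≤ ((0 : ℤ) : ℝ) / 10^12 := by
  norm_num [cG]
lemma cGv2 : |cG 2 - ((1000000000000 : ℤ) : ℝ) / 10^12| ≤ ((0 : ℤ) : ℝ) / 10^12 := by
  norm_num [cG]
lemma cGv3 : |cG 3 - ((-1000000000000 : ℤ) : ℝ) / 10^12| ≤ ((0 : ℤ) : ℝ) / 10^12 := by
  norm_num [cG]
lemma cGt4 (n : ℕ) : |cG (n + 4)| ≤ 1 := (abs_cG _).le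

lemma cHz0 : cH 0 = 0 := cH_zero
lemma cHv1 : |cH 1 - ((1000000000000 : ℤ) : ℝ) / 10^12| ≤ ((0 : ℤ) : ℝ) / 10^12 := by
  norm_num [cH, Nat.factorial]
lemma cHv2 : |cH 2 - ((333333333333 : ℤ) : ℝ) / 10^12| ≤ ((1 : ℤ) : ℝ) / 10^12 := by
  norm_num [cH, Nat.factorial, abs_le]
lemma cHt3 (n : ℕ) : |cH (n + 3)| ≤ 1 := (cH_bound (n + 2)).2

lemma tauv : |tau - ((5027339492126 : ℤ) : ℝ) / 10^12| ≤ ((2600000 : ℤ) : ℝ) / 10^12 := by
  obtain ⟨h1, h2⟩ := tau_bounds
  rw [abs_le]; norm_num; constructor <;> linarith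

lemma ppv : |(-pp) - ((-5226251859506 : ℤ) : ℝ) / 10^12| ≤ ((2000000 : ℤ) : ℝ) / 10^12 := by
  obtain ⟨h1, h2⟩ := pp_bounds
  rw [abs_le]; norm_num; constructor <;> linarith

end Pool.Agent.Work.MP_5da384_an
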