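import Mathlib

set_option autoImplicit false

open Real

namespace Pool.Agent.Work.MP_5da384_an

/-- `sin (n π / 8)` -/
noncomputable def Sc (n : ℕ) : ℝ := Real.sin (n * (π / 8))
/-- `cos (n π / 8)` -/
noncomputable def Cc (n : ℕ) : ℝ := Real.cos (n * (π / 8))

lemma abs_Sc_le (n : ℕ) : |Sc n| ≤ 1 := Real.abs_sin_le_one _
lemma abs_Cc_le (n : ℕ) : |Cc n| ≤ 1 := Real.abs_cos_le_one _

lemma Sc_zero : Sc 0 = 0 := by simp [Sc]
lemma Cc_zero : Cc 0 = 1 := by simp [Cc]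

lemma Sc_add_eight (n : ℕ) : Sc (n + 8) = - Sc n := by
  unfold Sc
  push_cast
  rw [show ((n:ℝ) + 8) * (π / 8) = n * (π/8) + π by ring, Real.sin_add_pi]

lemma Cc_add_eight (n : ℕ) : Cc (n + 8) = - Cc n := by
  unfold Cc
  push_cast
  rw [show ((n:ℝ) + 8) * (π / 8) = n * (π/8) + π by ring, Real.cos_add_pi]

lemma sqrt2_bounds : (1.41421356 : ℝ) < √2 ∧ √2 < 1.41421357 := by
  constructor
  · apply Real.lt_sqrt_of_sq_lt; norm_num
  · rw [Real.sqrt_lt' (by norm_num)]; norm_num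

lemma s1_bounds : (0.3826834 : ℝ) < Sc 1 ∧ Sc 1 < 0.3826835 := by
  have h : Sc 1 = √(2 - √2) / 2 := by
    unfold Sc; rw [Nat.cast_one, one_mul, Real.sin_pi_div_eight]
  obtain ⟨h1, h2⟩ := sqrt2_bounds
  rw [h]
  constructor
  · rw [lt_div_iff₀ (by norm_num)]
    apply Real.lt_sqrt_of_sq_lt
    norm_num
    linarith
  · rw [div_lt_iff₀ (by norm_num), Real.sqrt_lt' (by norm_num)]
    norm_num
    linarith

lemma c1_bounds : (0.9238795 : ℝ) < Cc 1 ∧ Cc 1 < 0.9238796 := by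
  have h : Cc 1 = √(2 + √2) / 2 := by
    unfold Cc; rw [Nat.cast_one, one_mul, Real.cos_pi_div_eight]
  obtain ⟨h1, h2⟩ := sqrt2_bounds
  rw [h]
  constructor
  · rw [lt_div_iff₀ (by norm_num)]
    apply Real.lt_sqrt_of_sq_lt
    norm_num
    linarith
  · rw [div_lt_iff₀ (by norm_num), Real.sqrt_lt' (by norm_num)]
    norm_num
    linarith

lemma Sc_two : Sc 2 = √2 / 2 := by
  unfold Sc
  rw [← Real.sin_pi_div_four]; congr 1; push_cast; ring

lemma Cc_two : Cc 2 = √2 / 2 := by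
  unfold Cc
  rw [← Real.cos_pi_div_four]; congr 1; push_cast; ring

lemma Sc_three : Sc 3 = Cc 1 := by
  unfold Sc Cc
  rw [← Real.cos_pi_div_two_sub]; congr 1; push_cast; ring

lemma Cc_three : Cc 3 = Sc 1 := by
  unfold Sc Cc
  rw [← Real.sin_pi_div_two_sub]; congr 1; push_cast; ring

lemma Sc_four : Sc 4 = 1 := by
  unfold Sc
  rw [← Real.sin_pi_div_two]; congr 1; push_cast; ring

lemma Cc_four : Cc 4 = 0 := by
  unfold Cc
  rw [← Real.cos_pi_div_two]; congr 1; push_cast; ring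

lemma Sc_sub (n m : ℕ) (h : n + m = 8) : Sc n = Sc m := by
  unfold Sc
  rw [← Real.sin_pi_sub]
  congr 1
  have : (n:ℝ) + m = 8 := by exact_mod_cast h
  rw [show (n:ℝ) = 8 - m by linarith]; ring

lemma Cc_sub (n m : ℕ) (h : n + m = 8) : Cc n = - Cc m := by
  unfold Cc
  rw [← Real.cos_pi_sub]
  congr 1
  have : (n:ℝ) + m = 8 := by exact_mod_cast h
  rw [show (n:ℝ) = 8 - m by linarith]; ring

lemma Sc_five : Sc 5 = Cc 1 := by rw [Sc_sub 5 3 rfl, Sc_three]
lemma Cc_five : Cc 5 = - Sc 1 := by rw [Cc_sub 5 3 rfl, Cc_three]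
lemma Sc_six : Sc 6 = √2 / 2 := by rw [Sc_sub 6 2 rfl, Sc_two]
lemma Cc_six : Cc 6 = - (√2 / 2) := by rw [Cc_sub 6 2 rfl, Cc_two]
lemma Sc_seven : Sc 7 = Sc 1 := by rw [Sc_sub 7 1 rfl]
lemma Cc_seven : Cc 7 = - Cc 1 := by rw [Cc_sub 7 1 rfl]
lemma Sc_eight : Sc 8 = 0 := by rw [show 8 = 0 + 8 from rfl, Sc_add_eight, Sc_zero, neg_zero]
lemma Cc_eight : Cc 8 = -1 := by rw [show 8 = 0 + 8 from rfl, Cc_add_eight, Cc_zero]

/-- lower bound off the resonances -/
lemma abs_Sc_ge (n : ℕ) (hn : ¬ 8 ∣ n) : Sc 1 ≤ |Sc n| := by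
  induction n using Nat.strong_induction_on with
  | _ n ih =>
    by_cases h : n < 8
    · obtain ⟨h1, h2⟩ := s1_bounds
      obtain ⟨h3, h4⟩ := c1_bounds
      obtain ⟨h5, h6⟩ := sqrt2_bounds
      interval_cases n
      · exact absurd (dvd_zero 8) hn
      · exact le_abs_self _
      · rw [Sc_two]; refine le_trans ?_ (le_abs_self _); linarith
      · rw [Sc_three]; refine le_trans ?_ (le_abs_self _); linarith
      · rw [Sc_four]; refine le_trans ?_ (le_abs_self _); linarith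
      · rw [Sc_five]; refine le_trans ?_ (le_abs_self _); linarith
      · rw [Sc_six]; refine le_trans ?_ (le_abs_self _); linarith
      · rw [Sc_seven]; exact le_abs_self _
    · push Not at h
      obtain ⟨m, rfl⟩ := Nat.exists_eq_add_of_le' h
      rw [Sc_add_eight, abs_neg]
      apply ih m (by omega)
      intro hd
      exact hn (by omega)

/-- resonances -/
lemma Sc_res (n : ℕ) (hn : 8 ∣ n) : Sc n = 0 := by
  obtain ⟨k, rfl⟩ := hn
  induction k with
  | zero => exact Sc_zero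
  | succ k ih => rw [Nat.mul_succ, Sc_add_eight, ih, neg_zero]

lemma Cc_res_sq (n : ℕ) (hn : 8 ∣ n) : Cc n * Cc n = 1 := by
  obtain ⟨k, rfl⟩ := hn
  induction k with
  | zero => simp [Cc_zero]
  | succ k ih => rw [Nat.mul_succ, Cc_add_eight]; linarith

/-- `cot (π/16)` -/
noncomputable def tau : ℝ := Real.cos (π / 16) / Real.sin (π / 16)

lemma sin_sixteen_pos : 0 < Real.sin (π / 16) :=
  Real.sin_pos_of_pos_of_lt_pi (by positivity) (by linarith [Real.pi_pos])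

lemma cos_sixteen_pos : 0 < Real.cos (π / 16) :=
  Real.cos_pos_of_mem_Ioo ⟨by linarith [Real.pi_pos], by linarith [Real.pi_pos]⟩

lemma tau_eq : tau = (1 + Cc 1) / Sc 1 := by
  have h1 : Sc 1 = 2 * Real.sin (π/16) * Real.cos (π/16) := by
    unfold Sc
    rw [← Real.sin_two_mul]; congr 1; push_cast; ring
  have h2 : 1 + Cc 1 = 2 * Real.cos (π/16) ^ 2 := by
    unfold Cc
    have : ((1:ℕ):ℝ) * (π / 8) = 2 * (π/16) := by push_cast; ring
    rw [this, Real.cos_two_mul]; ring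
  have h3 := sin_sixteen_pos
  have h4 := cos_sixteen_pos
  rw [h1, h2, tau]
  field_simp

lemma tau_bounds : (5.027337 : ℝ) < tau ∧ tau < 5.027342 := by
  obtain ⟨h1, h2⟩ := s1_bounds
  obtain ⟨h3, h4⟩ := c1_bounds
  rw [tau_eq]
  constructor
  · rw [lt_div_iff₀ (by linarith)]
    nlinarith
  · rw [div_lt_iff₀ (by linarith)]
    nlinarith

/-- `cot (π/16) / 14` -/
noncomputable def om : ℝ := tau / 14

lemma om_bounds : (0.3590955 : ℝ) < om ∧ om < 0.359096 := by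
  obtain ⟨h1, h2⟩ := tau_bounds
  unfold om
  constructor
  · rw [lt_div_iff₀ (by norm_num)]; linarith
  · rw [div_lt_iff₀ (by norm_num)]; linarith

/-- `2 / sin (π/8)` -/
noncomputable def pp : ℝ := 2 / Sc 1

lemma pp_bounds : (5.22625 : ℝ) < pp ∧ pp < 5.226253 := by
  obtain ⟨h1, h2⟩ := s1_bounds
  unfold pp
  constructor
  · rw [lt_div_iff₀ (by linarith)]; linarith
  · rw [div_lt_iff₀ (by linarith)]; linarith

end Pool.Agent.Work.MP_5da384_an
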