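import Mathlib

/-!
# MP_5da384_an: definitions

The plane is identified with `ℂ`.  `(z * conj v).im` is the signed area spanned by `v` and `z`;
it is positive iff `z` lies strictly to the left of the direction `v`.
-/

set_option autoImplicit false

open Set Complex
open scoped ComplexConjugate ENNReal

namespace Pool.Agent.Work.MP_5da384_an

/-- The line through `P` with direction `v` is a supporting line of the closed convex curve `γ`:
it meets `γ`, and `γ` lies in one of the two closed half planes bounded by it.  For a closed convex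
curve this is what it means that the line is tangent to `γ`. -/
def IsTangentLine (γ : Set ℂ) (P v : ℂ) : Prop :=
  v ≠ 0 ∧ (∃ t : ℝ, P + t * v ∈ γ) ∧
    ((∀ z ∈ γ, 0 ≤ ((z - P) * conj v).im) ∨ (∀ z ∈ γ, ((z - P) * conj v).im ≤ 0))

/-- Reflection of the direction `v` in the line with direction `τ`
(angle of incidence = angle of reflection at a point of a curve with tangent direction `τ`). -/
noncomputable def reflect (τ v : ℂ) : ℂ := τ / conj τ * conj v

/-- `Ω` is a bounded strictly convex domain with `C¹` boundary; the table is `Γ = frontier Ω`. -/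
structure IsTable (Ω : Set ℂ) : Prop where
  isOpen : IsOpen Ω
  nonempty : Ω.Nonempty
  bounded : Bornology.IsBounded Ω
  convex : Convex ℝ Ω
  strictConvex : StrictConvex ℝ (closure Ω)
  c1 : ∃ (c : ℝ → ℂ) (ℓ : ℝ), 0 < ℓ ∧ ContDiff ℝ 1 c ∧ (∀ s, deriv c s ≠ 0) ∧
    Function.Periodic c ℓ ∧ InjOn c (Ico 0 ℓ) ∧ range c = frontier Ω

/-- `g` is a regular `C¹` parametrization, of period `ℓ` and injective on a period, of the closed
convex curve `γ = frontier K`, where `K` is a compact convex set with nonempty interior. -/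
structure IsConvexCurve (K : Set ℂ) (g : ℝ → ℂ) (ℓ : ℝ) : Prop where
  compact : IsCompact K
  convex : Convex ℝ K
  nonempty : (interior K).Nonempty
  pos : 0 < ℓ
  contDiff : ContDiff ℝ 1 g
  deriv_ne : ∀ s, deriv g s ≠ 0
  periodic : Function.Periodic g ℓ
  injOn : InjOn g (Ico 0 ℓ)
  range_eq : range g = frontier K

/-- `γ = frontier K` lies in the interior `Ω` of the table `Γ = frontier Ω`, and whenever a line
through a point `P` of `Γ` is tangent to `γ`, so is the line obtained from it by specular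
reflection in the tangent line of `Γ` at `P`. -/
structure IsConvexCaustic (Ω K : Set ℂ) : Prop where
  subset : K ⊆ Ω
  reflection : ∀ P ∈ frontier Ω, ∀ τ v : ℂ, IsTangentLine (frontier Ω) P τ →
    IsTangentLine (frontier K) P v → IsTangentLine (frontier K) P (reflect τ v)

/-- The set of points of tangency with `γ` of the lines through `P` that are tangent to `γ`. -/
def tangencyPoints (γ : Set ℂ) (P : ℂ) : Set ℂ :=
  {Q | Q ∈ γ ∧ IsTangentLine γ P (Q - P)}

/-- The analytic data from which the table and its caustic are built. -/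
structure BilliardData where
  m : ℕ
  hm : 2 ≤ m
  Lam : ℝ
  hLam : 0 < Lam
  L : ℝ
  hL : 0 < L
  hL' : L < m * Lam
  n : ℕ
  hn : 0 < n
  k : ℤ
  hnk : n * L = k * Lam
  κ : ℝ → ℝ
  hκc : Continuous κ
  hκpos : ∀ s, 0 < κ s
  hκper : ∀ s, κ (s + Lam) = κ s
  hκint : ∫ s in (0:ℝ)..Lam, κ s = 2 * Real.pi / m
  hκnc : ∃ s, κ s ≠ κ 0
  h : ℝ
  x : ℝ → ℝ
  hx : ∀ s, |x s| < h
  hphi : ∀ s, (∫ u in s..(s + L), κ u) ∈ Ioo 0 Real.pi
  h1 : ∀ s, (h + x s) * κ s = (h - x s) * κ (s + L)
  h2 : ∀ s, HasDerivAt x ((h + x s) * κ s *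
    (Real.cos ((∫ u in s..(s + L), κ u) / 2) / Real.sin ((∫ u in s..(s + L), κ u) / 2)) - 1) s

/-- Q1 of the problem. -/
def Q1 : Prop :=
  ∃ (Ω K : Set ℂ) (g : ℝ → ℂ) (ℓ : ℝ),
    IsTable Ω ∧ (∀ (O : ℂ) (R : ℝ), frontier Ω ≠ Metric.sphere O R) ∧
    IsConvexCurve K g ℓ ∧ IsConvexCaustic Ω K ∧
    ∃ len : ℝ, ∀ P ∈ frontier Ω, ∃ s t : ℝ, s < t ∧ t < s + ℓ ∧
      tangencyPoints (frontier K) P = {g s, g t} ∧
      g '' Icc s t ⊆ convexHull ℝ {P, g s, g t} ∧
      eVariationOn g (Icc s t) = ENNReal.ofReal len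

end Pool.Agent.Work.MP_5da384_an
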