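import Pool.Agent.Work.MP_5da384_an.Fix

set_option autoImplicit false

open Filter Topology Set
open scoped ENNReal NNReal Nat

namespace Pool.Agent.Work.MP_5da384_an

/-! ### the power series -/

lemma hasSum_cP (x : ℝ) : HasSum (fun n => cP n * x ^ n) (Real.exp x - 1 - x) := by
  have h : HasSum (fun n : ℕ => x ^ n / n !) (Real.exp x) := by
    rw [Real.exp_eq_exp_ℝ]
    exact NormedSpace.expSeries_div_hasSum_exp x
  rw [← hasSum_nat_add_iff' 2] at h ⊢
  have e1 : (fun n => cP (n + 2) * x ^ (n + 2)) = fun n : ℕ => x ^ (n + 2) / (n + 2)! := by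
    funext n
    unfold cP
    rw [if_neg (by omega)]; ring
  have e2 : Real.exp x - 1 - x - ∑ i ∈ Finset.range 2, cP i * x ^ i =
      Real.exp x - ∑ i ∈ Finset.range 2, x ^ i / i ! := by
    simp [Finset.sum_range_succ, cP]; ring
  rw [e1, e2]; exact h

lemma hasSum_cS (x : ℝ) : HasSum (fun n => cS n * x ^ n) (Real.sin x) := by
  have h : HasSum (fun n => cS n * x ^ n) (0 + Real.sin x) := by
    apply HasSum.even_add_odd
    · have : (fun k => cS (2 * k) * x ^ (2 * k)) = fun _ => (0:ℝ) := by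
        funext k; simp [cS]
      rw [this]; exact hasSum_zero
    · have : (fun k => cS (2 * k + 1) * x ^ (2 * k + 1)) =
          fun k : ℕ => (-1) ^ k * x ^ (2 * k + 1) / ((2 * k + 1)! : ℕ) := by
        funext k
        unfold cS
        rw [if_neg (by simp), show (2 * k + 1) / 2 = k by omega]
        ring
      rw [this]; exact Real.hasSum_sin x
  rwa [zero_add] at h

lemma hasSum_cC (x : ℝ) : HasSum (fun n => cC n * x ^ n) (Real.cos x - 1) := by
  have h : HasSum (fun n => cC n * x ^ n) ((Real.cos x - 1) + 0) := by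
    apply HasSum.even_add_odd
    · have h1 := Real.hasSum_cos x
      rw [← hasSum_nat_add_iff' 1] at h1 ⊢
      have e1 : (fun k => cC (2 * (k + 1)) * x ^ (2 * (k + 1))) =
          fun k : ℕ => (-1) ^ (k + 1) * x ^ (2 * (k + 1)) / ((2 * (k + 1))! : ℕ) := by
        funext k
        unfold cC
        rw [if_neg (by
          push Not
          exact ⟨by omega, by simp⟩), show (2 * (k + 1)) / 2 = k + 1 by omega]
        ring
      have e2 : Real.cos x - 1 - ∑ i ∈ Finset.range 1, cC (2 * i) * x ^ (2 * i) =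
          Real.cos x - ∑ i ∈ Finset.range 1, (-1) ^ i * x ^ (2 * i) / ((2 * i)! : ℕ) := by
        simp [cC]
      rw [e1, e2]; exact h1
    · have : (fun k => cC (2 * k + 1) * x ^ (2 * k + 1)) = fun _ => (0:ℝ) := by
        funext k
        unfold cC
        rw [if_pos (Or.inr (by simp))]; simp
      rw [this]; exact hasSum_zero
  rwa [add_zero] at h

lemma hasSum_cG {x : ℝ} (hx : |x| < 1) : HasSum (fun n => cG n * x ^ n) (1 / (1 + x)) := by
  have h := hasSum_geometric_of_abs_lt_one (r := -x) (by rwa [abs_neg])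
  have e : (fun n => cG n * x ^ n) = fun n : ℕ => (-x) ^ n := by
    funext n; unfold cG; rw [← mul_pow]; ring
  rw [e]
  convert h using 1
  rw [one_div]; ring

lemma hasSum_cH (x : ℝ) : HasSum (fun n => cH n * (x ^ 2) ^ n) (Real.cosh x ^ 2 - 1) := by
  have h := (Real.hasSum_cosh (2 * x)).mul_left (1/2)
  rw [← hasSum_nat_add_iff' 1] at h ⊢
  have e1 : (fun n => cH (n + 1) * (x ^ 2) ^ (n + 1)) =
      fun n : ℕ => 1/2 * ((2 * x) ^ (2 * (n + 1)) / ((2 * (n + 1))! : ℕ)) := by
    funext n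
    unfold cH
    rw [if_neg (by omega), mul_pow, pow_mul, pow_mul x, show (2:ℝ)^2 = 4 by norm_num]
    field_simp
  have e2 : Real.cosh x ^ 2 - 1 - ∑ i ∈ Finset.range 1, cH i * (x ^ 2) ^ i =
      1/2 * Real.cosh (2 * x) - ∑ i ∈ Finset.range 1, 1/2 * ((2 * x) ^ (2 * i) / ((2 * i)! : ℕ)) := by
    have h2 := Real.cosh_sq' x
    rw [Real.cosh_two_mul]
    simp [cH]
    linarith
  rw [e1, e2]; exact h

/-! ### evaluation of the nonlinear functions -/

lemma ev_Ef {l : W} (hl : ‖l‖ ≤ 1/5) (t : ℝ) : ev t (Ef l) = Real.exp (ev t l) - 1 := by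
  unfold Ef Pf
  rw [map_add, ev_ps (sumP (by norm_num) (by norm_num)).1 hl, (hasSum_cP _).tsum_eq]
  ring

lemma abs_ev_le (t : ℝ) (f : W) : |ev t f| ≤ ‖f‖ := abs_pair_le _ _ _
lemma abs_es_le (t : ℝ) (f : W) : |es t f| ≤ ‖f‖ := abs_pair_le _ _ _

lemma one_add_df {y : W} (hy : ‖y‖ ≤ 0.0061) (t : ℝ) :
    1 + ev t (df y) = Real.sin (Real.pi / 16 + ev t y) / Real.sin (Real.pi / 16) := by
  have hs := sin_sixteen_pos
  unfold df
  rw [map_add, map_smul, ev_ps (sumC (by norm_num) (by norm_num)).1 hy,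
    ev_ps (sumS (by norm_num) (by norm_num)).1 hy, (hasSum_cC _).tsum_eq, (hasSum_cS _).tsum_eq,
    smul_eq_mul, tau, Real.sin_add]
  field_simp
  ring

lemma ev_Uf {y : W} (hy : ‖y‖ ≤ 0.0061) (t : ℝ) :
    tau * (1 + ev t (Uf y)) =
      Real.cos (Real.pi / 16 + ev t y) / Real.sin (Real.pi / 16 + ev t y) := by
  have hs := sin_sixteen_pos
  have hc := cos_sixteen_pos
  have hd := d_norm hy
  have hd1 : |ev t (df y)| < 1 := lt_of_le_of_lt ((abs_ev_le t _).trans hd) (by norm_num)
  have hs1 := one_add_df hy t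
  have hpos : 0 < 1 + ev t (df y) := by
    rw [abs_lt] at hd1; linarith [hd1.1]
  have hsin : 0 < Real.sin (Real.pi / 16 + ev t y) := by
    rw [hs1] at hpos
    by_contra hcon
    push Not at hcon
    exact absurd hpos (not_lt.mpr (div_nonpos_of_nonpos_of_nonneg hcon hs.le))
  have hv : ev t (vf y) = Real.sin (Real.pi / 16) / Real.sin (Real.pi / 16 + ev t y) := by
    unfold vf
    rw [ev_ps (sumG (by norm_num) (by norm_num)).1 hd, (hasSum_cG hd1).tsum_eq, hs1, one_div_div]
  have hpp : pp = 1 / (Real.sin (Real.pi / 16) * Real.cos (Real.pi / 16)) := by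
    have h1 : Sc 1 = 2 * Real.sin (Real.pi/16) * Real.cos (Real.pi/16) := by
      unfold Sc
      rw [← Real.sin_two_mul]; congr 1; push_cast; ring
    unfold pp
    rw [h1]; field_simp
  unfold Uf
  rw [map_smul, ev_mul, hv, ev_ps (sumS (by norm_num) (by norm_num)).1 hy, (hasSum_cS _).tsum_eq,
    smul_eq_mul, hpp, tau]
  have key : Real.cos (Real.pi/16) * Real.sin (Real.pi/16 + ev t y) - Real.sin (ev t y) =
      Real.sin (Real.pi/16) * Real.cos (Real.pi/16 + ev t y) := by
    have e : ev t y = (Real.pi/16 + ev t y) - Real.pi/16 := by ring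
    have h2 : Real.sin (ev t y) = Real.sin (Real.pi/16 + ev t y) * Real.cos (Real.pi/16) -
        Real.cos (Real.pi/16 + ev t y) * Real.sin (Real.pi/16) := by
      rw [← Real.sin_sub, ← e]
    rw [h2]; ring
  have h3 : Real.sin (Real.pi/16 + ev t y) ≠ 0 := hsin.ne'
  have h4 := hs.ne'
  have h5 := hc.ne'
  generalize Real.sin (Real.pi/16 + ev t y) = s1 at key h3 ⊢
  generalize Real.cos (Real.pi/16 + ev t y) = c1 at key ⊢
  generalize Real.sin (Real.pi/16) = s0 at key h4 ⊢
  generalize Real.cos (Real.pi/16) = c0 at key h5 ⊢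
  field_simp
  linear_combination key

lemma ev_chf {l : W} (hs : ‖mult Sc l‖ ≤ 0.0766) (t : ℝ) :
    ev t (chf l) = Real.cosh (es t (mult Sc l)) ^ 2 - 1 := by
  unfold chf
  rw [ev_ps (sumH (by norm_num) (by norm_num)).1 (q_norm hs)]
  unfold qf
  rw [ev_sml, ← pow_two, (hasSum_cH _).tsum_eq]

/-! ### shifts -/

lemma ev_add (s r : ℝ) (f : W) : ev (s + r) f =
    ∑' n, f n * (Real.cos (n * s) * Real.cos (n * r) - Real.sin (n * s) * Real.sin (n * r)) := by
  unfold ev
  rw [pair_apply]
  apply tsum_congr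
  intro n
  rw [mul_add, Real.cos_add]

lemma ev_shift_add (t : ℝ) (f : W) :
    ev (t + Real.pi / 8) f = ev t (mult Cc f) - es t (mult Sc f) := by
  rw [ev_add]
  unfold ev es
  rw [pair_apply, pair_apply, ← (pair_summable _ _ _).tsum_sub (pair_summable _ _ _)]
  · apply tsum_congr
    intro n
    rw [mult_apply abs_Cc_le, mult_apply abs_Sc_le]
    unfold Cc Sc
    ring
  · exact fun n => Real.abs_cos_le_one _
  · exact fun n => Real.abs_sin_le_one _

lemma ev_shift_sub (t : ℝ) (f : W) :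
    ev (t - Real.pi / 8) f = ev t (mult Cc f) + es t (mult Sc f) := by
  rw [sub_eq_add_neg, ev_add]
  unfold ev es
  rw [pair_apply, pair_apply, ← (pair_summable _ _ _).tsum_add (pair_summable _ _ _)]
  · apply tsum_congr
    intro n
    rw [mult_apply abs_Cc_le, mult_apply abs_Sc_le, mul_neg, Real.cos_neg, Real.sin_neg]
    unfold Cc Sc
    ring
  · exact fun n => Real.abs_cos_le_one _
  · exact fun n => Real.abs_sin_le_one _

lemma ev_period (t : ℝ) (f : W) : ev (t + 2 * Real.pi) f = ev t f := by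
  unfold ev
  rw [pair_apply, pair_apply]
  apply tsum_congr
  intro n
  rw [mul_add, Real.cos_add_nat_mul_two_pi]

lemma es_period (t : ℝ) (f : W) : es (t + 2 * Real.pi) f = es t f := by
  unfold es
  rw [pair_apply, pair_apply]
  apply tsum_congr
  intro n
  rw [mul_add, Real.sin_add_nat_mul_two_pi]

lemma continuous_ev (f : W) : Continuous fun t => ev t f := by
  unfold ev
  simp only [pair_apply]
  apply continuous_tsum (u := fun n => |f n|)
  · intro n; fun_prop
  · exact f.summable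
  · intro n t
    rw [Real.norm_eq_abs, abs_mul]
    exact mul_le_of_le_one_right (abs_nonneg _) (Real.abs_cos_le_one _)

/-! ### derivatives -/

lemma hasDerivAt_es {a : W} (hs : Summable fun n : ℕ => |(n:ℝ) * a n|) (t : ℝ) :
    HasDerivAt (fun t => es t a) (∑' n : ℕ, (n * a n) * Real.cos (n * t)) t := by
  unfold es
  simp only [pair_apply]
  refine hasDerivAt_tsum (u := fun n : ℕ => |(n:ℝ) * a n|)
    (g := fun (n : ℕ) (t : ℝ) => a n * Real.sin (n * t))
    (g' := fun (n : ℕ) (t : ℝ) => (n * a n) * Real.cos (n * t)) (y₀ := 0) hs ?_ ?_ ?_ t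
  · intro n y
    have h1 : HasDerivAt (fun y : ℝ => (n:ℝ) * y) n y := by
      simpa using (hasDerivAt_id y).const_mul (n:ℝ)
    have h2 := (h1.sin).const_mul (a n)
    exact h2.congr_deriv (by ring)
  · intro n y
    rw [Real.norm_eq_abs, abs_mul]
    exact mul_le_of_le_one_right (abs_nonneg _) (Real.abs_cos_le_one _)
  · simp [summable_zero]

end Pool.Agent.Work.MP_5da384_an
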