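import Pool.Agent.Work.MP_5da384_an.Cert

set_option autoImplicit false

open Filter Topology Set
open scoped ENNReal NNReal

namespace Pool.Agent.Work.MP_5da384_an

/-- the ball of the contraction -/
def Ball0 : Set W := Metric.closedBall (ofL ZA) 0.006

lemma norm_ZA : ‖ofL ZA‖ ≤ 0.0062 := by
  have := (near_ofL ZA).norm_le' (R := 6200000000) (by decide +kernel)
  norm_num at this ⊢; exact this

lemma norm_ZB : ‖ofL ZB‖ ≤ 0.0068 := by
  have := (near_ofL ZB).norm_le' (R := 6800000000) (by decide +kernel)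
  norm_num at this ⊢; exact this

lemma norm_le_of_mem {z : W} (hz : z ∈ Ball0) : ‖z - ofL ZA‖ ≤ 0.006 := by
  unfold Ball0 at hz
  rwa [Metric.mem_closedBall, dist_eq_norm] at hz

lemma adm_of_mem {e : ℝ} {z : W} (he : e ∈ Icc (0.159:ℝ) 0.166) (hz : z ∈ Ball0) : Adm e z := by
  refine ⟨by linarith [he.1], he.2, ?_⟩
  have h1 := norm_le_of_mem hz
  have h2 : ‖z‖ ≤ ‖z - ofL ZA‖ + ‖ofL ZA‖ := by
    have := norm_add_le (z - ofL ZA) (ofL ZA)
    simpa using this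
  have h3 := norm_ZA
  linarith

lemma ZA_mem : ofL ZA ∈ Ball0 := by
  unfold Ball0; exact Metric.mem_closedBall_self (by norm_num)

lemma res_A : ‖Phi 0.159 (ofL ZA) - ofL ZA‖ ≤ 0.0000003922 := by
  have h : ‖Phi 0.159 (ofL ZA) - ofL ZA‖ ≤ ((392152 : ℤ) : ℝ) / 10^12 := certA.1
  refine h.trans ?_
  norm_num

lemma res_B : ‖Phi 0.166 (ofL ZB) - ofL ZB‖ ≤ 0.0000004273 := by
  have h : ‖Phi 0.166 (ofL ZB) - ofL ZB‖ ≤ ((427247 : ℤ) : ℝ) / 10^12 := certB.1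
  refine h.trans ?_
  norm_num

lemma Phi_maps {e : ℝ} (he : e ∈ Icc (0.159:ℝ) 0.166) : MapsTo (Phi e) Ball0 Ball0 := by
  intro z hz
  have ha : (0.159:ℝ) ∈ Icc (0.159:ℝ) 0.166 := ⟨le_rfl, by norm_num⟩
  have h1 := Phi_lip (adm_of_mem he hz) (adm_of_mem he ZA_mem)
  have h2 := Phi_lip_e (adm_of_mem he ZA_mem) (adm_of_mem ha ZA_mem)
  have h3 := res_A
  have h4 := norm_le_of_mem hz
  unfold Ball0
  rw [Metric.mem_closedBall, dist_eq_norm]
  have e1 : Phi e z - ofL ZA = (Phi e z - Phi e (ofL ZA)) + (Phi e (ofL ZA) - Phi 0.159 (ofL ZA)) +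
      (Phi 0.159 (ofL ZA) - ofL ZA) := by abel
  rw [e1]
  refine (norm_add_le _ _).trans ?_
  have h5 := norm_add_le (Phi e z - Phi e (ofL ZA)) (Phi e (ofL ZA) - Phi 0.159 (ofL ZA))
  have h6 : |e - 0.159| ≤ 0.007 := by
    rw [abs_le]; constructor <;> linarith [he.1, he.2]
  have h7 : 0.28 * |e - 0.159| ≤ 0.28 * 0.007 := by gcongr
  linarith

lemma exists_fix {e : ℝ} (he : e ∈ Icc (0.159:ℝ) 0.166) : ∃ z ∈ Ball0, Phi e z = z := by
  have hmaps := Phi_maps he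
  have hcontr : ContractingWith (0.65 : ℝ≥0) (hmaps.restrict (Phi e) Ball0 Ball0) := by
    refine ⟨by rw [← NNReal.coe_lt_coe]; norm_num, ?_⟩
    apply LipschitzWith.of_dist_le_mul
    intro x y
    rw [Subtype.dist_eq, Subtype.dist_eq, dist_eq_norm, dist_eq_norm]
    have := Phi_lip (adm_of_mem he x.2) (adm_of_mem he y.2)
    simpa using this
  have hcomp : IsComplete Ball0 := Metric.isClosed_closedBall.isComplete
  obtain ⟨y, hy, hfix, -⟩ := hcontr.exists_fixedPoint' hcomp hmaps ZA_mem (edist_ne_top _ _)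
  exact ⟨y, hy, hfix⟩

/-- the bifurcation function -/
noncomputable def fb (e : ℝ) (z : W) : ℝ :=
  Sc 1 * e - om * (Cc 1 * Ef (lf e z) 1 + Nf e z 1)

lemma fb_lip {e e' : ℝ} {z z' : W} (h : Adm e z) (h' : Adm e' z') :
    |fb e z - fb e' z'| ≤ 1.07 * ‖z - z'‖ + 2 * |e - e'| := by
  have e0 : lf e z - lf e' z' = (e - e') • bs 1 + mult mM (z - z') := by
    unfold lf; rw [mult_sub mM_le]; module
  have h1 : ‖lf e z - lf e' z'‖ ≤ |e - e'| + 2 * ‖z - z'‖ := by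
    rw [e0]
    refine (norm_add_le _ _).trans ?_
    rw [norm_smul, norm_bs, mul_one, Real.norm_eq_abs]
    have := norm_mult_le mM_le (z - z')
    linarith
  have h2 : ‖mult Sc (lf e z - lf e' z')‖ ≤ |e - e'| * 0.3826835 + ‖z - z'‖ := by
    rw [e0, mult_add abs_Sc_le, mult_Sc_bs_one, mult_mult abs_Sc_le mM_le S_mM_le]
    refine (norm_add_le _ _).trans ?_
    obtain ⟨h5, h6⟩ := s1_bounds
    have h7 := abs_nonneg (e - e')
    rw [norm_smul, norm_bs, mul_one, Real.norm_eq_abs, abs_mul, abs_of_pos (by linarith : 0 < Sc 1)]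
    have := norm_mult_le S_mM_le (z - z')
    have h8 : |e - e'| * Sc 1 ≤ |e - e'| * 0.3826835 := by gcongr
    linarith
  have h3 := E_lip h.l_le h'.l_le
  have h4 : ‖Nf e z - Nf e' z'‖ ≤ 0.27 * ‖lf e z - lf e' z'‖ +
      0.1582 * ‖mult Sc (lf e z - lf e' z')‖ + 0.006 * |2 * z 1 - 2 * z' 1| :=
    F_lip h.l_le h'.l_le h.s_le h'.s_le h.eta_le
  have h5 : |2 * z 1 - 2 * z' 1| ≤ 2 * ‖z - z'‖ := by
    have h := W.abs_le (z - z') 1
    rw [W.sub_apply] at h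
    rw [← mul_sub, abs_mul, abs_of_pos (by norm_num : (0:ℝ) < 2)]
    linarith
  have h6 := W.abs_le (Ef (lf e z) - Ef (lf e' z')) 1
  have h7 := W.abs_le (Nf e z - Nf e' z') 1
  rw [W.sub_apply] at h6 h7
  have h8 : fb e z - fb e' z' = Sc 1 * (e - e') - om * (Cc 1 * (Ef (lf e z) 1 - Ef (lf e' z') 1) +
      (Nf e z 1 - Nf e' z' 1)) := by unfold fb; ring
  rw [h8]
  obtain ⟨h9, h10⟩ := s1_bounds
  obtain ⟨h11, h12⟩ := c1_bounds
  obtain ⟨h13, h14⟩ := om_bounds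
  have h15 := norm_nonneg (z - z')
  have h16 := abs_nonneg (e - e')
  refine (abs_sub _ _).trans ?_
  rw [abs_mul, abs_mul om, abs_of_pos (by linarith : 0 < Sc 1), abs_of_pos (by linarith : 0 < om)]
  have h17 : |Cc 1 * (Ef (lf e z) 1 - Ef (lf e' z') 1) + (Nf e z 1 - Nf e' z' 1)| ≤
      0.9238796 * (11/9 * (|e - e'| + 2 * ‖z - z'‖)) + (0.27 * (|e - e'| + 2 * ‖z - z'‖) +
        0.1582 * (|e - e'| * 0.3826835 + ‖z - z'‖) + 0.006 * (2 * ‖z - z'‖)) := by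
    refine (abs_add_le _ _).trans ?_
    rw [abs_mul, abs_of_pos (by linarith : 0 < Cc 1)]
    have h18 : Cc 1 * |Ef (lf e z) 1 - Ef (lf e' z') 1| ≤
        0.9238796 * (11/9 * (|e - e'| + 2 * ‖z - z'‖)) := by
      apply mul_le_mul h12.le _ (abs_nonneg _) (by norm_num)
      linarith
    linarith
  have h19 : om * |Cc 1 * (Ef (lf e z) 1 - Ef (lf e' z') 1) + (Nf e z 1 - Nf e' z' 1)| ≤
      0.359096 * (0.9238796 * (11/9 * (|e - e'| + 2 * ‖z - z'‖)) +
        (0.27 * (|e - e'| + 2 * ‖z - z'‖) +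
        0.1582 * (|e - e'| * 0.3826835 + ‖z - z'‖) + 0.006 * (2 * ‖z - z'‖))) :=
    mul_le_mul h14.le h17 (abs_nonneg _) (by norm_num)
  have h20 : Sc 1 * |e - e'| ≤ 0.3826835 * |e - e'| := by gcongr
  linarith

lemma fb_A : fb 0.159 (ofL ZA) ≤ -0.0000022 := by
  have h1 := certA.2.1.coeff 1
  have h2 := certA.2.2.coeff 1
  norm_num [gt] at h1 h2
  rw [abs_le] at h1 h2
  obtain ⟨h9, h10⟩ := s1_bounds
  obtain ⟨h11, h12⟩ := c1_bounds
  obtain ⟨h13, h14⟩ := om_bounds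
  unfold fb
  norm_num
  have h3 : 0.9238795 * 0.158730395 ≤ Cc 1 * Ef (lf (159/1000) (ofL ZA)) 1 :=
    mul_le_mul h11.le (by linarith [h1.1]) (by norm_num) (by linarith)
  have h4 : 0.3590955 * (0.9238795 * 0.158730395 + 0.022802778) ≤
      om * (Cc 1 * Ef (lf (159/1000) (ofL ZA)) 1 + Nf (159/1000) (ofL ZA) 1) :=
    mul_le_mul h13.le (by linarith [h2.1]) (by norm_num) (by linarith)
  linarith

lemma fb_B : 0.0000022 ≤ fb 0.166 (ofL ZB) := by
  have h1 := certB.2.1.coeff 1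
  have h2 := certB.2.2.coeff 1
  norm_num [gt] at h1 h2
  rw [abs_le] at h1 h2
  obtain ⟨h9, h10⟩ := s1_bounds
  obtain ⟨h11, h12⟩ := c1_bounds
  obtain ⟨h13, h14⟩ := om_bounds
  unfold fb
  norm_num
  have h3 : Cc 1 * Ef (lf (83/500) (ofL ZB)) 1 ≤ 0.9238796 * 0.165693337 :=
    mul_le_mul h12.le (by linarith [h1.2]) (by linarith [h1.1]) (by norm_num)
  have h3' : 0 ≤ Cc 1 * Ef (lf (83/500) (ofL ZB)) 1 :=
    mul_nonneg (by linarith) (by linarith [h1.1])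
  have h4 : om * (Cc 1 * Ef (lf (83/500) (ofL ZB)) 1 + Nf (83/500) (ofL ZB) 1) ≤
      0.359096 * (0.9238796 * 0.165693337 + 0.02381572) :=
    mul_le_mul h14.le (by linarith [h2.2]) (by linarith [h2.1]) (by norm_num)
  linarith

/-- the solution of the complete system -/
theorem exists_sol : ∃ (e : ℝ) (z : W), e ∈ Icc (0.159:ℝ) 0.166 ∧ z ∈ Ball0 ∧ Phi e z = z ∧
    fb e z = 0 := by
  have hchoice : ∀ e : ℝ, ∃ z : W, e ∈ Icc (0.159:ℝ) 0.166 → (z ∈ Ball0 ∧ Phi e z = z) := by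
    intro e
    by_cases he : e ∈ Icc (0.159:ℝ) 0.166
    · obtain ⟨z, hz, hf⟩ := exists_fix he
      exact ⟨z, fun _ => ⟨hz, hf⟩⟩
    · exact ⟨0, fun h => absurd h he⟩
  choose zf hzf using hchoice
  have hzlip : ∀ e ∈ Icc (0.159:ℝ) 0.166, ∀ e' ∈ Icc (0.159:ℝ) 0.166,
      ‖zf e - zf e'‖ ≤ 0.8 * |e - e'| := by
    intro e he e' he'
    obtain ⟨h1, h2⟩ := hzf e he
    obtain ⟨h1', h2'⟩ := hzf e' he'
    have h3 := Phi_lip (adm_of_mem he h1) (adm_of_mem he h1')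
    have h4 := Phi_lip_e (adm_of_mem he h1') (adm_of_mem he' h1')
    have e1 : zf e - zf e' = (Phi e (zf e) - Phi e (zf e')) + (Phi e (zf e') - Phi e' (zf e')) := by
      rw [h2, h2']; abel
    have h5 := norm_add_le (Phi e (zf e) - Phi e (zf e')) (Phi e (zf e') - Phi e' (zf e'))
    rw [← e1] at h5
    have := abs_nonneg (e - e')
    linarith
  have hcont : ContinuousOn (fun e => fb e (zf e)) (Icc (0.159:ℝ) 0.166) := by
    have hL : LipschitzOnWith (3 : ℝ≥0) (fun e => fb e (zf e)) (Icc (0.159:ℝ) 0.166) := by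
      apply LipschitzOnWith.of_dist_le_mul
      intro e he e' he'
      rw [Real.dist_eq, Real.dist_eq]
      have h1 := fb_lip (adm_of_mem he (hzf e he).1) (adm_of_mem he' (hzf e' he').1)
      have h2 := hzlip e he e' he'
      have := abs_nonneg (e - e')
      simp only [NNReal.coe_ofNat]
      linarith
    exact hL.continuousOn
  have ha : (0.159:ℝ) ∈ Icc (0.159:ℝ) 0.166 := ⟨le_rfl, by norm_num⟩
  have hb : (0.166:ℝ) ∈ Icc (0.159:ℝ) 0.166 := ⟨by norm_num, le_rfl⟩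
  have hA : fb 0.159 (zf 0.159) ≤ 0 := by
    obtain ⟨h1, h2⟩ := hzf _ ha
    have h3 := Phi_lip (adm_of_mem ha h1) (adm_of_mem ha ZA_mem)
    have h4 := res_A
    have e1 : zf 0.159 - ofL ZA = (Phi 0.159 (zf 0.159) - Phi 0.159 (ofL ZA)) +
        (Phi 0.159 (ofL ZA) - ofL ZA) := by rw [h2]; abel
    have h5 := norm_add_le (Phi 0.159 (zf 0.159) - Phi 0.159 (ofL ZA))
      (Phi 0.159 (ofL ZA) - ofL ZA)
    rw [← e1] at h5
    have h6 := fb_lip (adm_of_mem ha h1) (adm_of_mem ha ZA_mem)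
    rw [sub_self, abs_zero, mul_zero, add_zero] at h6
    have h7 := fb_A
    have h8 := le_abs_self (fb 0.159 (zf 0.159) - fb 0.159 (ofL ZA))
    linarith
  have hB : 0 ≤ fb 0.166 (zf 0.166) := by
    obtain ⟨h1, h2⟩ := hzf _ hb
    have hadm : Adm 0.166 (ofL ZB) := ⟨by norm_num, le_rfl, by have := norm_ZB; linarith⟩
    have h3 := Phi_lip (adm_of_mem hb h1) hadm
    have h4 := res_B
    have e1 : zf 0.166 - ofL ZB = (Phi 0.166 (zf 0.166) - Phi 0.166 (ofL ZB)) +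
        (Phi 0.166 (ofL ZB) - ofL ZB) := by rw [h2]; abel
    have h5 := norm_add_le (Phi 0.166 (zf 0.166) - Phi 0.166 (ofL ZB))
      (Phi 0.166 (ofL ZB) - ofL ZB)
    rw [← e1] at h5
    have h6 := fb_lip (adm_of_mem hb h1) hadm
    rw [sub_self, abs_zero, mul_zero, add_zero] at h6
    have h7 := fb_B
    have h8 := neg_abs_le (fb 0.166 (zf 0.166) - fb 0.166 (ofL ZB))
    linarith
  obtain ⟨e, he, hfe⟩ := intermediate_value_Icc (by norm_num : (0.159:ℝ) ≤ 0.166) hcont ⟨hA, hB⟩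
  exact ⟨e, zf e, he, (hzf e he).1, (hzf e he).2, hfe⟩

end Pool.Agent.Work.MP_5da384_an
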