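import Pool.Agent.Work.MP_5da384_an.Defs

set_option autoImplicit false

open Set Complex
open scoped ComplexConjugate ENNReal

namespace Pool.Agent.Work.MP_5da384_an

/-- A closed `C¹` curve `c` of period `ℓ` with strictly increasing tangent angle `ψ`
of total variation `2π` over a period. -/
structure CC where
  c : ℝ → ℂ
  σ : ℝ → ℝ
  ψ : ℝ → ℝ
  ψ' : ℝ → ℝ
  ℓ : ℝ
  hℓ : 0 < ℓ
  hσc : Continuous σ
  hσ : ∀ s, 0 < σ s
  hc : ∀ s, HasDerivAt c (σ s * exp (ψ s * I)) s
  hψ : ∀ s, HasDerivAt ψ (ψ' s) s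
  hψ' : ∀ s, 0 < ψ' s
  cper : ∀ s, c (s + ℓ) = c s
  ψper : ∀ s, ψ (s + ℓ) = ψ s + 2 * Real.pi

namespace CC

variable (C : CC)

/-- signed distance of `z` to the left of the tangent line at `s` -/
noncomputable def F (s : ℝ) (z : ℂ) : ℝ := ((z - C.c s) * exp (-(C.ψ s * I))).im

/-- position of `z` along the tangent line at `s` -/
noncomputable def A (s : ℝ) (z : ℂ) : ℝ := ((z - C.c s) * exp (-(C.ψ s * I))).re

lemma c_cont : Continuous C.c :=
  continuous_iff_continuousAt.2 fun s => (C.hc s).continuousAt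

lemma ψ_cont : Continuous C.ψ :=
  continuous_iff_continuousAt.2 fun s => (C.hψ s).continuousAt

lemma ψ_strictMono : StrictMono C.ψ := by
  apply strictMono_of_deriv_pos
  intro s
  rw [(C.hψ s).deriv]
  exact C.hψ' s

lemma F_self (s : ℝ) : C.F s (C.c s) = 0 := by simp [F]

lemma norm_expI (x : ℝ) : ‖exp (x * I)‖ = 1 := norm_exp_ofReal_mul_I x

lemma norm_expI' (x : ℝ) : ‖exp (-(x * I))‖ = 1 := by
  have := norm_exp_ofReal_mul_I (-x)
  push_cast at this
  rwa [neg_mul] at this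

lemma eq_of_FA {s : ℝ} {z : ℂ} (hF : C.F s z = 0) (hA : C.A s z = 0) : z = C.c s := by
  have h : (z - C.c s) * exp (-(C.ψ s * I)) = 0 := Complex.ext hA hF
  rcases mul_eq_zero.1 h with h | h
  · exact sub_eq_zero.1 h
  · exact absurd h (exp_ne_zero _)

/-- reconstruct `z` from `A` and `F` -/
lemma recon (s : ℝ) (z : ℂ) :
    z - C.c s = (C.A s z + C.F s z * I) * exp (C.ψ s * I) := by
  have h : ((C.A s z : ℂ) + C.F s z * I) = (z - C.c s) * exp (-(C.ψ s * I)) := by
    rw [A, F]; exact re_add_im _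
  rw [h, mul_assoc, ← Complex.exp_add]
  simp

lemma F_per (s : ℝ) (z : ℂ) : C.F (s + C.ℓ) z = C.F s z := by
  rw [F, F, C.cper, C.ψper]
  congr 2
  push_cast
  rw [show -(((C.ψ s : ℂ) + 2 * (Real.pi : ℂ)) * I) = -(C.ψ s * I) - 2 * Real.pi * I by ring,
    Complex.exp_sub, Complex.exp_two_pi_mul_I, div_one]

lemma F_cont (z : ℂ) : Continuous fun s => C.F s z := by
  have h1 := C.c_cont
  have h2 := C.ψ_cont
  unfold F
  fun_prop

lemma F_cont₂ (s : ℝ) : Continuous (C.F s) := by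
  unfold F
  fun_prop

lemma F_periodic (z : ℂ) : Function.Periodic (fun s => C.F s z) C.ℓ := fun s => C.F_per s z

lemma c_periodic : Function.Periodic C.c C.ℓ := C.cper

lemma F_sub (s : ℝ) (z w : ℂ) : C.F s z - C.F s w = ((z - w) * exp (-(C.ψ s * I))).im := by
  rw [F, F, ← sub_im]; congr 1; ring

lemma F_lip (s : ℝ) (z w : ℂ) : |C.F s z - C.F s w| ≤ ‖z - w‖ := by
  rw [F_sub]
  refine (abs_im_le_norm _).trans ?_
  rw [norm_mul, norm_expI', mul_one]

lemma exp_mul_exp_neg (a b : ℝ) : exp (a * I) * exp (-(b * I)) = exp ((a - b : ℝ) * I) := by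
  rw [← Complex.exp_add]; congr 1; push_cast; ring

lemma hasDerivAt_F_c (s t : ℝ) :
    HasDerivAt (fun t => C.F s (C.c t)) (C.σ t * Real.sin (C.ψ t - C.ψ s)) t := by
  have h1 : HasDerivAt (fun t => (C.c t - C.c s) * exp (-(C.ψ s * I)))
      (C.σ t * exp (C.ψ t * I) * exp (-(C.ψ s * I))) t :=
    ((C.hc t).sub_const _).mul_const _
  have h2 := (imCLM.hasFDerivAt.comp_hasDerivAt t h1)
  have h3 : imCLM (C.σ t * exp (C.ψ t * I) * exp (-(C.ψ s * I)))
      = C.σ t * Real.sin (C.ψ t - C.ψ s) := by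
    rw [mul_assoc, exp_mul_exp_neg, imCLM_apply, im_ofReal_mul, exp_ofReal_mul_I_im]
  rw [h3] at h2
  exact h2

lemma hasDerivAt_F (s : ℝ) (z : ℂ) :
    HasDerivAt (fun s => C.F s z) (-(C.ψ' s * C.A s z)) s := by
  have h1 : HasDerivAt (fun s => z - C.c s) (-(C.σ s * exp (C.ψ s * I))) s :=
    (C.hc s).const_sub z
  have h2 : HasDerivAt (fun s => exp (-((C.ψ s : ℂ) * I)))
      (exp (-((C.ψ s : ℂ) * I)) * -((C.ψ' s : ℂ) * I)) s :=
    (((C.hψ s).ofReal_comp.mul_const I).neg).cexp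
  have h3 := imCLM.hasFDerivAt.comp_hasDerivAt s (h1.mul h2)
  have h4 : imCLM (-(C.σ s * exp (C.ψ s * I)) * exp (-((C.ψ s : ℂ) * I)) +
      (z - C.c s) * (exp (-((C.ψ s : ℂ) * I)) * -((C.ψ' s : ℂ) * I))) = -(C.ψ' s * C.A s z) := by
    have e1 : -(C.σ s * exp (C.ψ s * I)) * exp (-((C.ψ s : ℂ) * I)) = -(C.σ s : ℂ) := by
      rw [neg_mul, mul_assoc, exp_mul_exp_neg]; simp
    have e2 : (z - C.c s) * (exp (-((C.ψ s : ℂ) * I)) * -((C.ψ' s : ℂ) * I)) =
        -((C.ψ' s : ℂ) * (((z - C.c s) * exp (-(C.ψ s * I))) * I)) := by ring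
    rw [e1, e2, imCLM_apply, add_im, neg_im, neg_im, im_ofReal_mul, ofReal_im, A]
    simp
  rw [h4] at h3
  exact h3

/-- the fundamental convexity property -/
lemma F_pos {s t : ℝ} (hst : s < t) (hts : t < s + C.ℓ) : 0 < C.F s (C.c t) := by
  -- the opposite point
  obtain ⟨t1, ht1, hψ1⟩ : ∃ t1 ∈ Ioo s (s + C.ℓ), C.ψ t1 = C.ψ s + Real.pi := by
    have h := intermediate_value_Ioo (f := C.ψ) (a := s) (b := s + C.ℓ)
      (by linarith [C.hℓ]) C.ψ_cont.continuousOn
    have hm : C.ψ s + Real.pi ∈ Ioo (C.ψ s) (C.ψ (s + C.ℓ)) := by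
      rw [C.ψper]; constructor <;> linarith [Real.pi_pos]
    obtain ⟨t1, h1, h2⟩ := h hm
    exact ⟨t1, h1, h2⟩
  have hcont : Continuous fun t => C.F s (C.c t) := (C.F_cont₂ s).comp C.c_cont
  have hinc : StrictMonoOn (fun t => C.F s (C.c t)) (Icc s t1) := by
    apply strictMonoOn_of_deriv_pos (convex_Icc _ _) hcont.continuousOn
    intro u hu
    rw [interior_Icc] at hu
    rw [(C.hasDerivAt_F_c s u).deriv]
    apply mul_pos (C.hσ u)
    apply Real.sin_pos_of_pos_of_lt_pi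
    · have := C.ψ_strictMono hu.1; linarith
    · have := C.ψ_strictMono hu.2; linarith
  have hdec : StrictAntiOn (fun t => C.F s (C.c t)) (Icc t1 (s + C.ℓ)) := by
    apply strictAntiOn_of_deriv_neg (convex_Icc _ _) hcont.continuousOn
    intro u hu
    rw [interior_Icc] at hu
    rw [(C.hasDerivAt_F_c s u).deriv]
    apply mul_neg_of_pos_of_neg (C.hσ u)
    have h1 := C.ψ_strictMono hu.1
    have h2 := C.ψ_strictMono hu.2
    rw [C.ψper] at h2
    have : Real.sin (C.ψ u - C.ψ s) = -Real.sin (C.ψ u - C.ψ s - Real.pi) := by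
      rw [Real.sin_sub_pi, neg_neg]
    rw [this, neg_lt_zero]
    apply Real.sin_pos_of_pos_of_lt_pi <;> linarith
  have h0 : C.F s (C.c s) = 0 := C.F_self s
  have h0' : C.F s (C.c (s + C.ℓ)) = 0 := by rw [C.cper]; exact h0
  rcases le_total t t1 with h | h
  · have := hinc (left_mem_Icc.2 ht1.1.le) ⟨hst.le, h⟩ hst
    simp only [h0] at this
    exact this
  · have := hdec ⟨h, hts.le⟩ (right_mem_Icc.2 ht1.2.le) hts
    simp only [h0'] at this
    exact this

/-- every point is, up to the period, in `[s, s + ℓ)` -/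
lemma exists_rep (s t : ℝ) : ∃ t' ∈ Ico s (s + C.ℓ), ∃ k : ℤ, t = t' + k * C.ℓ := by
  refine ⟨toIcoMod C.hℓ s t, toIcoMod_mem_Ico C.hℓ s t, toIcoDiv C.hℓ s t, ?_⟩
  have := toIcoMod_add_toIcoDiv_zsmul C.hℓ s t
  rw [zsmul_eq_mul] at this
  exact this.symm

lemma c_add_int (t : ℝ) (k : ℤ) : C.c (t + k * C.ℓ) = C.c t := by
  have := C.c_periodic.int_mul k t
  exact this

lemma F_add_int (s : ℝ) (k : ℤ) (z : ℂ) : C.F (s + k * C.ℓ) z = C.F s z := by
  have := (C.F_periodic z).int_mul k s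
  exact this

lemma F_nonneg (s t : ℝ) : 0 ≤ C.F s (C.c t) := by
  obtain ⟨t', ht', k, hk⟩ := C.exists_rep s t
  rw [hk, C.c_add_int]
  rcases ht'.1.eq_or_lt with h | h
  · rw [← h, C.F_self]
  · exact (C.F_pos h ht'.2).le

lemma eq_of_F_eq_zero {s t : ℝ} (h : C.F s (C.c t) = 0) : ∃ k : ℤ, t = s + k * C.ℓ := by
  obtain ⟨t', ht', k, hk⟩ := C.exists_rep s t
  rw [hk, C.c_add_int] at h
  rcases ht'.1.eq_or_lt with h1 | h1
  · exact ⟨k, by rw [hk, ← h1]⟩
  · exact absurd h (C.F_pos h1 ht'.2).ne'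

lemma injOn : InjOn C.c (Ico 0 C.ℓ) := by
  intro s hs t ht h
  by_contra hne
  rcases lt_or_gt_of_ne hne with h1 | h1
  · have := C.F_pos h1 (by linarith [hs.1, ht.2])
    rw [← h, C.F_self] at this
    exact lt_irrefl _ this
  · have := C.F_pos h1 (by linarith [ht.1, hs.2])
    rw [h, C.F_self] at this
    exact lt_irrefl _ this

/-- for every `z` the function `F · z` attains its minimum -/
lemma exists_min (z : ℂ) : ∃ s, ∀ u, C.F s z ≤ C.F u z := by
  obtain ⟨s, _, hs⟩ := isCompact_Icc.exists_isMinOn (nonempty_Icc.2 C.hℓ.le)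
    (C.F_cont z).continuousOn
  refine ⟨s, fun u => ?_⟩
  obtain ⟨u', hu', k, hk⟩ := C.exists_rep 0 u
  rw [hk, C.F_add_int]
  exact hs ⟨hu'.1, by linarith [hu'.2]⟩

lemma eq_of_zero {s : ℝ} {z : ℂ} (h0 : C.F s z = 0) (h : ∀ u, 0 ≤ C.F u z) : z = C.c s := by
  have hmin : IsLocalMin (fun u => C.F u z) s :=
    Filter.Eventually.of_forall fun u => h0.le.trans (h u)
  have h1 := hmin.hasDerivAt_eq_zero (C.hasDerivAt_F s z)
  rw [neg_eq_zero] at h1
  rcases mul_eq_zero.1 h1 with h2 | h2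
  · exact absurd h2 (C.hψ' s).ne'
  · exact C.eq_of_FA h0 h2

/-- the closed convex set -/
def K : Set ℂ := {z | ∀ s, 0 ≤ C.F s z}

/-- its interior -/
def U : Set ℂ := {z | ∀ s, 0 < C.F s z}

lemma U_subset_K : C.U ⊆ C.K := fun _ hz s => (hz s).le

lemma K_closed : IsClosed C.K := by
  have : C.K = ⋂ s, {z | 0 ≤ C.F s z} := by ext z; simp [K]
  rw [this]
  exact isClosed_iInter fun s => isClosed_le continuous_const (C.F_cont₂ s)

lemma U_open : IsOpen C.U := by
  rw [Metric.isOpen_iff]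
  intro z hz
  obtain ⟨s, hs⟩ := C.exists_min z
  refine ⟨C.F s z, hz s, fun w hw u => ?_⟩
  rw [Metric.mem_ball, dist_eq_norm] at hw
  have h1 := (abs_le.1 (C.F_lip u w z)).1
  have h2 := hs u
  linarith

lemma F_comb (s : ℝ) (z w : ℂ) {a b : ℝ} (hab : a + b = 1) :
    C.F s (a • z + b • w) = a * C.F s z + b * C.F s w := by
  have hb : b = 1 - a := by linarith
  subst hb
  simp only [F, real_smul]
  have e : ((a : ℂ) * z + ((1 - a : ℝ) : ℂ) * w - C.c s) * exp (-(C.ψ s * I)) =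
      (a : ℂ) * ((z - C.c s) * exp (-(C.ψ s * I))) +
      ((1 - a : ℝ) : ℂ) * ((w - C.c s) * exp (-(C.ψ s * I))) := by
    push_cast; ring
  rw [e, add_im, im_ofReal_mul, im_ofReal_mul]

lemma K_convex : Convex ℝ C.K := by
  intro z hz w hw a b ha hb hab s
  rw [C.F_comb s z w hab]
  have := hz s
  have := hw s
  positivity

lemma U_convex : Convex ℝ C.U := by
  intro z hz w hw a b ha hb hab s
  rw [C.F_comb s z w hab]
  have h1 := hz s
  have h2 := hw s
  rcases ha.eq_or_lt with h | h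
  · subst h
    have : b = 1 := by linarith
    subst this
    simpa using h2
  · positivity

lemma c_mem_K (t : ℝ) : C.c t ∈ C.K := fun s => C.F_nonneg s t

lemma mem_U_or (z : ℂ) (hz : z ∈ C.K) : z ∈ C.U ∨ ∃ s, z = C.c s := by
  by_cases h : z ∈ C.U
  · exact Or.inl h
  · right
    rw [U, mem_ofPred_eq] at h
    push Not at h
    obtain ⟨s, hs⟩ := h
    exact ⟨s, C.eq_of_zero (le_antisymm hs (hz s)) hz⟩

lemma c_notMem_U (t : ℝ) : C.c t ∉ C.U := fun h => by
  have := h t
  rw [C.F_self] at this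
  exact lt_irrefl _ this

lemma U_nonempty : C.U.Nonempty := by
  refine ⟨(1/2 : ℝ) • C.c 0 + (1/2 : ℝ) • C.c (C.ℓ / 2), fun s => ?_⟩
  rw [C.F_comb s _ _ (by norm_num)]
  have h1 := C.F_nonneg s 0
  have h2 := C.F_nonneg s (C.ℓ / 2)
  by_contra hcon
  have h3 : C.F s (C.c 0) = 0 := by linarith
  have h4 : C.F s (C.c (C.ℓ / 2)) = 0 := by linarith
  obtain ⟨k1, hk1⟩ := C.eq_of_F_eq_zero h3
  obtain ⟨k2, hk2⟩ := C.eq_of_F_eq_zero h4
  have h5 : C.ℓ / 2 = ((k2 - k1 : ℤ) : ℝ) * C.ℓ := by push_cast; linarith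
  have h6 : (1 / 2 : ℝ) = ((k2 - k1 : ℤ) : ℝ) := by
    have := C.hℓ
    field_simp at h5
    linarith
  have h7 : (1 : ℝ) = ((2 * (k2 - k1) : ℤ) : ℝ) := by push_cast at h6 ⊢; linarith
  have h8 : (1 : ℤ) = 2 * (k2 - k1) := by exact_mod_cast h7
  omega

lemma closure_U : closure C.U = C.K := by
  apply subset_antisymm
  · exact closure_minimal C.U_subset_K C.K_closed
  · intro z hz
    obtain ⟨w, hw⟩ := C.U_nonempty
    have hcont : Continuous fun t : ℝ => (1 - t) • z + t • w := by fun_prop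
    have h0 : (0:ℝ) ∈ closure (Ioc (0:ℝ) 1) := by
      rw [closure_Ioc zero_ne_one]; simp
    have h1 := image_closure_subset_closure_image hcont (mem_image_of_mem _ h0)
    simp only [sub_zero, one_smul, zero_smul, add_zero] at h1
    refine closure_mono ?_ h1
    rintro _ ⟨t, ht, rfl⟩ s
    rw [C.F_comb s _ _ (by ring)]
    have h2 := hz s
    have h3 := hw s
    have h4 := ht.1
    have h5 := ht.2
    have : 0 ≤ (1 - t) * C.F s z := mul_nonneg (by linarith) h2
    have : 0 < t * C.F s w := mul_pos h4 h3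
    linarith

lemma interior_K : interior C.K = C.U := by
  rw [← closure_U, C.U_convex.interior_closure_eq_interior_of_nonempty_interior
    (by rw [C.U_open.interior_eq]; exact C.U_nonempty), C.U_open.interior_eq]

lemma K_diff_U : C.K \ C.U = range C.c := by
  ext z
  constructor
  · rintro ⟨h1, h2⟩
    rcases C.mem_U_or z h1 with h | ⟨s, hs⟩
    · exact absurd h h2
    · exact ⟨s, hs.symm⟩
  · rintro ⟨s, rfl⟩
    exact ⟨C.c_mem_K s, C.c_notMem_U s⟩

lemma frontier_U : frontier C.U = range C.c := by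
  rw [frontier, C.closure_U, C.U_open.interior_eq, C.K_diff_U]

lemma frontier_K : frontier C.K = range C.c := by
  rw [frontier, C.K_closed.closure_eq, C.interior_K, C.K_diff_U]

lemma K_strictConvex : StrictConvex ℝ C.K := by
  intro z hz w hw hne a b ha hb hab
  rw [C.interior_K]
  intro s
  rw [C.F_comb s _ _ hab]
  by_contra hcon
  have h1 := hz s
  have h2 := hw s
  have h3 : 0 ≤ a * C.F s z := by positivity
  have h4 : 0 ≤ b * C.F s w := by positivity
  have h5 : a * C.F s z = 0 := by linarith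
  have h6 : b * C.F s w = 0 := by linarith
  have h7 : C.F s z = 0 := by
    rcases mul_eq_zero.1 h5 with h | h
    · linarith
    · exact h
  have h8 : C.F s w = 0 := by
    rcases mul_eq_zero.1 h6 with h | h
    · linarith
    · exact h
  exact hne ((C.eq_of_zero h7 hz).trans (C.eq_of_zero h8 hw).symm)

lemma ψ_surj (α : ℝ) : ∃ s, C.ψ s = α := by
  have hadd : ∀ n : ℕ, C.ψ (n * C.ℓ) = C.ψ 0 + n * (2 * Real.pi) ∧
      C.ψ (-(n * C.ℓ)) = C.ψ 0 - n * (2 * Real.pi) := by
    intro n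
    induction n with
    | zero => simp
    | succ n ih =>
      constructor
      · have e : ((n + 1 : ℕ) : ℝ) * C.ℓ = n * C.ℓ + C.ℓ := by push_cast; ring
        rw [e, C.ψper, ih.1]; push_cast; ring
      · have e : -((n : ℝ) * C.ℓ) = -(((n + 1 : ℕ) : ℝ) * C.ℓ) + C.ℓ := by push_cast; ring
        have h := ih.2
        rw [e, C.ψper] at h
        push_cast at h ⊢
        linarith
  obtain ⟨n, hn⟩ := exists_nat_gt (|α - C.ψ 0| / (2 * Real.pi))
  rw [div_lt_iff₀ (by positivity)] at hn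
  have h1 := (abs_lt.1 hn)
  have h2 := hadd n
  have h3 : α ∈ Icc (C.ψ (-(n * C.ℓ))) (C.ψ (n * C.ℓ)) := by
    rw [h2.1, h2.2]
    constructor <;> linarith [h1.1, h1.2]
  obtain ⟨s, _, hs⟩ := intermediate_value_Icc (by
    have : 0 ≤ (n : ℝ) * C.ℓ := mul_nonneg (Nat.cast_nonneg _) C.hℓ.le
    linarith) C.ψ_cont.continuousOn h3
  exact ⟨s, hs⟩

lemma c_bdd : ∃ B, ∀ s, ‖C.c s‖ ≤ B := by
  obtain ⟨s, _, hs⟩ := isCompact_Icc.exists_isMaxOn (nonempty_Icc.2 C.hℓ.le)
    (C.c_cont.norm).continuousOn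
  refine ⟨‖C.c s‖, fun u => ?_⟩
  obtain ⟨u', hu', k, hk⟩ := C.exists_rep 0 u
  rw [hk, C.c_add_int]
  exact hs ⟨hu'.1, by linarith [hu'.2]⟩

lemma K_bounded : Bornology.IsBounded C.K := by
  obtain ⟨B, hB⟩ := C.c_bdd
  rw [isBounded_iff_forall_norm_le]
  refine ⟨B, fun z hz => ?_⟩
  obtain ⟨s, hs⟩ := C.ψ_surj (arg z + Real.pi / 2)
  have h1 := hz s
  rw [F, sub_mul, sub_im] at h1
  have h2 : z * exp (-(C.ψ s * I)) = -(‖z‖ * I) := by
    conv_lhs => rw [← norm_mul_exp_arg_mul_I z]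
    rw [hs, mul_assoc, exp_mul_exp_neg]
    have e : arg z - (arg z + Real.pi / 2) = -(Real.pi / 2) := by ring
    rw [e]
    have : exp (((-(Real.pi / 2) : ℝ) : ℂ) * I) = -I := by
      push_cast
      rw [neg_mul, Complex.exp_neg, Complex.exp_pi_div_two_mul_I, inv_I]
    rw [this]; ring
  rw [h2, neg_im] at h1
  have h3 : (‖z‖ * I : ℂ).im = ‖z‖ := by simp
  rw [h3] at h1
  have h4 : -(C.c s * exp (-(C.ψ s * I))).im ≤ B := by
    have h5 := (abs_le.1 (abs_im_le_norm (C.c s * exp (-(C.ψ s * I))))).1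
    rw [norm_mul, norm_expI', mul_one] at h5
    linarith [hB s]
  linarith

lemma K_compact : IsCompact C.K :=
  Metric.isCompact_of_isClosed_isBounded C.K_closed C.K_bounded

lemma contDiff_c : ContDiff ℝ 1 C.c := by
  rw [contDiff_one_iff_deriv]
  refine ⟨fun s => (C.hc s).differentiableAt, ?_⟩
  have : deriv C.c = fun s => (C.σ s : ℂ) * exp (C.ψ s * I) := by
    funext s; exact (C.hc s).deriv
  rw [this]
  have h1 := C.hσc
  have h2 := C.ψ_cont
  fun_prop

lemma deriv_c_ne (s : ℝ) : deriv C.c s ≠ 0 := by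
  rw [(C.hc s).deriv]
  exact mul_ne_zero (by exact_mod_cast (C.hσ s).ne') (exp_ne_zero _)

/-- a supporting line of the curve is a tangent line -/
lemma tangent_iff (P v : ℂ) : IsTangentLine (range C.c) P v ↔
    ∃ (u : ℝ) (r : ℝ), r ≠ 0 ∧ v = r * exp (C.ψ u * I) ∧ C.F u P = 0 := by
  constructor
  · rintro ⟨hv, ⟨t, u, hu⟩, hside⟩
    -- the function `u ↦ Im ((c u - P) conj v)` has a local extremum at `u`
    have hd : HasDerivAt (fun w => ((C.c w - P) * conj v).im)
        (((C.σ u * exp (C.ψ u * I)) * conj v).im) u := by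
      have h1 : HasDerivAt (fun w => (C.c w - P) * conj v) ((C.σ u * exp (C.ψ u * I)) * conj v) u :=
        ((C.hc u).sub_const P).mul_const _
      exact imCLM.hasFDerivAt.comp_hasDerivAt u h1
    have h0 : ((C.c u - P) * conj v).im = 0 := by
      rw [hu]
      have : (P + t * v - P) * conj v = ((t * normSq v : ℝ) : ℂ) := by
        push_cast
        rw [← mul_conj]; ring
      rw [this, ofReal_im]
    have hz : ((C.σ u * exp (C.ψ u * I)) * conj v).im = 0 := by
      rcases hside with h | h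
      · have hmin : IsLocalMin (fun w => ((C.c w - P) * conj v).im) u :=
          Filter.Eventually.of_forall fun w => h0.le.trans (h _ ⟨w, rfl⟩)
        exact hmin.hasDerivAt_eq_zero hd
      · have hmax : IsLocalMax (fun w => ((C.c w - P) * conj v).im) u :=
          Filter.Eventually.of_forall fun w => (h _ ⟨w, rfl⟩).trans h0.ge
        exact hmax.hasDerivAt_eq_zero hd
    rw [mul_assoc, im_ofReal_mul] at hz
    have hz2 : (exp (C.ψ u * I) * conj v).im = 0 := by
      rcases mul_eq_zero.1 hz with h | h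
      · exact absurd h (C.hσ u).ne'
      · exact h
    -- so `v` is a real multiple of `exp (ψ u I)`
    have hvr : v = (((exp (C.ψ u * I) * conj v).re : ℝ) : ℂ) * exp (C.ψ u * I) := by
      have h1 : ((exp (C.ψ u * I) * conj v).re : ℂ) = exp (C.ψ u * I) * conj v := by
        apply Complex.ext
        · exact ofReal_re _
        · rw [ofReal_im, hz2]
      have h2 : conj ((exp (C.ψ u * I) * conj v).re : ℂ) = conj (exp (C.ψ u * I)) * v := by
        rw [h1, map_mul, conj_conj]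
      rw [conj_ofReal] at h2
      rw [h2]
      have h3 : conj (exp (C.ψ u * I)) * exp (C.ψ u * I) = 1 := by
        rw [mul_comm, mul_conj, normSq_eq_norm_sq, norm_expI]; simp
      calc v = (conj (exp (C.ψ u * I)) * exp (C.ψ u * I)) * v := by rw [h3, one_mul]
        _ = _ := by ring
    set r : ℝ := (exp (C.ψ u * I) * conj v).re with hr
    have hr0 : r ≠ 0 := by
      intro h
      rw [h] at hvr
      apply hv
      rw [hvr]; simp
    refine ⟨u, r, hr0, hvr, ?_⟩
    have hP : P - C.c u = -(t * v) := by rw [hu]; ring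
    rw [F, hP, hvr]
    have : -(t * (r * exp (C.ψ u * I))) * exp (-(C.ψ u * I)) = ((-(t * r) : ℝ) : ℂ) := by
      push_cast
      rw [neg_mul, mul_assoc, mul_assoc, exp_mul_exp_neg]; simp
    rw [this, ofReal_im]
  · rintro ⟨u, r, hr, rfl, hF⟩
    have hP := C.recon u P
    rw [hF] at hP
    simp only [ofReal_zero, zero_mul, add_zero] at hP
    refine ⟨mul_ne_zero (by exact_mod_cast hr) (exp_ne_zero _), ⟨-(C.A u P) / r, u, ?_⟩, ?_⟩
    · have hr' : (r : ℂ) ≠ 0 := by exact_mod_cast hr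
      push_cast
      field_simp
      rw [show C.c u = P - (P - C.c u) by ring, hP]
      ring
    · have hgen : ∀ z ∈ range C.c, ((z - P) * conj (r * exp (C.ψ u * I))).im = r * C.F u z := by
        rintro z -
        have e1 : conj (r * exp (C.ψ u * I)) = r * exp (-(C.ψ u * I)) := by
          rw [map_mul, conj_ofReal, ← exp_conj]
          simp
        have e2 : (z - P) * (r * exp (-(C.ψ u * I))) =
            r * ((z - C.c u) * exp (-(C.ψ u * I)) - (P - C.c u) * exp (-(C.ψ u * I))) := by ring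
        rw [e1, e2, im_ofReal_mul, sub_im, ← F, ← F, hF, sub_zero]
      rcases lt_or_gt_of_ne hr with h | h
      · right
        intro z hz
        rw [hgen z hz]
        obtain ⟨t, rfl⟩ := hz
        exact mul_nonpos_of_nonpos_of_nonneg h.le (C.F_nonneg _ _)
      · left
        intro z hz
        rw [hgen z hz]
        obtain ⟨t, rfl⟩ := hz
        exact mul_nonneg h.le (C.F_nonneg _ _)

end CC

end Pool.Agent.Work.MP_5da384_an
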