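import Pool.Agent.Work.MP_5da384_an.Geo1

set_option autoImplicit false

open Set Complex
open scoped ComplexConjugate ENNReal NNReal

namespace Pool.Agent.Work.MP_5da384_an

/-- length of an arc of a unit speed curve -/
lemma eVariationOn_unit_speed {g T : ℝ → ℂ} (hg : ∀ s, HasDerivAt g (T s) s)
    (hT : Continuous T) (hT1 : ∀ s, ‖T s‖ = 1) {a b : ℝ} (hab : a ≤ b) :
    eVariationOn g (Icc a b) = ENNReal.ofReal (b - a) := by
  apply le_antisymm
  · have hlip : LipschitzOnWith 1 g (Icc a b) :=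
      (convex_Icc a b).lipschitzOnWith_of_nnnorm_hasDerivWithin_le
        (fun x _ => (hg x).hasDerivWithinAt) (fun x _ => by
          rw [← NNReal.coe_le_coe, coe_nnnorm, hT1]; simp)
    have h1 := hlip.comp_eVariationOn_le (g := (id : ℝ → ℝ)) (s := Icc a b)
      (fun x hx => hx)
    simp only [Function.comp_id, ENNReal.coe_one, one_mul] at h1
    refine h1.trans ?_
    have h2 := (monotone_id (α := ℝ)).monotoneOn (Icc a b) |>.eVariationOn_eq
      (left_mem_Icc.2 hab) (right_mem_Icc.2 hab)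
    rw [inter_self] at h2
    exact h2.le
  · have key : ∀ ε : ℝ, 0 < ε → ε < 1 →
        ENNReal.ofReal ((1 - ε) * (b - a)) ≤ eVariationOn g (Icc a b) := by
      intro ε hε hε1
      have huc := isCompact_Icc.uniformContinuousOn_of_continuous (s := Icc a b) hT.continuousOn
      rw [Metric.uniformContinuousOn_iff] at huc
      obtain ⟨δ, hδ, hδT⟩ := huc ε hε
      obtain ⟨N, hN⟩ := exists_nat_gt ((b - a) / δ)
      have hN0 : 0 < (N : ℝ) := lt_of_le_of_lt (div_nonneg (by linarith) hδ.le) hN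
      have hstep : (b - a) / N < δ := by
        rw [div_lt_iff₀ hN0]; rw [div_lt_iff₀ hδ] at hN; linarith
      have hstep0 : 0 ≤ (b - a) / N := div_nonneg (by linarith) hN0.le
      let u : ℕ → ℝ := fun i => a + i * ((b - a) / N)
      have hu : Monotone u := by
        intro i j hij
        have : (i : ℝ) ≤ j := by exact_mod_cast hij
        simp only [u]
        nlinarith
      have hus : ∀ i ≤ N, u i ∈ Icc a b := by
        intro i hi
        have h1 : (i : ℝ) ≤ N := by exact_mod_cast hi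
        have h0 : (0:ℝ) ≤ i := Nat.cast_nonneg _
        refine ⟨by simp only [u]; nlinarith, ?_⟩
        have h3 : (i : ℝ) * ((b - a) / N) ≤ N * ((b - a) / N) := by gcongr
        have h4 : (N : ℝ) * ((b - a) / N) = b - a := by field_simp
        simp only [u]; linarith
      have hsum := eVariationOn.sum_le_of_monotoneOn_Iic (f := g) (s := Icc a b) (n := N) (u := u)
        (hu.monotoneOn _) hus
      refine le_trans ?_ hsum
      have hterm : ∀ i ∈ Finset.range N, ENNReal.ofReal ((1 - ε) * ((b - a) / N)) ≤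
          edist (g (u (i + 1))) (g (u i)) := by
        intro i hi
        rw [Finset.mem_range] at hi
        have hui := hus i hi.le
        have hui1 := hus (i + 1) hi
        have hdiff : u (i + 1) - u i = (b - a) / N := by simp only [u]; push_cast; ring
        rw [edist_dist, dist_eq_norm]
        apply ENNReal.ofReal_le_ofReal
        have hmv := Convex.norm_image_sub_le_of_norm_hasDerivWithin_le
          (f := fun t : ℝ => g t - t • T (u i)) (f' := fun t => T t - T (u i))
          (s := Icc (u i) (u (i + 1))) (C := ε) (x := u i) (y := u (i + 1))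
          (fun t _ => by
            have h1 : HasDerivAt (fun t : ℝ => t • T (u i)) ((1:ℝ) • T (u i)) t :=
              (hasDerivAt_id t).smul_const (T (u i))
            rw [one_smul] at h1
            exact ((hg t).sub h1).hasDerivWithinAt)
          (fun t ht => by
            have h1 := hδT t ⟨hui.1.trans ht.1, ht.2.trans hui1.2⟩ (u i) hui (by
              rw [Real.dist_eq, abs_of_nonneg (by linarith [ht.1])]
              linarith [ht.2])
            rw [dist_eq_norm] at h1
            exact h1.le)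
          (convex_Icc _ _) (left_mem_Icc.2 (by linarith)) (right_mem_Icc.2 (by linarith))
        have e : g (u (i + 1)) - u (i + 1) • T (u i) - (g (u i) - u i • T (u i)) =
            (g (u (i + 1)) - g (u i)) - (u (i + 1) - u i) • T (u i) := by
          rw [sub_smul]; ring
        rw [e, hdiff, Real.norm_of_nonneg hstep0] at hmv
        have h2 : ‖((b - a) / N) • T (u i)‖ = (b - a) / N := by
          rw [norm_smul, hT1, mul_one, Real.norm_of_nonneg hstep0]
        have h3 : ‖((b - a) / N) • T (u i)‖ ≤ ‖g (u (i + 1)) - g (u i)‖ +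
            ‖(g (u (i + 1)) - g (u i)) - ((b - a) / N) • T (u i)‖ := by
          have := norm_sub_le (g (u (i + 1)) - g (u i))
            ((g (u (i + 1)) - g (u i)) - ((b - a) / N) • T (u i))
          simpa using this
        rw [h2] at h3
        linarith
      refine le_trans (le_of_eq ?_) (Finset.sum_le_sum hterm)
      rw [Finset.sum_const, Finset.card_range, nsmul_eq_mul,
        ← ENNReal.ofReal_natCast, ← ENNReal.ofReal_mul (Nat.cast_nonneg _)]
      congr 1
      field_simp
    have hlim : Filter.Tendsto (fun ε : ℝ => ENNReal.ofReal ((1 - ε) * (b - a)))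
        (nhdsWithin 0 (Ioo 0 1)) (nhds (ENNReal.ofReal (b - a))) := by
      have h1 : Continuous fun ε : ℝ => ENNReal.ofReal ((1 - ε) * (b - a)) :=
        ENNReal.continuous_ofReal.comp (by fun_prop)
      have h2 := (h1.tendsto 0).mono_left (nhdsWithin_le_nhds (s := Ioo 0 1))
      simpa using h2
    have hne : (nhdsWithin (0:ℝ) (Ioo 0 1)).NeBot := by
      apply mem_closure_iff_nhdsWithin_neBot.1
      rw [closure_Ioo zero_ne_one]; simp
    refine le_of_tendsto hlim ?_
    filter_upwards [self_mem_nhdsWithin] with ε hε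
    exact key ε hε.1 hε.2

namespace CC

variable (C : CC)

lemma conj_expI (x : ℝ) : conj (exp (x * I)) = exp (-(x * I)) := by
  rw [← exp_conj]; simp

lemma im_exp_mul (a b : ℝ) : (exp (a * I) * exp (-(b * I))).im = Real.sin (a - b) := by
  rw [exp_mul_exp_neg, exp_ofReal_mul_I_im]

/-- the arc facing `P` is on the side of `P` of the chord -/
lemma chord_le {s t a b : ℝ} (hst : s < t) (hb : 0 < b)
    (hφ : C.ψ t - C.ψ s < Real.pi)
    (hd : C.c t - C.c s = a * exp (C.ψ s * I) + b * exp (C.ψ t * I))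
    {u : ℝ} (hu : u ∈ Icc s t) :
    ((C.c u - C.c s) * conj (C.c t - C.c s)).im ≤ 0 := by
  by_contra hcon
  push Not at hcon
  set d := C.c t - C.c s with hdd
  have hcont : Continuous fun u => ((C.c u - C.c s) * conj d).im := by
    have := C.c_cont
    fun_prop
  obtain ⟨w, hw, hmax⟩ := isCompact_Icc.exists_isMaxOn (nonempty_Icc.2 hst.le) hcont.continuousOn
  have hwpos : 0 < ((C.c w - C.c s) * conj d).im := lt_of_lt_of_le hcon (hmax hu)
  have hws : w ≠ s := by
    rintro rfl; simp at hwpos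
  have hwt : w ≠ t := by
    rintro rfl
    rw [← hdd, mul_conj, ofReal_im] at hwpos
    exact lt_irrefl _ hwpos
  have hw' : w ∈ Ioo s t := ⟨lt_of_le_of_ne hw.1 hws.symm, lt_of_le_of_ne hw.2 hwt⟩
  have hloc : IsLocalMax (fun u => ((C.c u - C.c s) * conj d).im) w :=
    hmax.isLocalMax (Icc_mem_nhds hw'.1 hw'.2)
  have hder : HasDerivAt (fun u => ((C.c u - C.c s) * conj d).im)
      (((C.σ w * exp (C.ψ w * I)) * conj d).im) w := by
    have h1 : HasDerivAt (fun u => (C.c u - C.c s) * conj d)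
        ((C.σ w * exp (C.ψ w * I)) * conj d) w := ((C.hc w).sub_const _).mul_const _
    exact imCLM.hasFDerivAt.comp_hasDerivAt w h1
  have h0 := hloc.hasDerivAt_eq_zero hder
  rw [mul_assoc, im_ofReal_mul] at h0
  have h1 : (exp (C.ψ w * I) * conj d).im = 0 := by
    rcases mul_eq_zero.1 h0 with h | h
    · exact absurd h (C.hσ w).ne'
    · exact h
  -- expand `d`
  have e1 : (exp (C.ψ w * I) * conj d).im =
      a * Real.sin (C.ψ w - C.ψ s) + b * Real.sin (C.ψ w - C.ψ t) := by
    rw [hd, map_add, map_mul, map_mul, conj_ofReal, conj_ofReal, conj_expI, conj_expI]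
    have : exp (C.ψ w * I) * (a * exp (-(C.ψ s * I)) + b * exp (-(C.ψ t * I))) =
      a * (exp (C.ψ w * I) * exp (-(C.ψ s * I))) + b * (exp (C.ψ w * I) * exp (-(C.ψ t * I))) := by
      ring
    rw [this, add_im, im_ofReal_mul, im_ofReal_mul, im_exp_mul, im_exp_mul]
  rw [e1] at h1
  -- `F w (c s) ≥ 0` in terms of `d`
  have hm1 := C.ψ_strictMono hw'.1
  have hm2 := C.ψ_strictMono hw'.2
  -- `exp (ψ w) = r d` with `r > 0`
  have hsin1 : 0 < Real.sin (C.ψ w - C.ψ s) :=
    Real.sin_pos_of_pos_of_lt_pi (by linarith) (by linarith)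
  have hsin3 : 0 < Real.sin (C.ψ t - C.ψ s) :=
    Real.sin_pos_of_pos_of_lt_pi (by linarith) hφ
  have e2 : (Real.sin (C.ψ w - C.ψ s) : ℂ) * d = (b * Real.sin (C.ψ t - C.ψ s) : ℝ) *
      exp (C.ψ w * I) := by
    have h2 : a * Real.sin (C.ψ w - C.ψ s) = b * Real.sin (C.ψ t - C.ψ w) := by
      have : Real.sin (C.ψ w - C.ψ t) = -Real.sin (C.ψ t - C.ψ w) := by
        rw [← Real.sin_neg]; congr 1; ring
      rw [this] at h1; linarith
    have h3 : (Real.sin (C.ψ w - C.ψ s) : ℂ) * d = ((a * Real.sin (C.ψ w - C.ψ s) : ℝ) : ℂ) *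
        exp (C.ψ s * I) + ((b * Real.sin (C.ψ w - C.ψ s) : ℝ) : ℂ) * exp (C.ψ t * I) := by
      rw [hd]; push_cast; ring
    rw [h3, h2]
    have hss := Real.sin_sub (C.ψ t) (C.ψ w)
    have hss2 := Real.sin_sub (C.ψ w) (C.ψ s)
    have hss3 := Real.sin_sub (C.ψ t) (C.ψ s)
    apply Complex.ext
    · simp only [add_re, re_ofReal_mul, exp_ofReal_mul_I_re]
      rw [hss, hss2, hss3]
      have := Real.sin_sq_add_cos_sq (C.ψ w)
      nlinarith [Real.sin_sq_add_cos_sq (C.ψ w), Real.sin_sq_add_cos_sq (C.ψ s),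
        Real.sin_sq_add_cos_sq (C.ψ t)]
    · simp only [add_im, im_ofReal_mul, exp_ofReal_mul_I_im]
      rw [hss, hss2, hss3]
      nlinarith [Real.sin_sq_add_cos_sq (C.ψ w), Real.sin_sq_add_cos_sq (C.ψ s),
        Real.sin_sq_add_cos_sq (C.ψ t)]
  have h5 := C.F_nonneg w s
  rw [F] at h5
  have e3 : (Real.sin (C.ψ w - C.ψ s)) * ((C.c w - C.c s) * conj d).im =
      -((b * Real.sin (C.ψ t - C.ψ s)) * ((C.c s - C.c w) * exp (-(C.ψ w * I))).im) := by
    rw [← im_ofReal_mul, ← im_ofReal_mul, ← neg_im]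
    congr 1
    have h6 := congrArg conj e2
    rw [map_mul, map_mul, conj_ofReal, conj_ofReal, conj_expI] at h6
    calc (Real.sin (C.ψ w - C.ψ s) : ℂ) * ((C.c w - C.c s) * conj d)
        = (C.c w - C.c s) * ((Real.sin (C.ψ w - C.ψ s) : ℂ) * conj d) := by ring
      _ = (C.c w - C.c s) * (((b * Real.sin (C.ψ t - C.ψ s) : ℝ) : ℂ) * exp (-(C.ψ w * I))) := by
          rw [h6]
      _ = _ := by ring
  have h7 : 0 < Real.sin (C.ψ w - C.ψ s) * ((C.c w - C.c s) * conj d).im := by positivity
  rw [e3] at h7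
  have h8 : 0 ≤ (b * Real.sin (C.ψ t - C.ψ s)) * ((C.c s - C.c w) * exp (-(C.ψ w * I))).im := by
    positivity
  linarith

/-- decomposition of `X` along two directions -/
lemma cross_decomp (X : ℂ) (p q : ℝ) :
    (Real.sin (q - p) : ℂ) * X = ((-(X * exp (-(q * I))).im : ℝ) : ℂ) * exp (p * I) +
      (((X * exp (-(p * I))).im : ℝ) : ℂ) * exp (q * I) := by
  have h1 : ∀ r : ℝ, (X * exp (-(r * I))).im = X.im * Real.cos r - X.re * Real.sin r := by
    intro r
    rw [← conj_expI, mul_im, conj_re, conj_im, exp_ofReal_mul_I_re, exp_ofReal_mul_I_im]; ring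
  rw [h1, h1, Real.sin_sub]
  apply Complex.ext
  · simp only [add_re, re_ofReal_mul, exp_ofReal_mul_I_re]; ring
  · simp only [add_im, im_ofReal_mul, exp_ofReal_mul_I_im]; ring

/-- the arc facing `P` lies in the triangle -/
lemma arc_in_triangle {s t a b : ℝ} (hst : s < t) (ha : 0 < a) (hb : 0 < b)
    (hφ : C.ψ t - C.ψ s < Real.pi) {P : ℂ}
    (hP1 : P = C.c s + a * exp (C.ψ s * I)) (hP2 : P = C.c t - b * exp (C.ψ t * I))
    {u : ℝ} (hu : u ∈ Icc s t) : C.c u ∈ convexHull ℝ {P, C.c s, C.c t} := by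
  have hd : C.c t - C.c s = a * exp (C.ψ s * I) + b * exp (C.ψ t * I) := by
    have : C.c t = P + b * exp (C.ψ t * I) := by rw [hP2]; ring
    rw [this, hP1]; ring
  have hS : 0 < Real.sin (C.ψ t - C.ψ s) :=
    Real.sin_pos_of_pos_of_lt_pi (by linarith [C.ψ_strictMono hst]) hφ
  set S := Real.sin (C.ψ t - C.ψ s) with hSdef
  set fs := C.F s (C.c u) with hfs
  set ft := C.F t (C.c u) with hft
  have hfs0 : 0 ≤ fs := C.F_nonneg _ _
  have hft0 : 0 ≤ ft := C.F_nonneg _ _
  have hX := cross_decomp (C.c u - C.c s) (C.ψ s) (C.ψ t)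
  have e1 : ((C.c u - C.c s) * exp (-(C.ψ s * I))).im = fs := rfl
  have e2 : ((C.c u - C.c s) * exp (-(C.ψ t * I))).im = ft - a * S := by
    have h1 : (C.c u - C.c s) * exp (-(C.ψ t * I)) = (C.c u - C.c t) * exp (-(C.ψ t * I)) +
        (a * (exp (C.ψ s * I) * exp (-(C.ψ t * I))) + b * (exp (C.ψ t * I) * exp (-(C.ψ t * I)))) := by
      have : C.c u - C.c s = (C.c u - C.c t) + (C.c t - C.c s) := by ring
      rw [this, hd]; ring
    rw [h1, add_im, add_im, im_ofReal_mul, im_ofReal_mul, im_exp_mul, im_exp_mul, sub_self,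
      Real.sin_zero, mul_zero, add_zero]
    have h2 : Real.sin (C.ψ s - C.ψ t) = -S := by rw [hSdef, ← Real.sin_neg]; congr 1; ring
    rw [h2, hft, F]; ring
  rw [e1, e2] at hX
  have hchord := C.chord_le hst hb hφ hd hu
  -- compute the chord quantity
  have e3 : S * ((C.c u - C.c s) * conj (C.c t - C.c s)).im =
      S * (a * fs - b * (a * S - ft)) := by
    rw [← im_ofReal_mul, ← mul_assoc, hX, hd, map_add, map_mul, map_mul, conj_ofReal, conj_ofReal,
      conj_expI, conj_expI]
    have h1 : (((-(ft - a * S) : ℝ) : ℂ) * exp (C.ψ s * I) + (fs : ℂ) * exp (C.ψ t * I)) *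
        (a * exp (-(C.ψ s * I)) + b * exp (-(C.ψ t * I))) =
        ((-(ft - a * S) * a : ℝ) : ℂ) * (exp (C.ψ s * I) * exp (-(C.ψ s * I))) +
        ((-(ft - a * S) * b : ℝ) : ℂ) * (exp (C.ψ s * I) * exp (-(C.ψ t * I))) +
        ((fs * a : ℝ) : ℂ) * (exp (C.ψ t * I) * exp (-(C.ψ s * I))) +
        ((fs * b : ℝ) : ℂ) * (exp (C.ψ t * I) * exp (-(C.ψ t * I))) := by
      push_cast; ring
    rw [h1, add_im, add_im, add_im, im_ofReal_mul, im_ofReal_mul, im_ofReal_mul, im_ofReal_mul,
      im_exp_mul, im_exp_mul, im_exp_mul, im_exp_mul, sub_self, sub_self, Real.sin_zero]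
    have h2 : Real.sin (C.ψ s - C.ψ t) = -S := by rw [hSdef, ← Real.sin_neg]; congr 1; ring
    rw [h2, ← hSdef]; ring
  have h4 : a * fs - b * (a * S - ft) ≤ 0 := by
    have h5 : S * (a * fs - b * (a * S - ft)) ≤ 0 := by
      rw [← e3]; exact mul_nonpos_of_nonneg_of_nonpos hS.le hchord
    by_contra h6
    push Not at h6
    have := mul_pos hS h6
    linarith
  set ws : ℝ := ft / (a * S) with hws
  set wt : ℝ := fs / (b * S) with hwt
  have hws0 : 0 ≤ ws := by positivity
  have hwt0 : 0 ≤ wt := by positivity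
  have hsum : ws + wt ≤ 1 := by
    rw [hws, hwt, div_add_div _ _ (by positivity) (by positivity), div_le_one (by positivity)]
    nlinarith
  have hcomb : C.c u = ((1 - ws - wt : ℝ) : ℂ) * P + ((ws : ℝ) : ℂ) * C.c s +
      ((wt : ℝ) : ℂ) * C.c t := by
    have hSc : (S : ℂ) ≠ 0 := by exact_mod_cast hS.ne'
    have hac : (a : ℂ) ≠ 0 := by exact_mod_cast ha.ne'
    have hbc : (b : ℂ) ≠ 0 := by exact_mod_cast hb.ne'
    have h1 : C.c t = P + b * exp (C.ψ t * I) := by rw [hP2]; ring
    have h2 : C.c u = C.c s + (S : ℂ)⁻¹ * ((((-(ft - a * S) : ℝ) : ℂ) * exp (C.ψ s * I) +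
        (fs : ℂ) * exp (C.ψ t * I))) := by
      rw [← hX, ← mul_assoc, inv_mul_cancel₀ hSc, one_mul]; ring
    rw [h1, h2, hP1, hws, hwt]
    push_cast
    field_simp
    ring
  have hmem := (convex_convexHull ℝ ({P, C.c s, C.c t} : Set ℂ)).sum_mem
    (t := (Finset.univ : Finset (Fin 3))) (w := ![1 - ws - wt, ws, wt]) (z := ![P, C.c s, C.c t])
    (by intro i _; fin_cases i <;> simp <;> linarith)
    (by simp [Fin.sum_univ_three]; ring)
    (by
      intro i _
      apply subset_convexHull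
      fin_cases i <;> simp)
  rw [Fin.sum_univ_three] at hmem
  rw [hcomb]
  simpa [real_smul] using hmem

end CC

end Pool.Agent.Work.MP_5da384_an
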