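import Pool.Agent.Work.MP_5da384_an.Geo2

set_option autoImplicit false

open Set Complex
open scoped ComplexConjugate ENNReal NNReal

namespace Pool.Agent.Work.MP_5da384_an

namespace BilliardData

variable (D : BilliardData)

/-- tangent angle of the caustic -/
noncomputable def θ (s : ℝ) : ℝ := ∫ u in (0:ℝ)..s, D.κ u

/-- tangent angle difference between `s` and `s + L` -/
noncomputable def φ (s : ℝ) : ℝ := D.θ (s + D.L) - D.θ s

lemma hasDerivAt_θ (s : ℝ) : HasDerivAt D.θ (D.κ s) s :=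
  intervalIntegral.integral_hasDerivAt_right (D.hκc.intervalIntegrable _ _)
    (D.hκc.stronglyMeasurableAtFilter _ _) D.hκc.continuousAt

lemma θ_cont : Continuous D.θ :=
  continuous_iff_continuousAt.2 fun s => (D.hasDerivAt_θ s).continuousAt

lemma φ_eq (s : ℝ) : D.φ s = ∫ u in s..(s + D.L), D.κ u := by
  rw [φ, θ, θ, intervalIntegral.integral_interval_sub_left (D.hκc.intervalIntegrable _ _)
    (D.hκc.intervalIntegrable _ _)]

lemma φ_mem (s : ℝ) : D.φ s ∈ Ioo 0 Real.pi := by rw [φ_eq]; exact D.hphi s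

lemma m_pos : (0:ℝ) < D.m := by
  have := D.hm
  exact_mod_cast (by omega : 0 < D.m)

lemma κ_periodic : Function.Periodic D.κ D.Lam := D.hκper

lemma θ_per (s : ℝ) : D.θ (s + D.Lam) = D.θ s + 2 * Real.pi / D.m := by
  have h1 : D.θ (s + D.Lam) - D.θ s = ∫ u in s..(s + D.Lam), D.κ u := by
    rw [θ, θ, intervalIntegral.integral_interval_sub_left (D.hκc.intervalIntegrable _ _)
      (D.hκc.intervalIntegrable _ _)]
  have h2 := D.κ_periodic.intervalIntegral_add_eq s 0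
  rw [zero_add, D.hκint] at h2
  rw [h2] at h1
  linarith

lemma θ_per_nat (s : ℝ) (j : ℕ) : D.θ (s + j * D.Lam) = D.θ s + j * (2 * Real.pi / D.m) := by
  induction j with
  | zero => simp
  | succ j ih =>
    have : s + ((j + 1 : ℕ) : ℝ) * D.Lam = (s + j * D.Lam) + D.Lam := by push_cast; ring
    rw [this, θ_per, ih]; push_cast; ring

lemma θ_per_int (s : ℝ) (j : ℤ) : D.θ (s + j * D.Lam) = D.θ s + j * (2 * Real.pi / D.m) := by
  obtain ⟨n, rfl | rfl⟩ := j.eq_nat_or_neg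
  · exact_mod_cast D.θ_per_nat s n
  · have h := D.θ_per_nat (s + ((-(n : ℤ) : ℤ) : ℝ) * D.Lam) n
    have e : s + ((-(n : ℤ) : ℤ) : ℝ) * D.Lam + n * D.Lam = s := by push_cast; ring
    rw [e] at h
    push_cast at h ⊢
    linarith

/-- unit tangent -/
noncomputable def T (s : ℝ) : ℂ := exp (D.θ s * I)

/-- the rotation -/
noncomputable def ζ : ℂ := exp ((2 * Real.pi / D.m : ℝ) * I)

lemma T_per (s : ℝ) : D.T (s + D.Lam) = D.ζ * D.T s := by
  rw [T, T, ζ, θ_per, ← Complex.exp_add]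
  congr 1; push_cast; ring

lemma ζ_pow : D.ζ ^ D.m = 1 := by
  rw [ζ, ← Complex.exp_nat_mul]
  have hm := D.m_pos
  have : (D.m : ℂ) * (((2 * Real.pi / D.m : ℝ) : ℂ) * I) = 2 * Real.pi * I := by
    have hm' : (D.m : ℂ) ≠ 0 := by exact_mod_cast hm.ne'
    push_cast
    field_simp
  rw [this, Complex.exp_two_pi_mul_I]

lemma ζ_ne_one : D.ζ ≠ 1 := by
  have hm := D.m_pos
  intro h
  rw [ζ, Complex.exp_eq_one_iff] at h
  obtain ⟨n, hn⟩ := h
  have h1 : ((2 * Real.pi / D.m : ℝ) : ℂ) * I = ((n * (2 * Real.pi) : ℝ) : ℂ) * I := by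
    rw [hn]; push_cast; ring
  have h2 := mul_right_cancel₀ I_ne_zero h1
  have h3 : 2 * Real.pi / D.m = n * (2 * Real.pi) := by exact_mod_cast h2
  have hpi := Real.pi_pos
  have h4 : (1 : ℝ) = n * D.m := by
    field_simp at h3
    linarith
  have h5 : (1 : ℤ) = n * D.m := by exact_mod_cast h4
  have h6 : (2 : ℤ) ≤ D.m := by exact_mod_cast D.hm
  have h7 : 0 < n := by
    by_contra hcon
    push Not at hcon
    nlinarith
  nlinarith

lemma T_cont : Continuous D.T := by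
  have := D.θ_cont
  unfold T
  fun_prop

lemma norm_T (s : ℝ) : ‖D.T s‖ = 1 := norm_exp_ofReal_mul_I _

lemma hasDerivAt_T (s : ℝ) : HasDerivAt D.T (D.κ s * I * D.T s) s := by
  have h := ((D.hasDerivAt_θ s).ofReal_comp.mul_const I).cexp
  refine h.congr_deriv ?_
  simp only [T]; ring

/-- base point -/
noncomputable def γ0 : ℂ := (∫ u in (0:ℝ)..D.Lam, D.T u) / (D.ζ - 1)

/-- the caustic -/
noncomputable def γ (s : ℝ) : ℂ := D.γ0 + ∫ u in (0:ℝ)..s, D.T u

lemma hasDerivAt_γ (s : ℝ) : HasDerivAt D.γ (D.T s) s :=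
  (intervalIntegral.integral_hasDerivAt_right (D.T_cont.intervalIntegrable _ _)
    (D.T_cont.stronglyMeasurableAtFilter _ _) D.T_cont.continuousAt).const_add _

/-- a function with zero derivative is constant -/
lemma const_of_deriv {f : ℝ → ℂ} (hf : ∀ s, HasDerivAt f 0 s) (s t : ℝ) : f s = f t :=
  is_const_of_deriv_eq_zero (fun s => (hf s).differentiableAt) (fun s => (hf s).deriv) s t

lemma γ_per (s : ℝ) : D.γ (s + D.Lam) = D.ζ * D.γ s := by
  have hd : ∀ s, HasDerivAt (fun s => D.γ (s + D.Lam) - D.ζ * D.γ s) 0 s := by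
    intro s
    have h1 : HasDerivAt (fun s => D.γ (s + D.Lam)) (D.T (s + D.Lam)) s :=
      (D.hasDerivAt_γ (s + D.Lam)).comp_add_const s D.Lam
    have h2 := h1.sub ((D.hasDerivAt_γ s).const_mul D.ζ)
    rw [T_per, sub_self] at h2
    exact h2
  have h := const_of_deriv hd s 0
  have h0 : D.γ (0 + D.Lam) - D.ζ * D.γ 0 = 0 := by
    rw [zero_add, γ, γ, intervalIntegral.integral_same, γ0]
    have := sub_ne_zero.2 D.ζ_ne_one
    field_simp
    ring
  rw [h0] at h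
  exact sub_eq_zero.1 h

lemma per_nat {f : ℝ → ℂ} (hf : ∀ s, f (s + D.Lam) = D.ζ * f s) (s : ℝ) (j : ℕ) :
    f (s + j * D.Lam) = D.ζ ^ j * f s := by
  induction j with
  | zero => simp
  | succ j ih =>
    have : s + ((j + 1 : ℕ) : ℝ) * D.Lam = (s + j * D.Lam) + D.Lam := by push_cast; ring
    rw [this, hf, ih]; ring

lemma per_m {f : ℝ → ℂ} (hf : ∀ s, f (s + D.Lam) = D.ζ * f s) (s : ℝ) :
    f (s + D.m * D.Lam) = f s := by
  rw [D.per_nat hf, D.ζ_pow, one_mul]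

lemma θ_per_m (s : ℝ) : D.θ (s + D.m * D.Lam) = D.θ s + 2 * Real.pi := by
  rw [θ_per_nat]
  have := D.m_pos
  field_simp

/-- the caustic as a convex curve -/
noncomputable def Cγ : CC where
  c := D.γ
  σ := fun _ => 1
  ψ := D.θ
  ψ' := D.κ
  ℓ := D.m * D.Lam
  hℓ := mul_pos D.m_pos D.hLam
  hσc := continuous_const
  hσ := fun _ => one_pos
  hc := fun s => by simpa [T] using D.hasDerivAt_γ s
  hψ := D.hasDerivAt_θ
  hψ' := D.hκpos
  cper := D.per_m D.γ_per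
  ψper := D.θ_per_m

lemma h_pos : 0 < D.h := (abs_nonneg _).trans_lt (D.hx 0)

lemma a_pos (s : ℝ) : 0 < D.h + D.x s := by linarith [(abs_lt.1 (D.hx s)).1]

lemma b_pos (s : ℝ) : 0 < D.h - D.x s := by linarith [(abs_lt.1 (D.hx s)).2]

lemma x_eq (s : ℝ) : D.x s = D.h * (D.κ (s + D.L) - D.κ s) / (D.κ (s + D.L) + D.κ s) := by
  have h1 := D.h1 s
  have h2 := D.hκpos s
  have h3 := D.hκpos (s + D.L)
  field_simp
  linarith

lemma x_per (s : ℝ) : D.x (s + D.Lam) = D.x s := by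
  rw [D.x_eq, D.x_eq s]
  have : s + D.Lam + D.L = s + D.L + D.Lam := by ring
  rw [this, D.hκper, D.hκper]

lemma x_cont : Continuous D.x :=
  continuous_iff_continuousAt.2 fun s => (D.h2 s).continuousAt

lemma φ_per (s : ℝ) : D.φ (s + D.Lam) = D.φ s := by
  rw [φ, φ]
  have : s + D.Lam + D.L = s + D.L + D.Lam := by ring
  rw [this, θ_per, θ_per]; ring

lemma sin_pos (s : ℝ) : 0 < Real.sin (D.φ s / 2) := by
  have := D.φ_mem s
  apply Real.sin_pos_of_pos_of_lt_pi <;> linarith [this.1, this.2]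

lemma cos_pos (s : ℝ) : 0 < Real.cos (D.φ s / 2) := by
  have := D.φ_mem s
  apply Real.cos_pos_of_mem_Ioo
  constructor <;> linarith [this.1, this.2]

/-- bisector angle -/
noncomputable def ψ (s : ℝ) : ℝ := (D.θ s + D.θ (s + D.L)) / 2

lemma ψ_eq (s : ℝ) : D.ψ s = D.θ s + D.φ s / 2 := by rw [ψ, φ]; ring

lemma ψ_eq' (s : ℝ) : D.ψ s = D.θ (s + D.L) - D.φ s / 2 := by rw [ψ, φ]; ring

lemma T_eq (s : ℝ) : D.T s = exp (D.ψ s * I) * exp (-((D.φ s / 2 : ℝ) * I)) := by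
  rw [T, ψ_eq, ← Complex.exp_add]; congr 1; push_cast; ring

lemma T_eq' (s : ℝ) : D.T (s + D.L) = exp (D.ψ s * I) * exp ((D.φ s / 2 : ℝ) * I) := by
  rw [T, ψ_eq', ← Complex.exp_add]; congr 1; push_cast; ring

/-- speed factor -/
noncomputable def w (s : ℝ) : ℝ := (D.h + D.x s) * D.κ s

lemma w_pos (s : ℝ) : 0 < D.w s := mul_pos (D.a_pos s) (D.hκpos s)

/-- the table -/
noncomputable def P (s : ℝ) : ℂ := D.γ s + (D.h + D.x s : ℝ) * D.T s

lemma P_per (s : ℝ) : D.P (s + D.Lam) = D.ζ * D.P s := by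
  rw [P, P, γ_per, x_per, T_per]; ring

lemma exp_half (y : ℝ) : exp ((y : ℂ) * I) = (Real.cos y : ℂ) + Real.sin y * I := by
  rw [Complex.exp_mul_I, ofReal_cos, ofReal_sin]

lemma exp_half' (y : ℝ) : exp (-((y : ℂ) * I)) = (Real.cos y : ℂ) - Real.sin y * I := by
  have := exp_half (-y)
  push_cast at this
  rw [neg_mul] at this
  rw [this, Complex.cos_neg, Complex.sin_neg, ofReal_cos, ofReal_sin]; ring

lemma h2' (s : ℝ) : HasDerivAt D.x (D.w s * (Real.cos (D.φ s / 2) / Real.sin (D.φ s / 2)) - 1) s := by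
  have := D.h2 s
  rw [← D.φ_eq] at this
  exact this

lemma hasDerivAt_P (s : ℝ) :
    HasDerivAt D.P (((D.w s / Real.sin (D.φ s / 2) : ℝ) : ℂ) * exp (D.ψ s * I)) s := by
  have h1 : HasDerivAt (fun s => ((D.h + D.x s : ℝ) : ℂ))
      ((D.w s * (Real.cos (D.φ s / 2) / Real.sin (D.φ s / 2)) - 1 : ℝ) : ℂ) s :=
    ((D.h2' s).const_add D.h).ofReal_comp
  have h2 := (D.hasDerivAt_γ s).add (h1.mul (D.hasDerivAt_T s))
  refine h2.congr_deriv ?_
  rw [T_eq, exp_half', w]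
  have hs : ((Real.sin (D.φ s / 2) : ℝ) : ℂ) ≠ 0 := by exact_mod_cast (D.sin_pos s).ne'
  have hsc : ((Real.sin (D.φ s / 2) : ℝ) : ℂ) ^ 2 + ((Real.cos (D.φ s / 2) : ℝ) : ℂ) ^ 2 = 1 := by
    exact_mod_cast Real.sin_sq_add_cos_sq (D.φ s / 2)
  push_cast at hs hsc ⊢
  field_simp
  linear_combination ((D.h : ℂ) + D.x s) * D.κ s * hsc -
    ((D.h : ℂ) + D.x s) * D.κ s * Complex.sin (D.φ s / 2) ^ 2 * I_sq

end BilliardData

end Pool.Agent.Work.MP_5da384_an
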