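import Pool.Agent.Work.MP_5da384_an.Geo3

set_option autoImplicit false

open Set Complex
open scoped ComplexConjugate ENNReal NNReal

namespace Pool.Agent.Work.MP_5da384_an

namespace BilliardData

variable (D : BilliardData)

/-- the same point seen from the other tangency point -/
lemma P_eq (s : ℝ) : D.P s = D.γ (s + D.L) - ((D.h - D.x s : ℝ) : ℂ) * D.T (s + D.L) := by
  have hd : ∀ s, HasDerivAt (fun s => D.P s - (D.γ (s + D.L) -
      ((D.h - D.x s : ℝ) : ℂ) * D.T (s + D.L))) 0 s := by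
    intro s
    have h1 : HasDerivAt (fun s => ((D.h - D.x s : ℝ) : ℂ))
        ((-(D.w s * (Real.cos (D.φ s / 2) / Real.sin (D.φ s / 2)) - 1) : ℝ) : ℂ) s :=
      ((D.h2' s).const_sub D.h).ofReal_comp
    have h2 : HasDerivAt (fun s => D.γ (s + D.L)) (D.T (s + D.L)) s :=
      (D.hasDerivAt_γ (s + D.L)).comp_add_const s D.L
    have h3 : HasDerivAt (fun s => D.T (s + D.L)) (D.κ (s + D.L) * I * D.T (s + D.L)) s :=
      (D.hasDerivAt_T (s + D.L)).comp_add_const s D.L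
    have h4 := (D.hasDerivAt_P s).sub (h2.sub (h1.mul h3))
    refine h4.congr_deriv ?_
    rw [T_eq', exp_half (D.φ s / 2)]
    have hs : ((Real.sin (D.φ s / 2) : ℝ) : ℂ) ≠ 0 := by exact_mod_cast (D.sin_pos s).ne'
    have hsc : ((Real.sin (D.φ s / 2) : ℝ) : ℂ) ^ 2 + ((Real.cos (D.φ s / 2) : ℝ) : ℂ) ^ 2 = 1 := by
      exact_mod_cast Real.sin_sq_add_cos_sq (D.φ s / 2)
    have hw : ((D.h : ℂ) - D.x s) * D.κ (s + D.L) = D.w s := by
      rw [w]; exact_mod_cast (D.h1 s).symm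
    have e1 : ((D.h - D.x s : ℝ) : ℂ) * (D.κ (s + D.L) * I *
        (exp (D.ψ s * I) * (((Real.cos (D.φ s / 2) : ℝ) : ℂ) + ((Real.sin (D.φ s / 2) : ℝ) : ℂ) * I)))
        = (D.w s : ℂ) * I *
        (exp (D.ψ s * I) * (((Real.cos (D.φ s / 2) : ℝ) : ℂ) + ((Real.sin (D.φ s / 2) : ℝ) : ℂ) * I)) := by
      rw [← hw]; push_cast; ring
    rw [e1]
    push_cast at hs hsc ⊢
    field_simp
    linear_combination -(exp (D.ψ s * I)) * (D.w s : ℂ) * hsc +
      (exp (D.ψ s * I)) * (D.w s : ℂ) * Complex.sin (D.φ s / 2) ^ 2 * I_sq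
  have hconst := const_of_deriv hd
  have h1 := hconst s (s + D.Lam)
  have h2 : D.P (s + D.Lam) - (D.γ (s + D.Lam + D.L) -
      ((D.h - D.x (s + D.Lam) : ℝ) : ℂ) * D.T (s + D.Lam + D.L)) =
      D.ζ * (D.P s - (D.γ (s + D.L) - ((D.h - D.x s : ℝ) : ℂ) * D.T (s + D.L))) := by
    have e : s + D.Lam + D.L = s + D.L + D.Lam := by ring
    rw [e, P_per, γ_per, T_per, x_per]; ring
  rw [h2] at h1
  have h3 : (1 - D.ζ) * (D.P s - (D.γ (s + D.L) - ((D.h - D.x s : ℝ) : ℂ) * D.T (s + D.L))) = 0 := by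
    linear_combination h1
  rcases mul_eq_zero.1 h3 with h4 | h4
  · exact absurd (sub_eq_zero.1 h4).symm D.ζ_ne_one
  · exact sub_eq_zero.1 h4

lemma hasDerivAt_ψ (s : ℝ) : HasDerivAt D.ψ ((D.κ s + D.κ (s + D.L)) / 2) s := by
  have h2 : HasDerivAt (fun s => D.θ (s + D.L)) (D.κ (s + D.L)) s :=
    (D.hasDerivAt_θ (s + D.L)).comp_add_const s D.L
  exact ((D.hasDerivAt_θ s).add h2).div_const 2

lemma φ_cont : Continuous D.φ := by
  have := D.θ_cont
  unfold φ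
  fun_prop

/-- the table as a convex curve -/
noncomputable def CP : CC where
  c := D.P
  σ := fun s => D.w s / Real.sin (D.φ s / 2)
  ψ := D.ψ
  ψ' := fun s => (D.κ s + D.κ (s + D.L)) / 2
  ℓ := D.m * D.Lam
  hℓ := mul_pos D.m_pos D.hLam
  hσc := by
    have h1 := D.φ_cont
    have h2 := D.x_cont
    have h3 := D.hκc
    unfold w
    exact Continuous.div (by fun_prop) (by fun_prop) fun s => (D.sin_pos s).ne'
  hσ := fun s => div_pos (D.w_pos s) (D.sin_pos s)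
  hc := D.hasDerivAt_P
  hψ := D.hasDerivAt_ψ
  hψ' := fun s => by
    have := D.hκpos s
    have := D.hκpos (s + D.L)
    positivity
  cper := D.per_m D.P_per
  ψper := fun s => by
    have e : s + D.m * D.Lam + D.L = s + D.L + D.m * D.Lam := by ring
    rw [ψ, ψ, e, θ_per_m, θ_per_m]; ring

lemma Cγ_c : D.Cγ.c = D.γ := rfl
lemma CP_c : D.CP.c = D.P := rfl
lemma Cγ_ψ : D.Cγ.ψ = D.θ := rfl
lemma CP_ψ : D.CP.ψ = D.ψ := rfl
lemma Cγ_ℓ : D.Cγ.ℓ = D.m * D.Lam := rfl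

lemma Fγ_P (s : ℝ) : D.Cγ.F s (D.P s) = 0 := by
  rw [CC.F, Cγ_c, Cγ_ψ, P, T]
  have : (D.γ s + ((D.h + D.x s : ℝ) : ℂ) * exp (D.θ s * I) - D.γ s) * exp (-(D.θ s * I)) =
      ((D.h + D.x s : ℝ) : ℂ) := by
    rw [add_sub_cancel_left, mul_assoc, CC.exp_mul_exp_neg]; simp
  rw [this, ofReal_im]

lemma Fγ_P' (s : ℝ) : D.Cγ.F (s + D.L) (D.P s) = 0 := by
  rw [CC.F, Cγ_c, Cγ_ψ, P_eq, T]
  have : (D.γ (s + D.L) - ((D.h - D.x s : ℝ) : ℂ) * exp (D.θ (s + D.L) * I) - D.γ (s + D.L)) *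
      exp (-(D.θ (s + D.L) * I)) = ((-(D.h - D.x s) : ℝ) : ℂ) := by
    have e : (D.γ (s + D.L) - ((D.h - D.x s : ℝ) : ℂ) * exp (D.θ (s + D.L) * I) - D.γ (s + D.L)) *
      exp (-(D.θ (s + D.L) * I)) = -(((D.h - D.x s : ℝ) : ℂ) * (exp (D.θ (s + D.L) * I) *
      exp (-(D.θ (s + D.L) * I)))) := by ring
    rw [e, CC.exp_mul_exp_neg]; push_cast; simp
  rw [this, ofReal_im]

/-- the only tangent lines through `P s` are those at `s` and `s + L` -/
lemma Fγ_zero {s u : ℝ} (h : D.Cγ.F u (D.P s) = 0) :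
    D.γ u = D.γ s ∨ D.γ u = D.γ (s + D.L) := by
  by_contra hcon
  push Not at hcon
  obtain ⟨hne1, hne2⟩ := hcon
  -- strict positivity
  have hstrict : ∀ a b : ℝ, D.γ a ≠ D.γ b → 0 < D.Cγ.F a (D.γ b) := by
    intro a b hab
    refine lt_of_le_of_ne (D.Cγ.F_nonneg a b) fun h0 => ?_
    obtain ⟨k, hk⟩ := D.Cγ.eq_of_F_eq_zero h0.symm
    apply hab
    rw [hk]
    exact (D.Cγ.c_add_int a k).symm
  have p1 := hstrict s u hne1.symm
  have p2 := hstrict (s + D.L) u hne2.symm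
  have p3 := hstrict u s hne1
  have p4 := hstrict u (s + D.L) hne2
  -- express everything by angles
  set p := D.θ s with hp
  set q := D.θ (s + D.L) with hq
  set r := D.θ u with hr
  have hrec := D.Cγ.recon u (D.P s)
  rw [h, Cγ_c, Cγ_ψ, ← hr] at hrec
  simp only [ofReal_zero, zero_mul, add_zero] at hrec
  set ρ := D.Cγ.A u (D.P s) with hρ
  have ha := D.a_pos s
  have hb := D.b_pos s
  -- `γ u = P - ρ e^{i r}`, `γ s = P - a e^{i p}`, `γ (s+L) = P + b e^{i q}`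
  have g1 : D.γ s = D.P s - ((D.h + D.x s : ℝ) : ℂ) * exp (p * I) := by rw [P, T]; ring
  have g2 : D.γ (s + D.L) = D.P s + ((D.h - D.x s : ℝ) : ℂ) * exp (q * I) := by rw [P_eq, T]; ring
  have g3 : D.γ u = D.P s - (ρ : ℂ) * exp (r * I) := by rw [← hrec]; ring
  have q1 : D.Cγ.F s (D.γ u) = -(ρ * Real.sin (r - p)) := by
    rw [CC.F, Cγ_c, Cγ_ψ, g3, g1, ← hp]
    have : (D.P s - (ρ : ℂ) * exp (r * I) - (D.P s - ((D.h + D.x s : ℝ) : ℂ) * exp (p * I))) *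
        exp (-(p * I)) = ((D.h + D.x s : ℝ) : ℂ) * (exp (p * I) * exp (-(p * I))) -
        (ρ : ℂ) * (exp (r * I) * exp (-(p * I))) := by ring
    rw [this, sub_im, im_ofReal_mul, im_ofReal_mul, CC.im_exp_mul, CC.im_exp_mul, sub_self,
      Real.sin_zero]; ring
  have q2 : D.Cγ.F (s + D.L) (D.γ u) = -(ρ * Real.sin (r - q)) := by
    rw [CC.F, Cγ_c, Cγ_ψ, g3, g2, ← hq]
    have : (D.P s - (ρ : ℂ) * exp (r * I) - (D.P s + ((D.h - D.x s : ℝ) : ℂ) * exp (q * I))) *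
        exp (-(q * I)) = ((-(D.h - D.x s) : ℝ) : ℂ) * (exp (q * I) * exp (-(q * I))) -
        (ρ : ℂ) * (exp (r * I) * exp (-(q * I))) := by push_cast; ring
    rw [this, sub_im, im_ofReal_mul, im_ofReal_mul, CC.im_exp_mul, CC.im_exp_mul, sub_self,
      Real.sin_zero]; ring
  have q3 : D.Cγ.F u (D.γ s) = -((D.h + D.x s) * Real.sin (p - r)) := by
    rw [CC.F, Cγ_c, Cγ_ψ, g3, g1, ← hr]
    have : (D.P s - ((D.h + D.x s : ℝ) : ℂ) * exp (p * I) - (D.P s - (ρ : ℂ) * exp (r * I))) *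
        exp (-(r * I)) = (ρ : ℂ) * (exp (r * I) * exp (-(r * I))) -
        ((D.h + D.x s : ℝ) : ℂ) * (exp (p * I) * exp (-(r * I))) := by ring
    rw [this, sub_im, im_ofReal_mul, im_ofReal_mul, CC.im_exp_mul, CC.im_exp_mul, sub_self,
      Real.sin_zero]; ring
  have q4 : D.Cγ.F u (D.γ (s + D.L)) = (D.h - D.x s) * Real.sin (q - r) := by
    rw [CC.F, Cγ_c, Cγ_ψ, g3, g2, ← hr]
    have : (D.P s + ((D.h - D.x s : ℝ) : ℂ) * exp (q * I) - (D.P s - (ρ : ℂ) * exp (r * I))) *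
        exp (-(r * I)) = (ρ : ℂ) * (exp (r * I) * exp (-(r * I))) +
        ((D.h - D.x s : ℝ) : ℂ) * (exp (q * I) * exp (-(r * I))) := by ring
    rw [this, add_im, im_ofReal_mul, im_ofReal_mul, CC.im_exp_mul, CC.im_exp_mul, sub_self,
      Real.sin_zero]; ring
  rw [q1] at p1
  rw [q2] at p2
  rw [q3] at p3
  rw [q4] at p4
  have s1 : Real.sin (p - r) = -Real.sin (r - p) := by rw [← Real.sin_neg]; congr 1; ring
  have s2 : Real.sin (q - r) = -Real.sin (r - q) := by rw [← Real.sin_neg]; congr 1; ring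
  rw [s1] at p3
  rw [s2] at p4
  have t1 : 0 < Real.sin (r - p) := by
    by_contra hh
    push Not at hh
    nlinarith
  have t2 : Real.sin (r - q) < 0 := by
    by_contra hh
    push Not at hh
    nlinarith
  nlinarith

/-- the caustic is inside the table -/
lemma K_subset_U : D.Cγ.K ⊆ D.CP.U := by
  intro z hz s
  rw [CC.F, CP_c, CP_ψ]
  -- the two nonnegative quantities
  have f1 : D.Cγ.F s z = ((z - D.P s) * exp (-(D.θ s * I))).im := by
    have := D.Cγ.F_sub s z (D.P s)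
    rw [Fγ_P, sub_zero, Cγ_ψ] at this
    exact this
  have f2 : D.Cγ.F (s + D.L) z = ((z - D.P s) * exp (-(D.θ (s + D.L) * I))).im := by
    have := D.Cγ.F_sub (s + D.L) z (D.P s)
    rw [Fγ_P', sub_zero, Cγ_ψ] at this
    exact this
  have n1 : 0 ≤ D.Cγ.F s z := hz s
  have n2 : 0 ≤ D.Cγ.F (s + D.L) z := hz (s + D.L)
  -- sum
  have hsum : D.Cγ.F s z + D.Cγ.F (s + D.L) z =
      2 * Real.cos (D.φ s / 2) * ((z - D.P s) * exp (-(D.ψ s * I))).im := by
    rw [f1, f2, ← add_im, ← im_ofReal_mul]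
    congr 1
    have e1 : exp (-(D.θ s * I)) = exp (-(D.ψ s * I)) * exp ((D.φ s / 2 : ℝ) * I) := by
      rw [← Complex.exp_add, ψ_eq]; congr 1; push_cast; ring
    have e2 : exp (-(D.θ (s + D.L) * I)) = exp (-(D.ψ s * I)) * exp (-((D.φ s / 2 : ℝ) * I)) := by
      rw [← Complex.exp_add, ψ_eq']; congr 1; push_cast; ring
    rw [e1, e2, exp_half (D.φ s / 2), exp_half' (D.φ s / 2)]; push_cast; ring
  have hpos : 0 < D.Cγ.F s z + D.Cγ.F (s + D.L) z := by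
    by_contra hh
    push Not at hh
    have z1 : D.Cγ.F s z = 0 := by linarith
    have z2 : D.Cγ.F (s + D.L) z = 0 := by linarith
    have k1 := D.Cγ.eq_of_zero z1 hz
    have k2 := D.Cγ.eq_of_zero z2 hz
    rw [Cγ_c] at k1 k2
    -- `γ s = γ (s + L)`, but `0 < L < ℓ`
    have h3 : D.Cγ.F s (D.γ (s + D.L)) = 0 := by rw [← k2]; exact z1
    have h4 : 0 < D.Cγ.F s (D.γ (s + D.L)) :=
      D.Cγ.F_pos (by linarith [D.hL]) (by rw [Cγ_ℓ]; linarith [D.hL'])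
    linarith
  rw [hsum] at hpos
  have hc := D.cos_pos s
  by_contra hh
  push Not at hh
  have : 2 * Real.cos (D.φ s / 2) * ((z - D.P s) * exp (-(D.ψ s * I))).im ≤ 0 :=
    mul_nonpos_of_nonneg_of_nonpos (by positivity) hh
  linarith

end BilliardData

end Pool.Agent.Work.MP_5da384_an
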