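import Pool.Agent.Work.MP_5da384_an.Geo4

set_option autoImplicit false

open Set Complex
open scoped ComplexConjugate ENNReal NNReal

namespace Pool.Agent.Work.MP_5da384_an

namespace BilliardData

variable (D : BilliardData)

lemma T_per_int (s : ℝ) (k : ℤ) : D.T (s + k * (D.m * D.Lam)) = D.T s := by
  have hm := D.m_pos
  have e : s + k * (D.m * D.Lam) = s + ((k * D.m : ℤ) : ℝ) * D.Lam := by push_cast; ring
  rw [T, T, e, θ_per_int]
  have e2 : (((D.θ s + ((k * D.m : ℤ) : ℝ) * (2 * Real.pi / D.m) : ℝ) : ℂ)) * I =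
      D.θ s * I + k * (2 * Real.pi * I) := by
    have : ((k * D.m : ℤ) : ℝ) * (2 * Real.pi / D.m) = k * (2 * Real.pi) := by
      push_cast
      field_simp
    rw [this]; push_cast; ring
  rw [e2, Complex.exp_add, Complex.exp_int_mul_two_pi_mul_I, mul_one]

lemma T_of_γ {s u : ℝ} (h : D.γ u = D.γ s) : D.T u = D.T s := by
  have h0 : D.Cγ.F u (D.γ s) = 0 := by rw [← h]; exact D.Cγ.F_self u
  obtain ⟨k, hk⟩ := D.Cγ.eq_of_F_eq_zero h0
  rw [hk, Cγ_ℓ, T_per_int]

/-- tangent lines to the caustic through a point of the table -/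
lemma tangent_caustic (s : ℝ) (v : ℂ) : IsTangentLine (frontier D.Cγ.K) (D.P s) v ↔
    (∃ r : ℝ, r ≠ 0 ∧ v = r * D.T s) ∨ (∃ r : ℝ, r ≠ 0 ∧ v = r * D.T (s + D.L)) := by
  rw [D.Cγ.frontier_K, D.Cγ.tangent_iff]
  constructor
  · rintro ⟨u, r, hr, hv, hF⟩
    have hv' : v = r * D.T u := hv
    rcases D.Fγ_zero hF with h | h
    · left; exact ⟨r, hr, by rw [hv', D.T_of_γ h]⟩
    · right; exact ⟨r, hr, by rw [hv', D.T_of_γ h]⟩
  · rintro (⟨r, hr, hv⟩ | ⟨r, hr, hv⟩)
    · exact ⟨s, r, hr, hv, D.Fγ_P s⟩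
    · exact ⟨s + D.L, r, hr, hv, D.Fγ_P' s⟩

lemma expψ_per_int (s : ℝ) (k : ℤ) :
    exp (D.ψ (s + k * (D.m * D.Lam)) * I) = exp (D.ψ s * I) := by
  have hm := D.m_pos
  have e : s + k * (D.m * D.Lam) = s + ((k * D.m : ℤ) : ℝ) * D.Lam := by push_cast; ring
  have e' : s + ((k * D.m : ℤ) : ℝ) * D.Lam + D.L = s + D.L + ((k * D.m : ℤ) : ℝ) * D.Lam := by ring
  have e3 : ((k * D.m : ℤ) : ℝ) * (2 * Real.pi / D.m) = k * (2 * Real.pi) := by
    push_cast
    field_simp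
  have e2 : D.ψ (s + k * (D.m * D.Lam)) = D.ψ s + k * (2 * Real.pi) := by
    rw [ψ, ψ, e, e', θ_per_int, θ_per_int, e3]; ring
  rw [e2]
  have e4 : (((D.ψ s + k * (2 * Real.pi) : ℝ) : ℂ)) * I = D.ψ s * I + k * (2 * Real.pi * I) := by
    push_cast; ring
  rw [e4, Complex.exp_add, Complex.exp_int_mul_two_pi_mul_I, mul_one]

/-- the tangent line to the table at `P s` -/
lemma tangent_table {s : ℝ} {τ : ℂ} (h : IsTangentLine (frontier D.CP.U) (D.P s) τ) :
    ∃ r : ℝ, r ≠ 0 ∧ τ = r * exp (D.ψ s * I) := by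
  rw [D.CP.frontier_U, D.CP.tangent_iff] at h
  obtain ⟨u, r, hr, hτ, hF⟩ := h
  obtain ⟨k, hk⟩ := D.CP.eq_of_F_eq_zero (s := u) (t := s) hF
  refine ⟨r, hr, ?_⟩
  rw [hτ, hk]
  have := D.expψ_per_int u k
  rw [← CP_ψ] at this
  rw [← CP_ψ]
  exact congrArg _ this.symm

lemma reflect_eq {s r r' : ℝ} (hr : r ≠ 0) :
    reflect (r * exp (D.ψ s * I)) (r' * D.T s) = r' * D.T (s + D.L) ∧
    reflect (r * exp (D.ψ s * I)) (r' * D.T (s + D.L)) = r' * D.T s := by
  have hr' : (r : ℂ) ≠ 0 := by exact_mod_cast hr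
  have hexp : exp (D.ψ s * I) ≠ 0 := exp_ne_zero _
  have hτ : (r * exp (D.ψ s * I)) / conj ((r : ℂ) * exp (D.ψ s * I)) =
      exp (D.ψ s * I) * exp (D.ψ s * I) := by
    rw [map_mul, conj_ofReal, CC.conj_expI, Complex.exp_neg]
    field_simp
  have e1 : exp (D.ψ s * I) * exp (D.ψ s * I) = D.T s * D.T (s + D.L) := by
    rw [T, T, ← Complex.exp_add, ← Complex.exp_add, ψ]; congr 1; push_cast; ring
  have hT : ∀ u, D.T u * conj (D.T u) = 1 := by
    intro u
    rw [mul_conj, normSq_eq_norm_sq, norm_T]; simp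
  constructor
  · rw [reflect, hτ, e1, map_mul, conj_ofReal]
    linear_combination (r' : ℂ) * D.T (s + D.L) * hT s
  · rw [reflect, hτ, e1, map_mul, conj_ofReal]
    linear_combination (r' : ℂ) * D.T s * hT (s + D.L)

lemma isTable : IsTable D.CP.U where
  isOpen := D.CP.U_open
  nonempty := D.CP.U_nonempty
  bounded := D.CP.K_bounded.subset D.CP.U_subset_K
  convex := D.CP.U_convex
  strictConvex := by rw [D.CP.closure_U]; exact D.CP.K_strictConvex
  c1 := ⟨D.CP.c, D.CP.ℓ, D.CP.hℓ, D.CP.contDiff_c, D.CP.deriv_c_ne, D.CP.c_periodic, D.CP.injOn,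
    D.CP.frontier_U.symm⟩

lemma isConvexCurve : IsConvexCurve D.Cγ.K D.γ (D.m * D.Lam) where
  compact := D.Cγ.K_compact
  convex := D.Cγ.K_convex
  nonempty := by rw [D.Cγ.interior_K]; exact D.Cγ.U_nonempty
  pos := D.Cγ.hℓ
  contDiff := D.Cγ.contDiff_c
  deriv_ne := D.Cγ.deriv_c_ne
  periodic := D.Cγ.c_periodic
  injOn := D.Cγ.injOn
  range_eq := D.Cγ.frontier_K.symm

lemma isConvexCaustic : IsConvexCaustic D.CP.U D.Cγ.K where
  subset := D.K_subset_U
  reflection := by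
    intro P hP τ v hτ hv
    rw [D.CP.frontier_U] at hP
    obtain ⟨s, rfl⟩ := hP
    change IsTangentLine (frontier D.CP.U) (D.P s) τ at hτ
    change IsTangentLine (frontier D.Cγ.K) (D.P s) v at hv
    change IsTangentLine (frontier D.Cγ.K) (D.P s) (reflect τ v)
    obtain ⟨r, hr, rfl⟩ := D.tangent_table hτ
    rw [D.tangent_caustic] at hv ⊢
    rcases hv with ⟨r', hr', rfl⟩ | ⟨r', hr', rfl⟩
    · right; exact ⟨r', hr', (D.reflect_eq hr).1⟩
    · left; exact ⟨r', hr', (D.reflect_eq hr).2⟩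

lemma γ_eq_P (s : ℝ) : D.γ s - D.P s = ((-(D.h + D.x s) : ℝ) : ℂ) * D.T s := by
  rw [P]; push_cast; ring

lemma γ_eq_P' (s : ℝ) : D.γ (s + D.L) - D.P s = ((D.h - D.x s : ℝ) : ℂ) * D.T (s + D.L) := by
  rw [P_eq]; ring

lemma tangency (s : ℝ) :
    tangencyPoints (frontier D.Cγ.K) (D.P s) = {D.γ s, D.γ (s + D.L)} := by
  ext Q
  have hFdir : ∀ (u r : ℝ) (Q : ℂ), D.Cγ.F u (D.P s) = 0 → Q - D.P s = r * D.T u →
      D.Cγ.F u Q = 0 := by
    intro u r Q h0 h
    have h1 := D.Cγ.F_sub u Q (D.P s)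
    rw [h0, sub_zero, h, Cγ_ψ, T, mul_assoc, CC.exp_mul_exp_neg] at h1
    rw [h1]; simp
  constructor
  · rintro ⟨hQ, htan⟩
    rw [D.tangent_caustic] at htan
    rw [D.Cγ.frontier_K] at hQ
    obtain ⟨u, rfl⟩ := hQ
    have hK := D.Cγ.c_mem_K u
    rcases htan with ⟨r, hr, h⟩ | ⟨r, hr, h⟩
    · left
      exact D.Cγ.eq_of_zero (hFdir s r _ (D.Fγ_P s) h) hK
    · right
      exact D.Cγ.eq_of_zero (hFdir (s + D.L) r _ (D.Fγ_P' s) h) hK
  · intro hQ
    have hfr : ∀ u, D.γ u ∈ frontier D.Cγ.K := fun u => by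
      rw [D.Cγ.frontier_K]; exact ⟨u, rfl⟩
    rcases hQ with rfl | hQ
    · refine ⟨hfr s, ?_⟩
      rw [D.tangent_caustic]
      left
      exact ⟨_, by have := D.a_pos s; linarith, D.γ_eq_P s⟩
    · rw [mem_singleton_iff] at hQ
      subst hQ
      refine ⟨hfr _, ?_⟩
      rw [D.tangent_caustic]
      right
      exact ⟨_, (D.b_pos s).ne', D.γ_eq_P' s⟩

/-- the table is not a circle -/
lemma not_circle (O : ℂ) (R : ℝ) : frontier D.CP.U ≠ Metric.sphere O R := by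
  intro hcirc
  rw [D.CP.frontier_U] at hcirc
  have hR : ∀ s, ‖D.P s - O‖ = R := by
    intro s
    have : D.CP.c s ∈ Metric.sphere O R := by rw [← hcirc]; exact ⟨s, rfl⟩
    rwa [Metric.mem_sphere, dist_eq_norm] at this
  -- `A s O = 0`
  have hA : ∀ s, D.CP.A s O = 0 := by
    intro s
    have h1 : HasDerivAt (fun s => D.P s - O) (D.CP.σ s * exp (D.ψ s * I)) s :=
      (D.CP.hc s).sub_const O
    have hn := h1.norm_sq
    have hc : (fun s => ‖D.P s - O‖ ^ 2) = fun _ => R ^ 2 := by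
      funext s; rw [hR]
    rw [hc] at hn
    have e1 : inner ℝ (D.P s - O) (D.CP.σ s * exp (D.ψ s * I)) = -(D.CP.σ s * D.CP.A s O) := by
      rw [Complex.inner, CC.A, CP_c, CP_ψ]
      have e2 : (↑(D.CP.σ s) * exp (D.ψ s * I)) * conj (D.P s - O) =
          (D.CP.σ s : ℂ) * conj ((D.P s - O) * exp (-(D.ψ s * I))) := by
        rw [map_mul, ← CC.conj_expI, conj_conj]; ring
      have e3 : (O - D.P s) * exp (-(D.ψ s * I)) = -((D.P s - O) * exp (-(D.ψ s * I))) := by ring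
      rw [e2, re_ofReal_mul, conj_re, e3, neg_re]; ring
    rw [e1] at hn
    have h0 := (hasDerivAt_const s (R ^ 2)).unique hn
    have hσ := D.CP.hσ s
    have : D.CP.σ s * D.CP.A s O = 0 := by linarith
    rcases mul_eq_zero.1 this with h | h
    · exact absurd h hσ.ne'
    · exact h
  -- `F s O` is constant
  have hFd : ∀ s, HasDerivAt (fun s => D.CP.F s O) 0 s := by
    intro s
    have := D.CP.hasDerivAt_F s O
    rwa [hA, mul_zero, neg_zero] at this
  have hFc : ∀ s t, D.CP.F s O = D.CP.F t O := fun s t =>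
    is_const_of_deriv_eq_zero (fun s => (hFd s).differentiableAt) (fun s => (hFd s).deriv) s t
  set ν := D.CP.F 0 O with hν
  have hPO : ∀ s, O - D.P s = (ν : ℂ) * I * exp (D.ψ s * I) := by
    intro s
    have h1 := D.CP.recon s O
    rw [hA s, hFc s 0, ← hν, CP_c, CP_ψ] at h1
    rw [h1]; simp
  -- the centre is the origin
  have hψΛ : exp (D.ψ (0 + D.Lam) * I) = D.ζ * exp (D.ψ 0 * I) := by
    have e' : (0:ℝ) + D.Lam + D.L = 0 + D.L + D.Lam := by ring
    rw [ψ, ψ, ζ, e', θ_per, θ_per, ← Complex.exp_add]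
    congr 1; push_cast; ring
  have hO : O = 0 := by
    have h1 := hPO (0 + D.Lam)
    rw [P_per, hψΛ] at h1
    have h2 := hPO 0
    have h3 : (1 - D.ζ) * O = 0 := by linear_combination h1 - D.ζ * h2
    rcases mul_eq_zero.1 h3 with h4 | h4
    · exact absurd (sub_eq_zero.1 h4).symm D.ζ_ne_one
    · exact h4
  subst hO
  have hP : ∀ s, D.P s = -((ν : ℂ) * I * exp (D.ψ s * I)) := by
    intro s
    have := hPO s
    linear_combination -this
  have hν0 : ν ≠ 0 := by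
    intro h
    have h1 : D.P = fun _ => 0 := by funext s; rw [hP, h]; simp
    have h2 := D.CP.deriv_c_ne 0
    rw [CP_c, h1] at h2
    simp at h2
  -- support function of the caustic
  have k1 : ∀ s, (D.γ s * exp (-(D.θ s * I))).im = -(ν * Real.cos (D.φ s / 2)) := by
    intro s
    have e : D.γ s * exp (-(D.θ s * I)) = ((-(D.h + D.x s) : ℝ) : ℂ) -
        (ν : ℂ) * (I * (exp (D.ψ s * I) * exp (-(D.θ s * I)))) := by
      have h1 : D.γ s = D.P s + ((-(D.h + D.x s) : ℝ) : ℂ) * D.T s := by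
        rw [← D.γ_eq_P s]; ring
      have h2 : D.T s * exp (-(D.θ s * I)) = 1 := by
        rw [T, CC.exp_mul_exp_neg]; simp
      rw [h1, hP s]
      linear_combination ((-(D.h + D.x s) : ℝ) : ℂ) * h2
    have e2 : D.ψ s - D.θ s = D.φ s / 2 := by rw [ψ_eq]; ring
    rw [e, sub_im, ofReal_im, im_ofReal_mul, CC.exp_mul_exp_neg, e2, I_mul_im,
      exp_ofReal_mul_I_re]
    ring
  have k2 : ∀ s, (D.γ (s + D.L) * exp (-(D.θ (s + D.L) * I))).im = -(ν * Real.cos (D.φ s / 2)) := by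
    intro s
    have e : D.γ (s + D.L) * exp (-(D.θ (s + D.L) * I)) = ((D.h - D.x s : ℝ) : ℂ) -
        (ν : ℂ) * (I * (exp (D.ψ s * I) * exp (-(D.θ (s + D.L) * I)))) := by
      have h1 : D.γ (s + D.L) = D.P s + ((D.h - D.x s : ℝ) : ℂ) * D.T (s + D.L) := by
        rw [← D.γ_eq_P' s]; ring
      have h2 : D.T (s + D.L) * exp (-(D.θ (s + D.L) * I)) = 1 := by
        rw [T, CC.exp_mul_exp_neg]; simp
      rw [h1, hP s]
      linear_combination ((D.h - D.x s : ℝ) : ℂ) * h2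
    have e2 : D.ψ s - D.θ (s + D.L) = -(D.φ s / 2) := by rw [ψ_eq']; ring
    rw [e, sub_im, ofReal_im, im_ofReal_mul, CC.exp_mul_exp_neg, e2, I_mul_im,
      exp_ofReal_mul_I_re, Real.cos_neg]
    ring
  have hφL : ∀ s, D.φ (s + D.L) = D.φ s := by
    intro s
    have h1 := (k1 (s + D.L)).symm.trans (k2 s)
    have h2 : Real.cos (D.φ (s + D.L) / 2) = Real.cos (D.φ s / 2) := by
      have : ν * Real.cos (D.φ (s + D.L) / 2) = ν * Real.cos (D.φ s / 2) := by linarith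
      exact mul_left_cancel₀ hν0 this
    have m1 := D.φ_mem (s + D.L)
    have m2 := D.φ_mem s
    have h3 : D.φ (s + D.L) / 2 = D.φ s / 2 := Real.injOn_cos
      ⟨by linarith [m1.1], by linarith [m1.2, Real.pi_pos]⟩
      ⟨by linarith [m2.1], by linarith [m2.2, Real.pi_pos]⟩ h2
    linarith
  have hθn : ∀ (s : ℝ) (j : ℕ), D.φ (s + j * D.L) = D.φ s ∧
      D.θ (s + j * D.L) = D.θ s + j * D.φ s := by
    intro s j
    induction j with
    | zero => simp
    | succ j ih =>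
      have e : s + ((j + 1 : ℕ) : ℝ) * D.L = s + j * D.L + D.L := by push_cast; ring
      rw [e]
      refine ⟨by rw [hφL, ih.1], ?_⟩
      have : D.θ (s + j * D.L + D.L) = D.θ (s + j * D.L) + D.φ (s + j * D.L) := by rw [φ]; ring
      rw [this, ih.1, ih.2]; push_cast; ring
  have hn : (0:ℝ) < D.n := by exact_mod_cast D.hn
  have hφc : ∀ s, D.φ s = D.k * (2 * Real.pi / D.m) / D.n := by
    intro s
    have h1 := (hθn s D.n).2
    rw [D.hnk, θ_per_int] at h1
    field_simp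
    field_simp at h1
    linarith
  have hκL : ∀ s, D.κ (s + D.L) = D.κ s := by
    intro s
    have h2 : HasDerivAt (fun s => D.θ (s + D.L)) (D.κ (s + D.L)) s :=
      (D.hasDerivAt_θ (s + D.L)).comp_add_const s D.L
    have h3 : HasDerivAt D.φ (D.κ (s + D.L) - D.κ s) s := h2.sub (D.hasDerivAt_θ s)
    have h4 : D.φ = fun _ => D.k * (2 * Real.pi / D.m) / D.n := funext hφc
    rw [h4] at h3
    have := (hasDerivAt_const s _).unique h3
    linarith
  have hx0 : ∀ s, D.x s = 0 := by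
    intro s
    rw [x_eq, hκL]; simp
  obtain ⟨s, hs⟩ := D.hκnc
  apply hs
  have hfin : ∀ s, D.h * D.κ s * (Real.cos (D.φ 0 / 2) / Real.sin (D.φ 0 / 2)) = 1 := by
    intro s
    have h1 := D.h2' s
    have h2 : D.x = fun _ => 0 := funext hx0
    have h3 : D.φ s = D.φ 0 := by rw [hφc s, hφc 0]
    rw [w, hx0 s, h3, h2] at h1
    have := (hasDerivAt_const s (0:ℝ)).unique h1
    rw [add_zero] at this
    linarith
  have h1 := hfin s
  have h2 := hfin 0
  have h3 : (D.h * (Real.cos (D.φ 0 / 2) / Real.sin (D.φ 0 / 2))) * D.κ s =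
      (D.h * (Real.cos (D.φ 0 / 2) / Real.sin (D.φ 0 / 2))) * D.κ 0 := by linarith
  have h4 : (D.h * (Real.cos (D.φ 0 / 2) / Real.sin (D.φ 0 / 2))) ≠ 0 := by
    have := D.h_pos
    have := D.cos_pos 0
    have := D.sin_pos 0
    positivity
  exact mul_left_cancel₀ h4 h3

/-- Part II: any analytic data give a positive answer to Q1. -/
theorem geo (D : BilliardData) : Q1 := by
  refine ⟨D.CP.U, D.Cγ.K, D.γ, D.m * D.Lam, D.isTable, D.not_circle, D.isConvexCurve,
    D.isConvexCaustic, D.L, fun P hP => ?_⟩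
  rw [D.CP.frontier_U] at hP
  obtain ⟨s, rfl⟩ := hP
  refine ⟨s, s + D.L, by linarith [D.hL], by linarith [D.hL'], D.tangency s, ?_, ?_⟩
  · rintro _ ⟨u, hu, rfl⟩
    exact D.Cγ.arc_in_triangle (s := s) (t := s + D.L) (by linarith [D.hL]) (D.a_pos s) (D.b_pos s)
      (D.φ_mem s).2 (P := D.P s) rfl (D.P_eq s) hu
  · rw [eVariationOn_unit_speed D.hasDerivAt_γ D.T_cont D.norm_T (by linarith [D.hL])]
    congr 1; ring

end BilliardData

end Pool.Agent.Work.MP_5da384_an
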