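import Pool.Agent.Work.MP_5da384_an.Sol

set_option autoImplicit false

open Filter Topology Set
open scoped ENNReal NNReal Nat

namespace Pool.Agent.Work.MP_5da384_an

section

variable {e : ℝ} {z : W}

lemma hn_eta (hadm : Adm e z) : 0 < om * (1 + 2 * z 1) := by
  obtain ⟨h1, h2⟩ := om_bounds
  have h3 := hadm.eta_le
  rw [abs_le] at h3
  apply mul_pos (by linarith)
  linarith [h3.1]

lemma kt_nonconst (he : 0.159 ≤ e) (hadm : Adm e z) : kt e z Real.pi ≠ kt e z 0 := by
  intro h
  unfold kt at h
  have h1 := Real.exp_injective h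
  unfold lf at h1
  rw [map_add, map_add, map_smul, map_smul, ev_bs, ev_bs] at h1
  have h2 := abs_ev_le Real.pi (mult mM z)
  have h3 := abs_ev_le 0 (mult mM z)
  have h4 := norm_mult_le mM_le z
  have h5 := hadm.2.2
  simp only [Nat.cast_one, one_mul, Real.cos_pi, Real.cos_zero, smul_eq_mul] at h1
  rw [abs_le] at h2 h3
  linarith [h2.1, h2.2, h3.1, h3.2]

/-- the shifted function `x` -/
noncomputable def xt (e : ℝ) (z : W) (s : ℝ) : ℝ :=
  1 / (om * (1 + 2 * z 1)) * (Real.sinh (Dt e z (s - Real.pi / 8)) /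
    Real.cosh (Dt e z (s - Real.pi / 8)))

lemma eq_one (s : ℝ) :
    kt e z s = Real.exp (Mt e z (s - Real.pi / 8) - Dt e z (s - Real.pi / 8)) := by
  have := kt_add e z (s - Real.pi / 8)
  rwa [sub_add_cancel] at this

lemma eq_two (s : ℝ) : kt e z (s + 7 * Real.pi / 4) =
    Real.exp (Mt e z (s - Real.pi / 8) + Dt e z (s - Real.pi / 8)) := by
  have h := kt_sub e z (s - Real.pi / 8)
  have h2 := kt_period e z (s - Real.pi / 8 - Real.pi / 8)
  rw [← h, ← h2]
  congr 1; ring

lemma sol_h1 (s : ℝ) : (1 / (om * (1 + 2 * z 1)) + xt e z s) * (kt e z s / 14) =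
    (1 / (om * (1 + 2 * z 1)) - xt e z s) * (kt e z (s + 7 * Real.pi / 4) / 14) := by
  rw [eq_one, eq_two]
  unfold xt
  generalize Dt e z (s - Real.pi / 8) = d
  generalize Mt e z (s - Real.pi / 8) = m
  generalize 1 / (om * (1 + 2 * z 1)) = h
  have hc := Real.cosh_pos d
  have h1 : (h + h * (Real.sinh d / Real.cosh d)) = h * Real.exp d / Real.cosh d := by
    rw [← Real.cosh_add_sinh d]; field_simp
  have h2 : (h - h * (Real.sinh d / Real.cosh d)) = h * Real.exp (-d) / Real.cosh d := by
    rw [← Real.cosh_sub_sinh d]; field_simp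
  rw [h1, h2]
  have h3 : Real.exp d * Real.exp (m - d) = Real.exp m := by rw [← Real.exp_add]; congr 1; ring
  have h4 : Real.exp (-d) * Real.exp (m + d) = Real.exp m := by
    rw [← Real.exp_add]; congr 1; ring
  have e1 : h * Real.exp d / Real.cosh d * (Real.exp (m - d) / 14) =
      h * (Real.exp d * Real.exp (m - d)) / Real.cosh d / 14 := by ring
  have e2 : h * Real.exp (-d) / Real.cosh d * (Real.exp (m + d) / 14) =
      h * (Real.exp (-d) * Real.exp (m + d)) / Real.cosh d / 14 := by ring
  rw [e1, e2, h3, h4]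

lemma sol_h2 (hadm : Adm e z) (hfix : Phi e z = z) (hfb : fb e z = 0) (s : ℝ) :
    HasDerivAt (xt e z) ((1 / (om * (1 + 2 * z 1)) + xt e z s) * (kt e z s / 14) *
      (Real.cos (Real.pi / 16 + Yt e z (s - Real.pi / 8)) /
        Real.sin (Real.pi / 16 + Yt e z (s - Real.pi / 8))) - 1) s := by
  have hη := hn_eta hadm
  have hD := hasDerivAt_Dt hadm hfix hfb (s - Real.pi / 8)
  have hD' := hD.comp_sub_const s (Real.pi / 8)
  have hsh := hD'.sinh
  have hch := hD'.cosh
  have hc := Real.cosh_pos (Dt e z (s - Real.pi / 8))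
  have hq := (hsh.div hch hc.ne').const_mul (1 / (om * (1 + 2 * z 1)))
  have hx : HasDerivAt (xt e z) _ s := hq
  refine hx.congr_deriv ?_
  rw [eq_one]
  unfold xt
  generalize Real.cos (Real.pi / 16 + Yt e z (s - Real.pi / 8)) /
        Real.sin (Real.pi / 16 + Yt e z (s - Real.pi / 8)) = q
  clear hx hq hch hsh hD' hD
  generalize Dt e z (s - Real.pi / 8) = d at hc ⊢
  generalize Mt e z (s - Real.pi / 8) = m
  generalize om * (1 + 2 * z 1) = g at hη ⊢
  have h1 : (1 / g + 1 / g * (Real.sinh d / Real.cosh d)) = 1 / g * Real.exp d / Real.cosh d := by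
    rw [← Real.cosh_add_sinh d]; field_simp
  have h3 : Real.exp d * Real.exp (m - d) = Real.exp m := by rw [← Real.exp_add]; congr 1; ring
  have e1 : 1 / g * Real.exp d / Real.cosh d * (Real.exp (m - d) / 14) =
      1 / g * (Real.exp d * Real.exp (m - d)) / Real.cosh d / 14 := by ring
  rw [h1, e1, h3]
  have hsq := Real.cosh_sq d
  field_simp
  linear_combination (Real.exp m * q - 14 * g * Real.cosh d) * hsq

end

/-- the analytic data -/
theorem exists_data : ∃ D : BilliardData, D.m = 14 := by
  obtain ⟨e, z, he, hz, hfix, hfb⟩ := exists_sol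
  have hadm := adm_of_mem he hz
  have hpi := Real.pi_pos
  refine ⟨{
    m := 14
    hm := by norm_num
    Lam := 2 * Real.pi
    hLam := by positivity
    L := 7 * Real.pi / 4
    hL := by positivity
    hL' := by push_cast; linarith
    n := 8
    hn := by norm_num
    k := 7
    hnk := by push_cast; ring
    κ := fun s => kt e z s / 14
    hκc := (continuous_kt e z).div_const _
    hκpos := fun s => by unfold kt; positivity
    hκper := fun s => by rw [kt_period]
    hκint := by
      rw [intervalIntegral.integral_div, integral_kt hadm hfix]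
      have h1 : At e z (2 * Real.pi) - At e z 0 = 2 * Real.pi := by
        have := es_period 0 (mult (fun n => 1 / (n:ℝ)) (Ef (lf e z)))
        rw [zero_add] at this
        unfold At
        rw [this]; ring
      rw [h1]; push_cast; ring
    hκnc := ⟨Real.pi, by
      intro h
      apply kt_nonconst he.1 hadm
      have := congrArg (fun x => x * 14) h
      simpa using this⟩
    h := 1 / (om * (1 + 2 * z 1))
    x := xt e z
    hx := ?_
    hphi := ?_
    h1 := fun s => sol_h1 s
    h2 := ?_ }, rfl⟩
  · intro s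
    unfold xt
    have hη := hn_eta hadm
    rw [abs_mul, abs_of_pos (by positivity : 0 < 1 / (om * (1 + 2 * z 1))),
      ← Real.tanh_eq_sinh_div_cosh]
    have h1 := Real.abs_tanh_lt_one (Dt e z (s - Real.pi / 8))
    have h2 : 0 < 1 / (om * (1 + 2 * z 1)) := by positivity
    nlinarith
  · intro s
    rw [phi_eq hadm hfix]
    have h := abs_Yt_le hadm (s - Real.pi / 8)
    rw [abs_le] at h
    have := Real.pi_gt_three
    constructor <;> linarith [h.1, h.2]
  · intro s
    rw [phi_eq hadm hfix]
    have h := sol_h2 hadm hfix hfb s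
    have e1 : (Real.pi / 8 + 2 * Yt e z (s - Real.pi / 8)) / 2 =
      Real.pi / 16 + Yt e z (s - Real.pi / 8) := by ring
    rw [e1]
    exact h

theorem q1_holds : Q1 := by
  obtain ⟨D, -⟩ := exists_data
  exact D.geo

end Pool.Agent.Work.MP_5da384_an
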