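import Pool.Agent.Work.MP_5da384_an.Wiener
import Pool.Agent.Work.MP_5da384_an.Consts

set_option autoImplicit false

open Filter Topology Set
open scoped ENNReal NNReal

namespace Pool.Agent.Work.MP_5da384_an

/-! ### coefficient sequences -/

/-- `exp x - 1 - x` -/
noncomputable def cP (n : ℕ) : ℝ := if n < 2 then 0 else 1 / (n.factorial : ℝ)
/-- `sin x` -/
noncomputable def cS (n : ℕ) : ℝ := if Even n then 0 else (-1) ^ (n / 2) / (n.factorial : ℝ)
/-- `cos x - 1` -/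
noncomputable def cC (n : ℕ) : ℝ :=
  if n = 0 ∨ Odd n then 0 else (-1) ^ (n / 2) / (n.factorial : ℝ)
/-- `1 / (1 + x)` -/
noncomputable def cG (n : ℕ) : ℝ := (-1) ^ n
/-- `cosh² √x - 1` -/
noncomputable def cH (n : ℕ) : ℝ := if n = 0 then 0 else 4 ^ n / (2 * ((2 * n).factorial : ℝ))

lemma cP_le (n : ℕ) : |cP (n + 2)| ≤ (1/2) * (1/3)^n := by
  unfold cP
  rw [if_neg (by omega), abs_of_nonneg (by positivity)]
  induction n with
  | zero => norm_num
  | succ n ih =>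
    rw [show n + 1 + 2 = (n + 2) + 1 by ring, Nat.factorial_succ]
    push_cast
    have h1 : (0:ℝ) < (n+2).factorial := by positivity
    have hn0 : (0:ℝ) ≤ n := by positivity
    have h2 : (3:ℝ) ≤ (n:ℝ) + 2 + 1 := by linarith
    calc (1:ℝ) / (((n:ℝ) + 2 + 1) * (n+2).factorial) = (1 / (n+2).factorial) * (1/((n:ℝ)+2+1)) := by
          field_simp
      _ ≤ (1/2 * (1/3)^n) * (1/3) := by gcongr
      _ = 1/2 * (1/3)^(n+1) := by ring

lemma cP_le' (n : ℕ) : |cP (n + 2)| * ((n + 2 : ℕ) : ℝ) ≤ (1/2)^n := by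
  unfold cP
  rw [if_neg (by omega), abs_of_nonneg (by positivity)]
  rw [show n + 2 = (n + 1) + 1 by ring, Nat.factorial_succ]
  have h1 : (0:ℝ) < (n+1).factorial := by positivity
  have h3 : (1:ℝ) / (((n + 1 + 1 : ℕ)) * (n+1).factorial : ℕ) * ((n + 1 + 1 : ℕ) : ℝ) =
      1 / (n+1).factorial := by
    push_cast; field_simp
  rw [h3]
  induction n with
  | zero => norm_num
  | succ n ih =>
    rw [Nat.factorial_succ]
    push_cast
    have h1 : (0:ℝ) < (n+1).factorial := by positivity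
    have hn0 : (0:ℝ) ≤ n := by positivity
    have h2 : (2:ℝ) ≤ (n:ℝ) + 1 + 1 := by linarith
    have ih' : (1:ℝ) / (n+1).factorial ≤ (1/2)^n := by
      apply ih h1
      push_cast; field_simp
    calc (1:ℝ) / (((n:ℝ) + 1 + 1) * (n+1).factorial) = (1 / (n+1).factorial) * (1/((n:ℝ)+1+1)) := by
          field_simp
      _ ≤ ((1/2)^n) * (1/2) := by gcongr
      _ = (1/2)^(n+1) := by ring

lemma inv_fact_le_one (n : ℕ) : (1:ℝ) / (n.factorial : ℝ) ≤ 1 := by
  rw [div_le_one (by positivity)]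
  exact_mod_cast Nat.succ_le_of_lt n.factorial_pos

lemma inv_fact_le_half (n : ℕ) (hn : 2 ≤ n) : (1:ℝ) / (n.factorial : ℝ) ≤ 1/2 := by
  apply one_div_le_one_div_of_le (by norm_num)
  have : Nat.factorial 2 ≤ n.factorial := Nat.factorial_le hn
  exact_mod_cast this

lemma nat_mul_inv_fact (n : ℕ) (hn : 1 ≤ n) : (1:ℝ) / (n.factorial : ℝ) * n ≤ 1 := by
  obtain ⟨m, rfl⟩ : ∃ m, n = m + 1 := ⟨n - 1, by omega⟩
  rw [Nat.factorial_succ]
  have h := inv_fact_le_one m
  have h1 : (0:ℝ) < m.factorial := by positivity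
  calc (1:ℝ) / (((m + 1) * m.factorial : ℕ) : ℝ) * ((m + 1 : ℕ) : ℝ) = 1 / (m.factorial : ℝ) := by
        push_cast; field_simp
    _ ≤ 1 := h

lemma abs_cS_le (n : ℕ) : |cS n| ≤ 1 / (n.factorial : ℝ) := by
  unfold cS
  split_ifs
  · simp
  · rw [abs_div, abs_pow, abs_neg, abs_one, one_pow, abs_of_nonneg (by positivity)]

lemma abs_cC_le (n : ℕ) : |cC n| ≤ 1 / (n.factorial : ℝ) := by
  unfold cC
  split_ifs
  · simp
  · rw [abs_div, abs_pow, abs_neg, abs_one, one_pow, abs_of_nonneg (by positivity)]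

lemma cS_zero : cS 0 = 0 := by simp [cS]
lemma cC_zero : cC 0 = 0 := by simp [cC]
lemma cC_one : cC 1 = 0 := by simp [cC]
lemma cH_zero : cH 0 = 0 := by simp [cH]

lemma abs_cG (n : ℕ) : |cG n| = 1 := by simp [cG]

lemma cH_bound (n : ℕ) : |cH (n+1)| * ((n + 1 : ℕ) : ℝ) ≤ 1 ∧ |cH (n+1)| ≤ 1 := by
  have h0 : 0 ≤ cH (n+1) := by unfold cH; split_ifs <;> positivity
  rw [abs_of_nonneg h0]
  have key : cH (n+1) * ((n + 1 : ℕ) : ℝ) ≤ 1 := by
    unfold cH
    rw [if_neg (by omega)]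
    induction n with
    | zero => norm_num [Nat.factorial]
    | succ n ih =>
      have ih' := ih (by unfold cH; split_ifs <;> positivity)
      have hf : ((2 * (n + 1 + 1)).factorial : ℝ) =
          (2 * n + 4) * (2 * n + 3) * ((2 * (n+1)).factorial : ℝ) := by
        rw [show 2 * (n + 1 + 1) = (2 * (n+1) + 1) + 1 by ring, Nat.factorial_succ,
          Nat.factorial_succ]
        push_cast; ring
      rw [hf]
      have h1 : (0:ℝ) < (2 * (n+1)).factorial := by positivity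
      have hn : (0:ℝ) ≤ n := by positivity
      have e1 : (4:ℝ) ^ (n + 1 + 1) / (2 * ((2 * n + 4) * (2 * n + 3) *
          ((2 * (n+1)).factorial : ℝ))) * ((n + 1 + 1 : ℕ) : ℝ) =
          ((4:ℝ)^(n+1) / (2 * ((2 * (n+1)).factorial : ℝ)) * ((n + 1 : ℕ) : ℝ)) *
            (4 * (n + 2) / ((n + 1) * ((2 * n + 4) * (2 * n + 3)))) := by
        push_cast
        field_simp
        ring
      rw [e1]
      have h2 : (4 * ((n:ℝ) + 2) / ((n + 1) * ((2 * n + 4) * (2 * n + 3)))) ≤ 1 := by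
        rw [div_le_one (by positivity)]
        nlinarith [mul_nonneg hn hn, mul_nonneg (mul_nonneg hn hn) hn]
      have h3 : 0 ≤ (4 * ((n:ℝ) + 2) / ((n + 1) * ((2 * n + 4) * (2 * n + 3)))) := by positivity
      calc _ ≤ 1 * (4 * ((n:ℝ) + 2) / ((n + 1) * ((2 * n + 4) * (2 * n + 3)))) :=
            mul_le_mul_of_nonneg_right ih' h3
        _ ≤ 1 := by linarith
  refine ⟨key, ?_⟩
  have h1 : (1:ℝ) ≤ ((n + 1 : ℕ) : ℝ) := by
    push_cast; have : (0:ℝ) ≤ n := by positivity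
    linarith
  nlinarith

/-! ### summability and bounds of the series -/

/-- norm bound for a power series vanishing to order `k` with coefficients at most `A` -/
lemma bound_norm {c : ℕ → ℝ} {k : ℕ} {A R : ℝ} (hz : ∀ n < k, c n = 0)
    (hc : ∀ n, |c (n + k)| ≤ A) (hR0 : 0 ≤ R) (hR1 : R < 1) :
    (Summable fun n => |c n| * R ^ n) ∧ ∑' n, |c n| * R ^ n ≤ A * R ^ k / (1 - R) := by
  apply tsum_shift_le (k := k)
  · intro n; positivity
  · intro n hn; simp [hz n hn]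
  · exact hR0
  · exact hR1
  · intro n
    rw [pow_add]
    have := mul_le_mul_of_nonneg_right (hc n) (by positivity : (0:ℝ) ≤ R^n * R^k)
    linarith

/-- Lipschitz bound for a power series of order `k ≥ 1` with `n |c n| ≤ A` -/
lemma bound_lip {c : ℕ → ℝ} {k : ℕ} {A R : ℝ} (hk : 1 ≤ k) (hz : ∀ n < k, c n = 0)
    (hc : ∀ n, |c (n + k)| * ((n + k : ℕ) : ℝ) ≤ A) (hR0 : 0 ≤ R) (hR1 : R < 1) :
    (Summable fun n => |c n| * (n * R ^ (n - 1))) ∧
      ∑' n, |c n| * (n * R ^ (n - 1)) ≤ A * R ^ (k - 1) / (1 - R) := by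
  apply tsum_shift_le (k := k)
  · intro n; positivity
  · intro n hn; simp [hz n hn]
  · exact hR0
  · exact hR1
  · intro n
    rw [show n + k - 1 = n + (k - 1) by omega, pow_add, ← mul_assoc]
    have := mul_le_mul_of_nonneg_right (hc n) (by positivity : (0:ℝ) ≤ R^n * R^(k-1))
    linarith

lemma sumP {R : ℝ} (hR0 : 0 ≤ R) (hR1 : R < 1) :
    (Summable fun n => |cP n| * R ^ n) ∧ ∑' n, |cP n| * R ^ n ≤ (1/2) * R^2 / (1 - R/3) := by
  apply tsum_shift_le (k := 2)
  · intro n; positivity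
  · intro n hn; simp [cP, hn]
  · positivity
  · linarith
  · intro n
    rw [pow_add, div_pow]
    have := mul_le_mul_of_nonneg_right (cP_le n) (by positivity : (0:ℝ) ≤ R^n * R^2)
    calc _ = |cP (n + 2)| * (R^n * R^2) := by ring
      _ ≤ (1/2) * (1/3)^n * (R^n * R^2) := this
      _ = 1/2 * R^2 * (R^n / 3^n) := by rw [div_pow, one_pow]; ring

lemma lipP {R : ℝ} (hR0 : 0 ≤ R) (hR1 : R < 1) :
    (Summable fun n => |cP n| * (n * R ^ (n - 1))) ∧
      ∑' n, |cP n| * (n * R ^ (n - 1)) ≤ R / (1 - R/2) := by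
  apply tsum_shift_le (k := 2)
  · intro n; positivity
  · intro n hn; simp [cP, hn]
  · positivity
  · linarith
  · intro n
    rw [show n + 2 - 1 = n + 1 by omega, pow_succ, div_pow]
    have := mul_le_mul_of_nonneg_right (cP_le' n) (by positivity : (0:ℝ) ≤ R^n * R)
    calc _ = |cP (n + 2)| * ((n + 2 : ℕ) : ℝ) * (R^n * R) := by ring
      _ ≤ (1/2)^n * (R^n * R) := this
      _ = R * (R^n / 2^n) := by rw [div_pow, one_pow]; ring

lemma sumS {R : ℝ} (hR0 : 0 ≤ R) (hR1 : R < 1) :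
    (Summable fun n => |cS n| * R ^ n) ∧ ∑' n, |cS n| * R ^ n ≤ 1 * R ^ 1 / (1 - R) :=
  bound_norm (by intro n hn; interval_cases n; exact cS_zero)
    (fun n => (abs_cS_le _).trans (inv_fact_le_one _)) hR0 hR1

lemma lipS {R : ℝ} (hR0 : 0 ≤ R) (hR1 : R < 1) :
    (Summable fun n => |cS n| * (n * R ^ (n - 1))) ∧
      ∑' n, |cS n| * (n * R ^ (n - 1)) ≤ 1 * R ^ (1 - 1) / (1 - R) :=
  bound_lip le_rfl (by intro n hn; interval_cases n; exact cS_zero)
    (fun n => (mul_le_mul_of_nonneg_right (abs_cS_le _) (by positivity)).trans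
      (nat_mul_inv_fact _ (by omega))) hR0 hR1

lemma sumC {R : ℝ} (hR0 : 0 ≤ R) (hR1 : R < 1) :
    (Summable fun n => |cC n| * R ^ n) ∧ ∑' n, |cC n| * R ^ n ≤ (1/2) * R ^ 2 / (1 - R) :=
  bound_norm (by intro n hn; interval_cases n; exacts [cC_zero, cC_one])
    (fun n => (abs_cC_le _).trans (inv_fact_le_half _ (by omega))) hR0 hR1

lemma lipC {R : ℝ} (hR0 : 0 ≤ R) (hR1 : R < 1) :
    (Summable fun n => |cC n| * (n * R ^ (n - 1))) ∧
      ∑' n, |cC n| * (n * R ^ (n - 1)) ≤ 1 * R ^ (2 - 1) / (1 - R) :=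
  bound_lip (by norm_num) (by intro n hn; interval_cases n; exacts [cC_zero, cC_one])
    (fun n => (mul_le_mul_of_nonneg_right (abs_cC_le _) (by positivity)).trans
      (nat_mul_inv_fact _ (by omega))) hR0 hR1

lemma sumH {R : ℝ} (hR0 : 0 ≤ R) (hR1 : R < 1) :
    (Summable fun n => |cH n| * R ^ n) ∧ ∑' n, |cH n| * R ^ n ≤ 1 * R ^ 1 / (1 - R) :=
  bound_norm (by intro n hn; interval_cases n; exact cH_zero)
    (fun n => (cH_bound n).2) hR0 hR1

lemma lipH {R : ℝ} (hR0 : 0 ≤ R) (hR1 : R < 1) :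
    (Summable fun n => |cH n| * (n * R ^ (n - 1))) ∧
      ∑' n, |cH n| * (n * R ^ (n - 1)) ≤ 1 * R ^ (1 - 1) / (1 - R) :=
  bound_lip le_rfl (by intro n hn; interval_cases n; exact cH_zero)
    (fun n => (cH_bound n).1) hR0 hR1

lemma sumG {R : ℝ} (hR0 : 0 ≤ R) (hR1 : R < 1) :
    (Summable fun n => |cG n| * R ^ n) ∧ ∑' n, |cG n| * R ^ n ≤ 1 * R ^ 0 / (1 - R) :=
  bound_norm (by intro n hn; omega) (fun n => (abs_cG _).le) hR0 hR1

lemma lipG {R : ℝ} (hR0 : 0 ≤ R) (hR1 : R < 1) :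
    (Summable fun n => |cG n| * (n * R ^ (n - 1))) ∧
      ∑' n, |cG n| * (n * R ^ (n - 1)) ≤ 1 / (1 - R)^2 := by
  simp only [abs_cG, one_mul]
  rcases hR0.eq_or_lt with h | h
  · subst h
    have hs : HasSum (fun n : ℕ => (n:ℝ) * (0:ℝ)^(n-1)) 1 := by
      have := hasSum_single (f := fun n : ℕ => (n:ℝ) * (0:ℝ)^(n-1)) 1 (by
        intro n hn
        rcases n with _ | _ | n
        · simp
        · exact absurd rfl hn
        · simp)
      simpa using this
    exact ⟨hs.summable, by rw [hs.tsum_eq]; norm_num⟩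
  · have h1 := hasSum_coe_mul_geometric_of_norm_lt_one (r := R) (by
      rw [Real.norm_eq_abs, abs_of_pos h]; exact hR1)
    have h2 : HasSum (fun n : ℕ => (n:ℝ) * R^(n-1)) (1 / (1-R)^2) := by
      have h3 := h1.mul_left (1/R)
      have e1 : (fun n : ℕ => (1/R) * ((n:ℝ) * R^n)) = fun n : ℕ => (n:ℝ) * R^(n-1) := by
        funext n
        rcases n with _ | n
        · simp
        · simp only [Nat.add_sub_cancel]; field_simp; ring
      rw [e1] at h3
      have e2 : 1 / R * (R / (1 - R)^2) = 1 / (1-R)^2 := by field_simp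
      rwa [e2] at h3
    exact ⟨h2.summable, h2.tsum_eq.le⟩

end Pool.Agent.Work.MP_5da384_an
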