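import Pool.Agent.Work.MP_5da384_an.Map

set_option autoImplicit false

open Filter Topology Set
open scoped ENNReal NNReal

namespace Pool.Agent.Work.MP_5da384_an

/-! ### the nonlinear functions -/

noncomputable def Pf (l : W) : W := ps cP l
noncomputable def Ef (l : W) : W := l + Pf l
noncomputable def yc (n : ℕ) : ℝ := -(Sc n) / (14 * n)
noncomputable def yf (E : W) : W := mult yc E
noncomputable def df (y : W) : W := ps cC y + tau • ps cS y
noncomputable def vf (y : W) : W := ps cG (df y)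
noncomputable def Uf (y : W) : W := (-pp) • mul (ps cS y) (vf y)
noncomputable def qf (l : W) : W := sml (mult Sc l) (mult Sc l)
noncomputable def chf (l : W) : W := ps cH (qf l)
noncomputable def UU (l : W) : W := Uf (yf (Ef l))
noncomputable def Ff (l : W) (η : ℝ) : W := UU l + mul (mult Cc (Ef l)) (UU l) - (1 + η) • chf l

lemma yc_le (n : ℕ) : |yc n| ≤ 0.0274 := by
  unfold yc
  rcases n with _ | _ | _ | n
  · simp; norm_num
  · obtain ⟨h1, h2⟩ := s1_bounds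
    simp only [zero_add, Nat.cast_one, mul_one]
    rw [abs_div, abs_neg, abs_of_pos (by linarith : 0 < Sc 1), abs_of_pos (by norm_num : (0:ℝ) < 14),
      div_le_iff₀ (by norm_num)]
    linarith
  · obtain ⟨h1, h2⟩ := sqrt2_bounds
    simp only [zero_add, Nat.reduceAdd]
    rw [Sc_two]
    rw [abs_div, abs_neg, abs_of_pos (by positivity), abs_of_pos (by positivity),
      div_le_iff₀ (by norm_num)]
    push_cast
    linarith
  · have hn : (0:ℝ) ≤ n := by positivity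
    rw [abs_div, abs_neg, abs_of_pos (by positivity : (0:ℝ) < 14 * ((n+1+1+1 : ℕ):ℝ)),
      div_le_iff₀ (by positivity)]
    have := abs_Sc_le (n+1+1+1)
    push_cast
    linarith

section Bounds

variable {l l' : W}

lemma P_norm (hl : ‖l‖ ≤ 1/5) : ‖Pf l‖ ≤ 3/140 := by
  refine (norm_ps_le (sumP (by norm_num) (by norm_num)).1 hl).trans ?_
  refine (sumP (by norm_num) (by norm_num)).2.trans ?_
  norm_num

lemma P_lip (hl : ‖l‖ ≤ 1/5) (hl' : ‖l'‖ ≤ 1/5) : ‖Pf l - Pf l'‖ ≤ 2/9 * ‖l - l'‖ := by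
  refine (ps_sub_le (sumP (by norm_num) (by norm_num)).1 (lipP (by norm_num) (by norm_num)).1
    hl hl').trans ?_
  apply mul_le_mul_of_nonneg_right _ (norm_nonneg _)
  refine (lipP (by norm_num) (by norm_num)).2.trans ?_
  norm_num

lemma E_norm (hl : ‖l‖ ≤ 1/5) : ‖Ef l‖ ≤ 31/140 := by
  refine (norm_add_le _ _).trans ?_
  have := P_norm hl
  linarith

lemma E_lip (hl : ‖l‖ ≤ 1/5) (hl' : ‖l'‖ ≤ 1/5) : ‖Ef l - Ef l'‖ ≤ 11/9 * ‖l - l'‖ := by
  have e : Ef l - Ef l' = (l - l') + (Pf l - Pf l') := by unfold Ef; abel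
  rw [e]
  refine (norm_add_le _ _).trans ?_
  have := P_lip hl hl'
  linarith

lemma y_norm {E : W} (hE : ‖E‖ ≤ 31/140) : ‖yf E‖ ≤ 0.0061 := by
  refine (norm_mult_le yc_le E).trans ?_
  nlinarith

lemma y_lip (E E' : W) : ‖yf E - yf E'‖ ≤ 0.0274 * ‖E - E'‖ := by
  unfold yf
  rw [← mult_sub yc_le]
  exact norm_mult_le yc_le _

variable {y y' : W}

lemma s_norm (hy : ‖y‖ ≤ 0.0061) : ‖ps cS y‖ ≤ 0.00614 := by
  refine (norm_ps_le (sumS (by norm_num) (by norm_num)).1 hy).trans ?_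
  refine (sumS (by norm_num) (by norm_num)).2.trans ?_
  norm_num

lemma s_lip (hy : ‖y‖ ≤ 0.0061) (hy' : ‖y'‖ ≤ 0.0061) :
    ‖ps cS y - ps cS y'‖ ≤ 1.0062 * ‖y - y'‖ := by
  refine (ps_sub_le (sumS (by norm_num) (by norm_num)).1 (lipS (by norm_num) (by norm_num)).1
    hy hy').trans ?_
  apply mul_le_mul_of_nonneg_right _ (norm_nonneg _)
  refine (lipS (by norm_num) (by norm_num)).2.trans ?_
  norm_num

lemma c_norm (hy : ‖y‖ ≤ 0.0061) : ‖ps cC y‖ ≤ 0.00002 := by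
  refine (norm_ps_le (sumC (by norm_num) (by norm_num)).1 hy).trans ?_
  refine (sumC (by norm_num) (by norm_num)).2.trans ?_
  norm_num

lemma c_lip (hy : ‖y‖ ≤ 0.0061) (hy' : ‖y'‖ ≤ 0.0061) :
    ‖ps cC y - ps cC y'‖ ≤ 0.00614 * ‖y - y'‖ := by
  refine (ps_sub_le (sumC (by norm_num) (by norm_num)).1 (lipC (by norm_num) (by norm_num)).1
    hy hy').trans ?_
  apply mul_le_mul_of_nonneg_right _ (norm_nonneg _)
  refine (lipC (by norm_num) (by norm_num)).2.trans ?_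
  norm_num

lemma d_norm (hy : ‖y‖ ≤ 0.0061) : ‖df y‖ ≤ 0.0309 := by
  unfold df
  refine (norm_add_le _ _).trans ?_
  obtain ⟨h1, h2⟩ := tau_bounds
  rw [norm_smul, Real.norm_eq_abs, abs_of_pos (by linarith)]
  have h3 := s_norm hy
  have h4 := c_norm hy
  have h5 : tau * ‖ps cS y‖ ≤ 5.027342 * 0.00614 := by gcongr
  linarith

lemma d_lip (hy : ‖y‖ ≤ 0.0061) (hy' : ‖y'‖ ≤ 0.0061) :
    ‖df y - df y'‖ ≤ 5.0647 * ‖y - y'‖ := by
  have e : df y - df y' = (ps cC y - ps cC y') + tau • (ps cS y - ps cS y') := by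
    unfold df; rw [smul_sub]; abel
  rw [e]
  refine (norm_add_le _ _).trans ?_
  obtain ⟨h1, h2⟩ := tau_bounds
  rw [norm_smul, Real.norm_eq_abs, abs_of_pos (by linarith)]
  have h3 := s_lip hy hy'
  have h4 := c_lip hy hy'
  have h5 : tau * ‖ps cS y - ps cS y'‖ ≤ 5.027342 * (1.0062 * ‖y - y'‖) := by gcongr
  have h6 := norm_nonneg (y - y')
  linarith

lemma v_norm (hy : ‖y‖ ≤ 0.0061) : ‖vf y‖ ≤ 1.0319 := by
  refine (norm_ps_le (sumG (by norm_num) (by norm_num)).1 (d_norm hy)).trans ?_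
  refine (sumG (by norm_num) (by norm_num)).2.trans ?_
  norm_num

lemma v_lip (hy : ‖y‖ ≤ 0.0061) (hy' : ‖y'‖ ≤ 0.0061) :
    ‖vf y - vf y'‖ ≤ 1.0648 * (5.0647 * ‖y - y'‖) := by
  refine (ps_sub_le (sumG (by norm_num) (by norm_num)).1 (lipG (by norm_num) (by norm_num)).1
    (d_norm hy) (d_norm hy')).trans ?_
  apply mul_le_mul _ (d_lip hy hy') (norm_nonneg _) (by norm_num)
  refine (lipG (by norm_num) (by norm_num)).2.trans ?_
  norm_num

lemma U_norm (hy : ‖y‖ ≤ 0.0061) : ‖Uf y‖ ≤ 0.0332 := by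
  unfold Uf
  obtain ⟨h1, h2⟩ := pp_bounds
  rw [norm_smul, Real.norm_eq_abs, abs_neg, abs_of_pos (by linarith)]
  have h3 := norm_mul_le' (ps cS y) (vf y)
  have h4 : ‖ps cS y‖ * ‖vf y‖ ≤ 0.00614 * 1.0319 :=
    mul_le_mul (s_norm hy) (v_norm hy) (norm_nonneg _) (by norm_num)
  calc pp * ‖mul (ps cS y) (vf y)‖ ≤ 5.226253 * (0.00614 * 1.0319) := by
        apply mul_le_mul h2.le (h3.trans h4) (norm_nonneg _) (by norm_num)
    _ ≤ 0.0332 := by norm_num

lemma U_lip (hy : ‖y‖ ≤ 0.0061) (hy' : ‖y'‖ ≤ 0.0061) :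
    ‖Uf y - Uf y'‖ ≤ 5.6 * ‖y - y'‖ := by
  unfold Uf
  obtain ⟨h1, h2⟩ := pp_bounds
  rw [← smul_sub, norm_smul, Real.norm_eq_abs, abs_neg, abs_of_pos (by linarith)]
  have h3 := mul_diff_le (ps cS y) (ps cS y') (vf y) (vf y')
  have h0 := norm_nonneg (y - y')
  have h4 : ‖ps cS y‖ * ‖vf y - vf y'‖ ≤ 0.00614 * (1.0648 * (5.0647 * ‖y - y'‖)) :=
    mul_le_mul (s_norm hy) (v_lip hy hy') (norm_nonneg _) (by norm_num)
  have h5 : ‖ps cS y - ps cS y'‖ * ‖vf y'‖ ≤ (1.0062 * ‖y - y'‖) * 1.0319 :=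
    mul_le_mul (s_lip hy hy') (v_norm hy') (norm_nonneg _) (by positivity)
  calc pp * ‖mul (ps cS y) (vf y) - mul (ps cS y') (vf y')‖
      ≤ 5.226253 * (0.00614 * (1.0648 * (5.0647 * ‖y - y'‖)) + (1.0062 * ‖y - y'‖) * 1.0319) := by
        apply mul_le_mul h2.le (by linarith) (norm_nonneg _) (by norm_num)
    _ ≤ 5.6 * ‖y - y'‖ := by nlinarith

lemma UU_norm (hl : ‖l‖ ≤ 1/5) : ‖UU l‖ ≤ 0.0332 := U_norm (y_norm (E_norm hl))

lemma UU_lip (hl : ‖l‖ ≤ 1/5) (hl' : ‖l'‖ ≤ 1/5) : ‖UU l - UU l'‖ ≤ 0.1876 * ‖l - l'‖ := by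
  have h1 := U_lip (y_norm (E_norm hl)) (y_norm (E_norm hl'))
  have h2 := y_lip (Ef l) (Ef l')
  have h3 := E_lip hl hl'
  have h4 := norm_nonneg (l - l')
  unfold UU
  linarith

lemma q_norm (hs : ‖mult Sc l‖ ≤ 0.0766) : ‖qf l‖ ≤ 0.0059 := by
  refine (norm_sml_le _ _).trans ?_
  have := norm_nonneg (mult Sc l)
  nlinarith

lemma q_lip (hs : ‖mult Sc l‖ ≤ 0.0766) (hs' : ‖mult Sc l'‖ ≤ 0.0766) :
    ‖qf l - qf l'‖ ≤ 0.1532 * ‖mult Sc (l - l')‖ := by
  refine (sml_diff_le _ _ _ _).trans ?_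
  rw [← mult_sub abs_Sc_le]
  have := norm_nonneg (mult Sc (l - l'))
  nlinarith

lemma ch_norm (hs : ‖mult Sc l‖ ≤ 0.0766) : ‖chf l‖ ≤ 0.006 := by
  refine (norm_ps_le (sumH (by norm_num) (by norm_num)).1 (q_norm hs)).trans ?_
  refine (sumH (by norm_num) (by norm_num)).2.trans ?_
  norm_num

lemma ch_lip (hs : ‖mult Sc l‖ ≤ 0.0766) (hs' : ‖mult Sc l'‖ ≤ 0.0766) :
    ‖chf l - chf l'‖ ≤ 1.006 * (0.1532 * ‖mult Sc (l - l')‖) := by
  refine (ps_sub_le (sumH (by norm_num) (by norm_num)).1 (lipH (by norm_num) (by norm_num)).1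
    (q_norm hs) (q_norm hs')).trans ?_
  apply mul_le_mul _ (q_lip hs hs') (norm_nonneg _) (by norm_num)
  refine (lipH (by norm_num) (by norm_num)).2.trans ?_
  norm_num

lemma F_lip {η η' : ℝ} (hl : ‖l‖ ≤ 1/5) (hl' : ‖l'‖ ≤ 1/5) (hs : ‖mult Sc l‖ ≤ 0.0766)
    (hs' : ‖mult Sc l'‖ ≤ 0.0766) (hη : |η| ≤ 0.026) :
    ‖Ff l η - Ff l' η'‖ ≤ 0.27 * ‖l - l'‖ + 0.1582 * ‖mult Sc (l - l')‖ + 0.006 * |η - η'| := by
  have e : Ff l η - Ff l' η' = (UU l - UU l') +
      (mul (mult Cc (Ef l)) (UU l) - mul (mult Cc (Ef l')) (UU l')) -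
      ((1 + η) • (chf l - chf l') + (η - η') • chf l') := by
    unfold Ff
    module
  rw [e]
  have h1 := UU_lip hl hl'
  have h2 := mul_diff_le (mult Cc (Ef l)) (mult Cc (Ef l')) (UU l) (UU l')
  have h3 : ‖mult Cc (Ef l)‖ ≤ 31/140 := by
    have := norm_mult_le abs_Cc_le (Ef l)
    have h := E_norm hl
    linarith
  have h4 : ‖mult Cc (Ef l) - mult Cc (Ef l')‖ ≤ 11/9 * ‖l - l'‖ := by
    rw [← mult_sub abs_Cc_le]
    have := norm_mult_le abs_Cc_le (Ef l - Ef l')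
    have h := E_lip hl hl'
    linarith
  have h5 := UU_norm hl'
  have h6 := ch_lip hs hs'
  have h7 := ch_norm hs'
  have n1 := norm_nonneg (l - l')
  have n2 := norm_nonneg (mult Sc (l - l'))
  have h8 : ‖mult Cc (Ef l)‖ * ‖UU l - UU l'‖ ≤ 31/140 * (0.1876 * ‖l - l'‖) :=
    mul_le_mul h3 h1 (norm_nonneg _) (by norm_num)
  have h9 : ‖mult Cc (Ef l) - mult Cc (Ef l')‖ * ‖UU l'‖ ≤ (11/9 * ‖l - l'‖) * 0.0332 :=
    mul_le_mul h4 h5 (norm_nonneg _) (by positivity)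
  have h10 : ‖(1 + η) • (chf l - chf l')‖ ≤ 1.026 * (1.006 * (0.1532 * ‖mult Sc (l - l')‖)) := by
    rw [norm_smul, Real.norm_eq_abs]
    apply mul_le_mul _ h6 (norm_nonneg _) (by norm_num)
    rw [abs_le] at hη ⊢
    constructor <;> linarith [hη.1, hη.2]
  have h11 : ‖(η - η') • chf l'‖ ≤ |η - η'| * 0.006 := by
    rw [norm_smul, Real.norm_eq_abs]
    exact mul_le_mul_of_nonneg_left h7 (abs_nonneg _)
  calc _ ≤ ‖(UU l - UU l') + (mul (mult Cc (Ef l)) (UU l) - mul (mult Cc (Ef l')) (UU l'))‖ +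
        ‖(1 + η) • (chf l - chf l') + (η - η') • chf l'‖ := norm_sub_le _ _
    _ ≤ (‖UU l - UU l'‖ + ‖mul (mult Cc (Ef l)) (UU l) - mul (mult Cc (Ef l')) (UU l')‖) +
        (‖(1 + η) • (chf l - chf l')‖ + ‖(η - η') • chf l'‖) :=
        add_le_add (norm_add_le _ _) (norm_add_le _ _)
    _ ≤ 0.27 * ‖l - l'‖ + 0.1582 * ‖mult Sc (l - l')‖ + 0.006 * |η - η'| := by linarith

end Bounds

/-! ### the fixed point map -/

noncomputable def mM (n : ℕ) : ℝ := if n = 1 then 0 else if 8 ∣ n then 2 else 1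
noncomputable def m1 (n : ℕ) : ℝ := if n < 2 ∨ 8 ∣ n then 0 else om * Cc n / (n * Sc n)
noncomputable def m2 (n : ℕ) : ℝ :=
  if n = 1 then 0 else if 8 ∣ n then -1/2 else om * Cc n / (n * Sc n)
noncomputable def m3 (n : ℕ) : ℝ :=
  if n < 2 then 0 else if 8 ∣ n then -(Cc n) / 2 else om / (n * Sc n)

lemma mM_le (n : ℕ) : |mM n| ≤ 2 := by
  unfold mM; split_ifs <;> norm_num

lemma nr_bound (n : ℕ) (hn : 2 ≤ n) (hd : ¬ 8 ∣ n) : |om / (n * Sc n)| ≤ 1/2 := by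
  have h1 := abs_Sc_ge n hd
  obtain ⟨h2, h3⟩ := s1_bounds
  obtain ⟨h4, h5⟩ := om_bounds
  have hn2 : (2:ℝ) ≤ n := by exact_mod_cast hn
  rw [abs_div, abs_mul, abs_of_pos (by linarith : 0 < om), abs_of_pos (by linarith : (0:ℝ) < n)]
  rw [div_le_iff₀ (by nlinarith)]
  nlinarith

lemma nr_bound' (n : ℕ) (hn : 2 ≤ n) (hd : ¬ 8 ∣ n) : |om * Cc n / (n * Sc n)| ≤ 1/2 := by
  have h1 := nr_bound n hn hd
  have h2 := abs_Cc_le n
  have e : om * Cc n / (n * Sc n) = om / (n * Sc n) * Cc n := by ring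
  rw [e, abs_mul]
  have := abs_nonneg (om / (n * Sc n))
  nlinarith

lemma m1_le (n : ℕ) : |m1 n| ≤ 0.32 := by
  unfold m1
  split_ifs with h
  · norm_num
  · push Not at h
    obtain ⟨hn, hd⟩ := h
    have h1 := abs_Sc_ge n hd
    obtain ⟨h2, h3⟩ := s1_bounds
    obtain ⟨h4, h5⟩ := om_bounds
    rcases hn.eq_or_lt with h | h
    · rw [← h, Sc_two, Cc_two]
      have h6 : 0 < √2 := by positivity
      have e : om * (√2 / 2) / (((2:ℕ):ℝ) * (√2 / 2)) = om / 2 := by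
        push_cast; field_simp
      rw [e, abs_of_pos (by linarith)]; linarith
    · have hn3 : (3:ℝ) ≤ n := by exact_mod_cast h
      rw [abs_div, abs_mul, abs_mul, abs_of_pos (by linarith : 0 < om),
        abs_of_pos (by linarith : (0:ℝ) < n), div_le_iff₀ (by nlinarith)]
      have h7 := abs_Cc_le n
      have h8 := abs_nonneg (Cc n)
      nlinarith

lemma m2_le (n : ℕ) : |m2 n| ≤ 1/2 := by
  unfold m2
  split_ifs with h h'
  · norm_num
  · norm_num
  · have hn : 2 ≤ n := by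
      rcases n with _ | _ | n
      · exact absurd (dvd_zero 8) h'
      · exact absurd rfl h
      · omega
    exact nr_bound' n hn h'

lemma m3_le (n : ℕ) : |m3 n| ≤ 1/2 := by
  unfold m3
  split_ifs with h h'
  · norm_num
  · rw [abs_div, abs_neg]
    have := abs_Cc_le n
    norm_num
    linarith
  · exact nr_bound n (by omega) h'

lemma m3_zero : m3 0 = 0 := by simp [m3]
lemma m3_one : m3 1 = 0 := by simp [m3]

/-- exponent of the curvature -/
noncomputable def lf (e : ℝ) (z : W) : W := e • bs 1 + mult mM z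

noncomputable def Nf (e : ℝ) (z : W) : W := Ff (lf e z) (2 * z 1)

/-- the fixed point map -/
noncomputable def Phi (e : ℝ) (z : W) : W :=
  mult m1 z + mult m2 (Pf (lf e z)) + (mult m3 (Nf e z) + ((1/2) * Nf e z 0) • bs 1)

lemma row_le (G : W) : ‖mult m3 G + ((1/2) * G 0) • bs 1‖ ≤ 1/2 * ‖G‖ := by
  have hsplit : mult m3 G + ((1/2) * G 0) • bs 1 =
      mult m3 (G - (G 0) • bs 0) + ((1/2) * G 0) • bs 1 := by
    congr 1
    rw [mult_sub m3_le]
    have : mult m3 ((G 0) • bs 0) = 0 := by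
      apply W.ext
      intro n
      rw [mult_apply m3_le, lp.coeFn_smul, Pi.smul_apply, bs_apply]
      by_cases hn : n = 0
      · subst hn; simp [m3_zero]
      · simp [hn]
    rw [this, sub_zero]
  rw [hsplit]
  refine (norm_add_le _ _).trans ?_
  have h1 := norm_mult_le m3_le (G - (G 0) • bs 0)
  have h2 : ‖G - (G 0) • bs 0‖ + |G 0| = ‖G‖ := by
    rw [W.norm_def, W.norm_def, (W.summable G).tsum_eq_zero_add,
      (W.summable (G - (G 0) • bs 0)).tsum_eq_zero_add]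
    have e0 : (G - (G 0) • bs 0 : W) 0 = 0 := by
      rw [lp.coeFn_sub, Pi.sub_apply, lp.coeFn_smul, Pi.smul_apply, bs_apply]; simp
    have e1 : ∀ n : ℕ, (G - (G 0) • bs 0 : W) (n+1) = G (n+1) := by
      intro n
      rw [lp.coeFn_sub, Pi.sub_apply, lp.coeFn_smul, Pi.smul_apply, bs_apply]; simp
    rw [e0, abs_zero, zero_add]
    simp only [e1]
    ring
  rw [norm_smul, norm_bs, mul_one, Real.norm_eq_abs, abs_mul]
  norm_num
  linarith

/-- the admissible parameters -/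
def Adm (e : ℝ) (z : W) : Prop := 0 ≤ e ∧ e ≤ 0.166 ∧ ‖z‖ ≤ 0.013

lemma Adm.l_le {e : ℝ} {z : W} (h : Adm e z) : ‖lf e z‖ ≤ 1/5 := by
  obtain ⟨h1, h2, h3⟩ := h
  unfold lf
  refine (norm_add_le _ _).trans ?_
  rw [norm_smul, norm_bs, Real.norm_eq_abs, abs_of_nonneg h1]
  have := norm_mult_le mM_le z
  linarith

lemma mult_Sc_bs_one (e : ℝ) : mult Sc (e • bs 1) = (e * Sc 1) • bs 1 := by
  apply W.ext
  intro n
  rw [mult_apply abs_Sc_le, lp.coeFn_smul, lp.coeFn_smul, Pi.smul_apply, Pi.smul_apply, bs_apply]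
  by_cases hn : n = 1
  · subst hn; simp; ring
  · simp [hn]

lemma S_mM_le (n : ℕ) : |Sc n * mM n| ≤ 1 := by
  unfold mM
  split_ifs with h h'
  · simp
  · rw [Sc_res n h']; simp
  · rw [mul_one]; exact abs_Sc_le n

lemma mult_mult {a b : ℕ → ℝ} {A B C : ℝ} (ha : ∀ n, |a n| ≤ A) (hb : ∀ n, |b n| ≤ B)
    (hab : ∀ n, |a n * b n| ≤ C) (z : W) : mult a (mult b z) = mult (fun n => a n * b n) z := by
  apply W.ext
  intro n
  rw [mult_apply ha, mult_apply hb, mult_apply hab]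
  ring

lemma Adm.s_le {e : ℝ} {z : W} (h : Adm e z) : ‖mult Sc (lf e z)‖ ≤ 0.0766 := by
  obtain ⟨h1, h2, h3⟩ := h
  unfold lf
  rw [mult_add abs_Sc_le, mult_Sc_bs_one, mult_mult abs_Sc_le mM_le S_mM_le]
  refine (norm_add_le _ _).trans ?_
  have h4 := norm_mult_le S_mM_le z
  obtain ⟨h5, h6⟩ := s1_bounds
  rw [norm_smul, norm_bs, Real.norm_eq_abs, abs_of_nonneg (by nlinarith)]
  nlinarith

lemma Adm.eta_le {e : ℝ} {z : W} (h : Adm e z) : |2 * z 1| ≤ 0.026 := by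
  have := W.abs_le z 1
  have h3 := h.2.2
  rw [abs_mul]
  norm_num
  linarith

lemma one_ind (z : W) : |z 1| = ‖mult (fun n => if n = 1 then (1:ℝ) else 0) z‖ := by
  have hb : ∀ n, |(if n = 1 then (1:ℝ) else 0)| ≤ 1 := by
    intro n; split_ifs <;> norm_num
  rw [norm_mult_eq hb, tsum_eq_single 1]
  · simp
  · intro n hn; simp [hn]

lemma comb_le (d : W) : ‖mult m1 d‖ + (1/9 + 0.135) * ‖mult mM d‖ +
    0.0791 * ‖mult (fun n => Sc n * mM n) d‖ + 0.006 * |d 1| ≤ 0.65 * ‖d‖ := by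
  have hb : ∀ n, |(if n = 1 then (1:ℝ) else 0)| ≤ 1 := by
    intro n; split_ifs <;> norm_num
  rw [one_ind, norm_mult_eq m1_le, norm_mult_eq mM_le, norm_mult_eq S_mM_le, norm_mult_eq hb,
    W.norm_def, ← tsum_mul_left, ← tsum_mul_left, ← tsum_mul_left, ← tsum_mul_left]
  have t1 : Summable fun n => |m1 n| * |d n| := by
    have := mult_summable m1 m1_le d; simpa [abs_mul] using this
  have t2 : Summable fun n => |mM n| * |d n| := by
    have := mult_summable mM mM_le d; simpa [abs_mul] using this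
  have t3 : Summable fun n => |Sc n * mM n| * |d n| := by
    have := mult_summable (fun n => Sc n * mM n) S_mM_le d
    refine this.congr ?_
    intro n; rw [abs_mul (Sc n * mM n)]
  have t4 : Summable fun n => |(if n = 1 then (1:ℝ) else 0)| * |d n| := by
    have := mult_summable _ hb d
    refine this.congr ?_
    intro n; rw [abs_mul]
  rw [← t1.tsum_add (t2.mul_left _), ← (t1.add (t2.mul_left _)).tsum_add (t3.mul_left _),
    ← ((t1.add (t2.mul_left _)).add (t3.mul_left _)).tsum_add (t4.mul_left _)]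
  apply Summable.tsum_le_tsum _ (((t1.add (t2.mul_left _)).add (t3.mul_left _)).add
    (t4.mul_left _)) (d.summable.mul_left _)
  intro n
  have h0 := abs_nonneg (d n)
  have key : |m1 n| + (1/9 + 0.135) * |mM n| + 0.0791 * |Sc n * mM n| +
      0.006 * |(if n = 1 then (1:ℝ) else 0)| ≤ 0.65 := by
    by_cases h1 : n = 1
    · subst h1
      simp [m1, mM]
      norm_num
    · by_cases h8 : 8 ∣ n
      · have e1 : m1 n = 0 := by simp [m1, h8]
        have e2 : mM n = 2 := by simp [mM, h1, h8]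
        rw [e1, e2, Sc_res n h8]
        simp [h1]
        norm_num
      · have e2 : mM n = 1 := by simp [mM, h1, h8]
        have e1 := m1_le n
        have e3 := abs_Sc_le n
        rw [e2, mul_one]
        simp only [if_neg h1, abs_zero, abs_one]
        linarith
  nlinarith

theorem Phi_lip {e : ℝ} {z z' : W} (h : Adm e z) (h' : Adm e z') :
    ‖Phi e z - Phi e z'‖ ≤ 0.65 * ‖z - z'‖ := by
  have e0 : lf e z - lf e z' = mult mM (z - z') := by
    unfold lf; rw [mult_sub mM_le]; abel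
  have e1 : Phi e z - Phi e z' = mult m1 (z - z') + mult m2 (Pf (lf e z) - Pf (lf e z')) +
      (mult m3 (Nf e z - Nf e z') + ((1/2) * (Nf e z - Nf e z' : W) 0) • bs 1) := by
    unfold Phi
    rw [mult_sub m1_le, mult_sub m2_le, mult_sub m3_le, lp.coeFn_sub, Pi.sub_apply]
    module
  rw [e1]
  have h1 := P_lip h.l_le h'.l_le
  have h2 := norm_mult_le m2_le (Pf (lf e z) - Pf (lf e z'))
  have h3 := row_le (Nf e z - Nf e z')
  have h4 : ‖Nf e z - Nf e z'‖ ≤ 0.27 * ‖lf e z - lf e z'‖ +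
      0.1582 * ‖mult Sc (lf e z - lf e z')‖ + 0.006 * |2 * z 1 - 2 * z' 1| :=
    F_lip h.l_le h'.l_le h.s_le h'.s_le h.eta_le
  rw [e0] at h1 h4
  rw [mult_mult abs_Sc_le mM_le S_mM_le] at h4
  have e2 : |2 * z 1 - 2 * z' 1| = 2 * |(z - z' : W) 1| := by
    rw [lp.coeFn_sub, Pi.sub_apply, ← mul_sub, abs_mul]; norm_num
  rw [e2] at h4
  have h5 := comb_le (z - z')
  calc _ ≤ ‖mult m1 (z - z') + mult m2 (Pf (lf e z) - Pf (lf e z'))‖ +
        ‖mult m3 (Nf e z - Nf e z') + ((1/2) * (Nf e z - Nf e z' : W) 0) • bs 1‖ :=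
        norm_add_le _ _
    _ ≤ (‖mult m1 (z - z')‖ + ‖mult m2 (Pf (lf e z) - Pf (lf e z'))‖) +
        ‖mult m3 (Nf e z - Nf e z') + ((1/2) * (Nf e z - Nf e z' : W) 0) • bs 1‖ := by
        gcongr; exact norm_add_le _ _
    _ ≤ 0.65 * ‖z - z'‖ := by linarith

/-- dependence on the parameter -/
theorem Phi_lip_e {e e' : ℝ} {z : W} (h : Adm e z) (h' : Adm e' z) :
    ‖Phi e z - Phi e' z‖ ≤ 0.28 * |e - e'| := by
  have e0 : lf e z - lf e' z = (e - e') • bs 1 := by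
    unfold lf; module
  have e1 : Phi e z - Phi e' z = mult m2 (Pf (lf e z) - Pf (lf e' z)) +
      (mult m3 (Nf e z - Nf e' z) + ((1/2) * (Nf e z - Nf e' z : W) 0) • bs 1) := by
    unfold Phi
    rw [mult_sub m2_le, mult_sub m3_le, lp.coeFn_sub, Pi.sub_apply]
    module
  rw [e1]
  have h1 := P_lip h.l_le h'.l_le
  have h2 := norm_mult_le m2_le (Pf (lf e z) - Pf (lf e' z))
  have h3 := row_le (Nf e z - Nf e' z)
  have h4 : ‖Nf e z - Nf e' z‖ ≤ 0.27 * ‖lf e z - lf e' z‖ +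
      0.1582 * ‖mult Sc (lf e z - lf e' z)‖ + 0.006 * |2 * z 1 - 2 * z 1| :=
    F_lip h.l_le h'.l_le h.s_le h'.s_le h.eta_le
  rw [e0] at h1 h4
  rw [mult_Sc_bs_one] at h4
  obtain ⟨h5, h6⟩ := s1_bounds
  rw [norm_smul, norm_bs, Real.norm_eq_abs, mul_one] at h1
  rw [norm_smul, norm_bs, Real.norm_eq_abs, mul_one, norm_smul, norm_bs, Real.norm_eq_abs, abs_mul,
    abs_of_pos (by linarith : 0 < Sc 1), sub_self, abs_zero, mul_zero, mul_one, add_zero] at h4
  have h7 := abs_nonneg (e - e')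
  have h8 : |e - e'| * Sc 1 ≤ |e - e'| * 0.3826835 := by gcongr
  refine (norm_add_le _ _).trans ?_
  linarith

end Pool.Agent.Work.MP_5da384_an
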