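import Pool.Agent.Work.MP_5da384_an.Extract
import Pool.Agent.Work.MP_5da384_an.Geo5

set_option autoImplicit false

open Filter Topology Set
open scoped ENNReal NNReal Nat

namespace Pool.Agent.Work.MP_5da384_an

/-! ### the coefficient equations -/

section Coeff

variable {e : ℝ} {z : W}

lemma lf_apply (e : ℝ) (z : W) (n : ℕ) :
    lf e z n = e * (if n = 1 then 1 else 0) + mM n * z n := by
  unfold lf
  rw [W.add_apply, W.smul_apply, bs_apply, mult_apply mM_le]

lemma coeff_eq (hfix : Phi e z = z) (n : ℕ) :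
    z n = m1 n * z n + m2 n * Pf (lf e z) n +
      (m3 n * Nf e z n + (1/2 * Nf e z 0) * (if n = 1 then 1 else 0)) := by
  have h := congrArg (fun w : W => w n) hfix
  simp only at h
  unfold Phi at h
  rw [W.add_apply, W.add_apply, W.add_apply, mult_apply m1_le, mult_apply m2_le,
    mult_apply m3_le, W.smul_apply, bs_apply] at h
  exact h.symm

lemma eta_eq (hfix : Phi e z = z) : 2 * z 1 = Nf e z 0 := by
  have h := coeff_eq hfix 1
  have e1 : m1 1 = 0 := by simp [m1]
  have e2 : m2 1 = 0 := by simp [m2]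
  rw [e1, e2, m3_one] at h
  simp at h
  linarith

lemma E_apply (l : W) (n : ℕ) : Ef l n = l n + Pf l n := by
  unfold Ef; rw [W.add_apply]

lemma E_zero (hfix : Phi e z = z) : Ef (lf e z) 0 = 0 := by
  have h := coeff_eq hfix 0
  have e1 : m1 0 = 0 := by simp [m1]
  have e2 : m2 0 = -1/2 := by simp [m2]
  have e3 : mM 0 = 2 := by simp [mM]
  rw [e1, e2, m3_zero] at h
  rw [E_apply, lf_apply, e3]
  simp at h ⊢
  linarith

lemma main_coeff (hfix : Phi e z = z) (hfb : fb e z = 0) (n : ℕ) :
    (n:ℝ) * (Sc n * lf e z n) =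
      om * (Cc n * Ef (lf e z) n + Nf e z n - (if n = 0 then 2 * z 1 else 0)) := by
  by_cases h0 : n = 0
  · subst h0
    rw [E_zero hfix, if_pos rfl, eta_eq hfix]; simp
  rw [if_neg h0, sub_zero]
  by_cases h1 : n = 1
  · subst h1
    have e3 : mM 1 = 0 := by simp [mM]
    rw [lf_apply, e3]
    unfold fb at hfb
    push_cast
    linarith
  have h := coeff_eq hfix n
  rw [if_neg h1, mul_zero, add_zero] at h
  by_cases h8 : 8 ∣ n
  · have e1 : m1 n = 0 := by simp [m1, h8]
    have e2 : m2 n = -1/2 := by simp [m2, h1, h8]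
    have e3 : m3 n = -(Cc n) / 2 := by
      unfold m3; rw [if_neg (by omega), if_pos h8]
    have e4 : mM n = 2 := by simp [mM, h1, h8]
    rw [e1, e2, e3] at h
    have hc := Cc_res_sq n h8
    rw [Sc_res n h8, E_apply, lf_apply, e4, if_neg h1]
    linear_combination (-2 * om * Cc n) * h + (om * Nf e z n) * hc
  · have hn2 : 2 ≤ n := by
      rcases n with _ | _ | n
      · exact absurd rfl h0
      · exact absurd rfl h1
      · omega
    have e1 : m1 n = om * Cc n / (n * Sc n) := by
      unfold m1; rw [if_neg]; push Not; exact ⟨hn2, h8⟩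
    have e2 : m2 n = om * Cc n / (n * Sc n) := by
      unfold m2; rw [if_neg h1, if_neg h8]
    have e3 : m3 n = om / (n * Sc n) := by
      unfold m3; rw [if_neg (by omega), if_neg h8]
    have e4 : mM n = 1 := by simp [mM, h1, h8]
    rw [e1, e2, e3] at h
    have hS : Sc n ≠ 0 := by
      have := abs_Sc_ge n h8
      obtain ⟨h2, h3⟩ := s1_bounds
      intro h4
      rw [h4, abs_zero] at this
      linarith
    have hn : (n:ℝ) ≠ 0 := by exact_mod_cast h0
    rw [E_apply, lf_apply, e4, if_neg h1]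
    have h9 : (n:ℝ) * Sc n * z n = (n:ℝ) * Sc n * (om * Cc n / (n * Sc n) * z n +
        om * Cc n / (n * Sc n) * Pf (lf e z) n + om / (n * Sc n) * Nf e z n) := by rw [← h]
    have h10 : (n:ℝ) * Sc n * (om * Cc n / (n * Sc n) * z n +
        om * Cc n / (n * Sc n) * Pf (lf e z) n + om / (n * Sc n) * Nf e z n) =
        om * Cc n * z n + om * Cc n * Pf (lf e z) n + om * Nf e z n := by
      field_simp
    rw [h10] at h9
    linear_combination h9

end Coeff

/-! ### the functions -/

section Fun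

variable {e : ℝ} {z : W} (hadm : Adm e z) (hfix : Phi e z = z) (hfb : fb e z = 0)

/-- the exponent -/
noncomputable def Dt (e : ℝ) (z : W) (t : ℝ) : ℝ := es t (mult Sc (lf e z))
noncomputable def Mt (e : ℝ) (z : W) (t : ℝ) : ℝ := ev t (mult Cc (lf e z))
noncomputable def Yt (e : ℝ) (z : W) (t : ℝ) : ℝ := ev t (yf (Ef (lf e z)))
noncomputable def kt (e : ℝ) (z : W) (t : ℝ) : ℝ := Real.exp (ev t (lf e z))

lemma kt_add (e : ℝ) (z : W) (t : ℝ) :
    kt e z (t + Real.pi / 8) = Real.exp (Mt e z t - Dt e z t) := by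
  unfold kt; rw [ev_shift_add]; rfl

lemma kt_sub (e : ℝ) (z : W) (t : ℝ) :
    kt e z (t - Real.pi / 8) = Real.exp (Mt e z t + Dt e z t) := by
  unfold kt; rw [ev_shift_sub]; rfl

lemma kt_period (e : ℝ) (z : W) (t : ℝ) : kt e z (t + 2 * Real.pi) = kt e z t := by
  unfold kt; rw [ev_period]

include hadm in
lemma one_add_CE (t : ℝ) :
    1 + ev t (mult Cc (Ef (lf e z))) = Real.exp (Mt e z t) * Real.cosh (Dt e z t) := by
  have h1 := ev_shift_add t (Ef (lf e z))
  have h2 := ev_shift_sub t (Ef (lf e z))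
  rw [ev_Ef hadm.l_le, ev_shift_add] at h1
  rw [ev_Ef hadm.l_le, ev_shift_sub] at h2
  change Real.exp (Mt e z t - Dt e z t) - 1 = _ at h1
  change Real.exp (Mt e z t + Dt e z t) - 1 = _ at h2
  rw [Real.cosh_eq, ← mul_div_assoc, mul_add, ← Real.exp_add, ← Real.exp_add, ← sub_eq_add_neg]
  linarith

include hadm hfix hfb in
lemma hasDerivAt_Dt (t : ℝ) : HasDerivAt (Dt e z)
    (Real.exp (Mt e z t) * Real.cosh (Dt e z t) / 14 *
      (Real.cos (Real.pi / 16 + Yt e z t) / Real.sin (Real.pi / 16 + Yt e z t)) -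
      om * (1 + 2 * z 1) * Real.cosh (Dt e z t) ^ 2) t := by
  have hc : ∀ n : ℕ, (n:ℝ) * mult Sc (lf e z) n =
      om * (mult Cc (Ef (lf e z)) n + Nf e z n - ((2 * z 1) • bs 0 : W) n) := by
    intro n
    rw [mult_apply abs_Sc_le, mult_apply abs_Cc_le, main_coeff hfix hfb, W.smul_apply, bs_apply]
    by_cases h0 : n = 0 <;> simp [h0]
  have hc' : ∀ n : ℕ, (n:ℝ) * mult Sc (lf e z) n =
      (om • (mult Cc (Ef (lf e z)) + Nf e z - (2 * z 1) • bs 0) : W) n := by
    intro n
    rw [hc, W.smul_apply om, W.sub_apply, W.add_apply]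
  have hs : Summable fun n : ℕ => |(n:ℝ) * mult Sc (lf e z) n| := by
    simp only [hc']
    exact W.summable _
  have h := hasDerivAt_es hs t
  have e1 : (∑' n : ℕ, ((n:ℝ) * mult Sc (lf e z) n) * Real.cos (n * t)) =
      ev t (om • (mult Cc (Ef (lf e z)) + Nf e z - (2 * z 1) • bs 0)) := by
    unfold ev
    rw [pair_apply]
    apply tsum_congr
    intro n
    rw [hc']
  rw [e1] at h
  have e2 : ev t (om • (mult Cc (Ef (lf e z)) + Nf e z - (2 * z 1) • bs 0)) =
      Real.exp (Mt e z t) * Real.cosh (Dt e z t) / 14 *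
      (Real.cos (Real.pi / 16 + Yt e z t) / Real.sin (Real.pi / 16 + Yt e z t)) -
      om * (1 + 2 * z 1) * Real.cosh (Dt e z t) ^ 2 := by
    have h1 := one_add_CE hadm t
    have h2 := ev_Uf (y_norm (E_norm hadm.l_le)) t
    have h3 := ev_chf hadm.s_le t
    change tau * (1 + ev t (UU (lf e z))) =
      Real.cos (Real.pi / 16 + Yt e z t) / Real.sin (Real.pi / 16 + Yt e z t) at h2
    rw [map_smul, map_sub, map_add, map_smul, ev_bs]
    unfold Nf Ff
    rw [map_sub, map_add, ev_mul, map_smul, h3, ← h2]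
    change om • (ev t (mult Cc (Ef (lf e z))) + (ev t (UU (lf e z)) +
      ev t (mult Cc (Ef (lf e z))) * ev t (UU (lf e z)) -
      (1 + 2 * z 1) • (Real.cosh (Dt e z t) ^ 2 - 1)) - (2 * z 1) • Real.cos (((0:ℕ):ℝ) * t)) = _
    have h4 : om = tau / 14 := rfl
    rw [Nat.cast_zero, zero_mul, Real.cos_zero, ← h1, h4]
    simp only [smul_eq_mul]
    ring
  rw [e2] at h
  exact h

/-- antiderivative of the curvature -/
noncomputable def At (e : ℝ) (z : W) (t : ℝ) : ℝ :=
  t + es t (mult (fun n => 1 / (n:ℝ)) (Ef (lf e z)))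

lemma inv_le_one' (n : ℕ) : |1 / (n:ℝ)| ≤ 1 := by
  rcases n with _ | n
  · simp
  · rw [abs_of_pos (by positivity), div_le_one (by positivity)]
    push_cast; have : (0:ℝ) ≤ n := by positivity
    linarith

include hadm hfix in
lemma hasDerivAt_At (t : ℝ) : HasDerivAt (At e z) (kt e z t) t := by
  have hc : ∀ n : ℕ, (n:ℝ) * mult (fun n => 1 / (n:ℝ)) (Ef (lf e z)) n = Ef (lf e z) n := by
    intro n
    rw [mult_apply inv_le_one']
    by_cases h0 : n = 0
    · subst h0; rw [E_zero hfix]; simp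
    · have : (n:ℝ) ≠ 0 := by exact_mod_cast h0
      field_simp
  have hs : Summable fun n : ℕ => |(n:ℝ) * mult (fun n => 1 / (n:ℝ)) (Ef (lf e z)) n| := by
    simp only [hc]
    exact W.summable _
  have h := (hasDerivAt_id t).add (hasDerivAt_es hs t)
  simp only [hc] at h
  have e1 : 1 + (∑' n : ℕ, Ef (lf e z) n * Real.cos (n * t)) = kt e z t := by
    have h2 := ev_Ef hadm.l_le t
    unfold kt
    have h3 : ev t (Ef (lf e z)) = ∑' n : ℕ, Ef (lf e z) n * Real.cos (n * t) := rfl
    rw [← h3, h2]; ring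
  rw [e1] at h
  exact h

lemma continuous_kt (e : ℝ) (z : W) : Continuous (kt e z) := by
  unfold kt
  exact Real.continuous_exp.comp (continuous_ev _)

include hadm hfix in
lemma integral_kt (a b : ℝ) : ∫ s in a..b, kt e z s = At e z b - At e z a := by
  apply intervalIntegral.integral_eq_sub_of_hasDerivAt
  · intro x _
    exact hasDerivAt_At hadm hfix x
  · exact (continuous_kt e z).intervalIntegrable _ _

lemma At_diff (e : ℝ) (z : W) (t : ℝ) :
    At e z (t + Real.pi / 8 + 7 * Real.pi / 4) - At e z (t + Real.pi / 8) =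
      14 * (Real.pi / 8 + 2 * Yt e z t) := by
  have e1 : t + Real.pi / 8 + 7 * Real.pi / 4 = (t - Real.pi / 8) + 2 * Real.pi := by ring
  have e2 : es (t + Real.pi / 8 + 7 * Real.pi / 4)
      (mult (fun n => 1 / (n:ℝ)) (Ef (lf e z))) =
      es (t - Real.pi / 8) (mult (fun n => 1 / (n:ℝ)) (Ef (lf e z))) := by
    rw [e1, es_period]
  unfold At
  rw [e2]
  have e3 : es (t - Real.pi / 8) (mult (fun n => 1 / (n:ℝ)) (Ef (lf e z))) -
      es (t + Real.pi / 8) (mult (fun n => 1 / (n:ℝ)) (Ef (lf e z))) =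
      28 * Yt e z t := by
    unfold es Yt ev yf
    rw [pair_apply, pair_apply, pair_apply, ← (pair_summable _ _ _).tsum_sub
      (pair_summable _ _ _), ← tsum_mul_left]
    · apply tsum_congr
      intro n
      rw [mult_apply inv_le_one', mult_apply yc_le]
      unfold yc
      have h1 : Real.sin (n * (t - Real.pi / 8)) =
          Real.sin (n * t) * Real.cos (n * (Real.pi / 8)) -
            Real.cos (n * t) * Real.sin (n * (Real.pi / 8)) := by
        rw [← Real.sin_sub]; congr 1; ring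
      have h2 : Real.sin (n * (t + Real.pi / 8)) =
          Real.sin (n * t) * Real.cos (n * (Real.pi / 8)) +
            Real.cos (n * t) * Real.sin (n * (Real.pi / 8)) := by
        rw [← Real.sin_add]; congr 1; ring
      rw [h1, h2]
      unfold Sc
      by_cases h0 : n = 0
      · subst h0; simp
      · have : (n:ℝ) ≠ 0 := by exact_mod_cast h0
        field_simp
        ring
    · exact fun n => Real.abs_sin_le_one _
    · exact fun n => Real.abs_sin_le_one _
  linear_combination e3

include hadm in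
lemma abs_Yt_le (t : ℝ) : |Yt e z t| ≤ 0.0061 :=
  (abs_ev_le t _).trans (y_norm (E_norm hadm.l_le))

include hadm hfix in
lemma phi_eq (s : ℝ) : (∫ u in s..(s + 7 * Real.pi / 4), kt e z u / 14) =
    Real.pi / 8 + 2 * Yt e z (s - Real.pi / 8) := by
  rw [intervalIntegral.integral_div, integral_kt hadm hfix]
  have h := At_diff e z (s - Real.pi / 8)
  rw [sub_add_cancel] at h
  rw [h]; ring

end Fun

end Pool.Agent.Work.MP_5da384_an
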