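import Mathlib

set_option autoImplicit false

open Filter Topology Set
open scoped ENNReal NNReal

namespace Pool.Agent.Work.MP_5da384_an

/-- absolutely summable real sequences, thought of as cosine or sine coefficients -/
abbrev W : Type := lp (fun _ : ℕ => ℝ) 1

lemma W.norm_def (f : W) : ‖f‖ = ∑' n, |f n| := by
  rw [lp.norm_eq_tsum_rpow (by norm_num)]
  simp

lemma W.summable (f : W) : Summable fun n => |f n| := by
  have := (lp.memℓp f).summable (by norm_num)
  simpa using this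

lemma W.abs_le (f : W) (n : ℕ) : |f n| ≤ ‖f‖ := by
  have := lp.norm_apply_le_norm (by norm_num) f n
  simpa using this

/-- the sequence as an element of `W` -/
noncomputable def mkW (c : ℕ → ℝ) (h : Summable fun n => |c n|) : W :=
  ⟨c, by
    apply memℓp_gen
    simpa using h⟩

@[simp] lemma mkW_apply (c : ℕ → ℝ) (h : Summable fun n => |c n|) (n : ℕ) : mkW c h n = c n := rfl

lemma norm_mkW (c : ℕ → ℝ) (h : Summable fun n => |c n|) : ‖mkW c h‖ = ∑' n, |c n| :=
  W.norm_def _

/-- basis vectors -/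
noncomputable def bs (n : ℕ) : W := lp.single 1 n (1:ℝ)

lemma bs_apply (n k : ℕ) : bs n k = if k = n then 1 else 0 := by
  unfold bs
  by_cases h : k = n
  · subst h; simp
  · rw [lp.single_apply_ne _ _ _ h]; simp [h]

lemma norm_bs (n : ℕ) : ‖bs n‖ = 1 := by
  rw [W.norm_def, tsum_eq_single n]
  · simp [bs_apply]
  · intro k hk; simp [bs_apply, hk]

lemma W.ext {f g : W} (h : ∀ n, f n = g n) : f = g := lp.ext (funext h)

/-! ### multipliers -/

lemma mult_summable (m : ℕ → ℝ) {B : ℝ} (hm : ∀ n, |m n| ≤ B) (f : W) :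
    Summable fun n => |m n * f n| := by
  apply Summable.of_nonneg_of_le (fun n => abs_nonneg _) _ (f.summable.mul_left B)
  intro n
  rw [abs_mul]
  exact mul_le_mul_of_nonneg_right (hm n) (abs_nonneg _)

/-- multiplication of the coefficients by a bounded sequence -/
noncomputable def mult (m : ℕ → ℝ) (f : W) : W := by
  classical
  exact if h : Summable fun n => |m n * f n| then mkW (fun n => m n * f n) h else 0

lemma mult_apply {m : ℕ → ℝ} {B : ℝ} (hm : ∀ n, |m n| ≤ B) (f : W) (n : ℕ) :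
    mult m f n = m n * f n := by
  unfold mult
  rw [dif_pos (mult_summable m hm f)]
  rfl

lemma norm_mult_eq {m : ℕ → ℝ} {B : ℝ} (hm : ∀ n, |m n| ≤ B) (f : W) :
    ‖mult m f‖ = ∑' n, |m n| * |f n| := by
  rw [W.norm_def]
  apply tsum_congr
  intro n
  rw [mult_apply hm, abs_mul]

lemma norm_mult_le {m : ℕ → ℝ} {B : ℝ} (hm : ∀ n, |m n| ≤ B) (f : W) :
    ‖mult m f‖ ≤ B * ‖f‖ := by
  rw [norm_mult_eq hm, W.norm_def, ← tsum_mul_left]
  apply Summable.tsum_le_tsum
  · intro n
    exact mul_le_mul_of_nonneg_right (hm n) (abs_nonneg _)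
  · have := mult_summable m hm f
    simpa [abs_mul] using this
  · exact f.summable.mul_left B

lemma mult_sub {m : ℕ → ℝ} {B : ℝ} (hm : ∀ n, |m n| ≤ B) (f g : W) :
    mult m (f - g) = mult m f - mult m g := by
  apply W.ext
  intro n
  rw [mult_apply hm, lp.coeFn_sub, lp.coeFn_sub, Pi.sub_apply, Pi.sub_apply, mult_apply hm,
    mult_apply hm]
  ring

lemma mult_add {m : ℕ → ℝ} {B : ℝ} (hm : ∀ n, |m n| ≤ B) (f g : W) :
    mult m (f + g) = mult m f + mult m g := by
  apply W.ext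
  intro n
  rw [mult_apply hm, lp.coeFn_add, lp.coeFn_add, Pi.add_apply, Pi.add_apply, mult_apply hm,
    mult_apply hm]
  ring

lemma mult_smul {m : ℕ → ℝ} {B : ℝ} (hm : ∀ n, |m n| ≤ B) (a : ℝ) (f : W) :
    mult m (a • f) = a • mult m f := by
  apply W.ext
  intro n
  rw [mult_apply hm, lp.coeFn_smul, lp.coeFn_smul, Pi.smul_apply, Pi.smul_apply, mult_apply hm]
  simp only [smul_eq_mul]
  ring

/-! ### functionals -/

lemma pair_summable (a : ℕ → ℝ) (ha : ∀ n, |a n| ≤ 1) (f : W) : Summable fun n => f n * a n := by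
  apply Summable.of_norm_bounded f.summable
  intro n
  rw [Real.norm_eq_abs, abs_mul]
  exact mul_le_of_le_one_right (abs_nonneg _) (ha n)

/-- the functional attached to a bounded sequence -/
noncomputable def pair (a : ℕ → ℝ) (ha : ∀ n, |a n| ≤ 1) : W →L[ℝ] ℝ :=
  LinearMap.mkContinuous
    { toFun := fun f => ∑' n, f n * a n
      map_add' := by
        intro f g
        rw [← (pair_summable a ha f).tsum_add (pair_summable a ha g)]
        apply tsum_congr
        intro n
        rw [lp.coeFn_add, Pi.add_apply]; ring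
      map_smul' := by
        intro c f
        rw [RingHom.id_apply, smul_eq_mul, ← tsum_mul_left]
        apply tsum_congr
        intro n
        rw [lp.coeFn_smul, Pi.smul_apply, smul_eq_mul]; ring } 1 (by
      intro f
      rw [one_mul, W.norm_def]
      change ‖∑' n, f n * a n‖ ≤ _
      refine (norm_tsum_le_tsum_norm ?_).trans ?_
      · exact (pair_summable a ha f).norm
      · apply Summable.tsum_le_tsum _ (pair_summable a ha f).norm f.summable
        intro n
        rw [Real.norm_eq_abs, abs_mul]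
        exact mul_le_of_le_one_right (abs_nonneg _) (ha n))

lemma pair_apply (a : ℕ → ℝ) (ha : ∀ n, |a n| ≤ 1) (f : W) : pair a ha f = ∑' n, f n * a n := rfl

lemma abs_pair_le (a : ℕ → ℝ) (ha : ∀ n, |a n| ≤ 1) (f : W) : |pair a ha f| ≤ ‖f‖ := by
  rw [pair_apply, W.norm_def]
  refine (norm_tsum_le_tsum_norm (pair_summable a ha f).norm).trans ?_
  apply Summable.tsum_le_tsum _ (pair_summable a ha f).norm f.summable
  intro n
  rw [Real.norm_eq_abs, abs_mul]
  exact mul_le_of_le_one_right (abs_nonneg _) (ha n)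

lemma pair_bs (a : ℕ → ℝ) (ha : ∀ n, |a n| ≤ 1) (k : ℕ) : pair a ha (bs k) = a k := by
  rw [pair_apply, tsum_eq_single k]
  · simp [bs_apply]
  · intro n hn; simp [bs_apply, hn]

/-- the value at `t` of the cosine series -/
noncomputable def ev (t : ℝ) : W →L[ℝ] ℝ :=
  pair (fun n => Real.cos (n * t)) (fun n => Real.abs_cos_le_one _)

/-- the value at `t` of the sine series -/
noncomputable def es (t : ℝ) : W →L[ℝ] ℝ :=
  pair (fun n => Real.sin (n * t)) (fun n => Real.abs_sin_le_one _)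

/-! ### bilinear maps -/

section Bil

variable {h : ℕ × ℕ → W} (hh : ∀ p, ‖h p‖ ≤ 1)

/-- bilinear map determined by its values on basis vectors -/
noncomputable def bil (h : ℕ × ℕ → W) (f g : W) : W := ∑' p : ℕ × ℕ, (f p.1 * g p.2) • h p

lemma prod_summable (f g : W) : Summable fun p : ℕ × ℕ => |f p.1| * |g p.2| :=
  f.summable.mul_of_nonneg g.summable (fun n => abs_nonneg _) (fun n => abs_nonneg _)

lemma prod_tsum (f g : W) : ∑' p : ℕ × ℕ, |f p.1| * |g p.2| = ‖f‖ * ‖g‖ := by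
  rw [W.norm_def, W.norm_def]
  exact (f.summable.tsum_mul_tsum g.summable (prod_summable f g)).symm

include hh

lemma bil_norm_summable (f g : W) : Summable fun p : ℕ × ℕ => ‖(f p.1 * g p.2) • h p‖ := by
  apply Summable.of_nonneg_of_le (fun p => norm_nonneg _) _ (prod_summable f g)
  intro p
  rw [norm_smul, Real.norm_eq_abs, abs_mul]
  exact mul_le_of_le_one_right (by positivity) (hh p)

lemma bil_summable (f g : W) : Summable fun p : ℕ × ℕ => (f p.1 * g p.2) • h p :=
  (bil_norm_summable hh f g).of_norm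

lemma norm_bil_le (f g : W) : ‖bil h f g‖ ≤ ‖f‖ * ‖g‖ := by
  rw [← prod_tsum]
  refine (norm_tsum_le_tsum_norm (bil_norm_summable hh f g)).trans ?_
  apply Summable.tsum_le_tsum _ (bil_norm_summable hh f g) (prod_summable f g)
  intro p
  rw [norm_smul, Real.norm_eq_abs, abs_mul]
  exact mul_le_of_le_one_right (by positivity) (hh p)

lemma bil_add_left (f f' g : W) : bil h (f + f') g = bil h f g + bil h f' g := by
  unfold bil
  rw [← (bil_summable hh f g).tsum_add (bil_summable hh f' g)]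
  apply tsum_congr
  intro p
  rw [lp.coeFn_add, Pi.add_apply, add_mul, add_smul]

lemma bil_add_right (f g g' : W) : bil h f (g + g') = bil h f g + bil h f g' := by
  unfold bil
  rw [← (bil_summable hh f g).tsum_add (bil_summable hh f g')]
  apply tsum_congr
  intro p
  rw [lp.coeFn_add, Pi.add_apply, mul_add, add_smul]

lemma bil_smul_left (a : ℝ) (f g : W) : bil h (a • f) g = a • bil h f g := by
  unfold bil
  rw [← (bil_summable hh f g).tsum_const_smul]
  apply tsum_congr
  intro p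
  rw [lp.coeFn_smul, Pi.smul_apply, smul_eq_mul, smul_smul]
  ring_nf

lemma bil_smul_right (a : ℝ) (f g : W) : bil h f (a • g) = a • bil h f g := by
  unfold bil
  rw [← (bil_summable hh f g).tsum_const_smul]
  apply tsum_congr
  intro p
  rw [lp.coeFn_smul, Pi.smul_apply, smul_eq_mul, smul_smul]
  ring_nf

lemma bil_sub_left (f f' g : W) : bil h (f - f') g = bil h f g - bil h f' g := by
  have := bil_add_left hh (f - f') f' g
  rw [sub_add_cancel] at this
  rw [this]; abel

lemma bil_sub_right (f g g' : W) : bil h f (g - g') = bil h f g - bil h f g' := by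
  have := bil_add_right hh f (g - g') g'
  rw [sub_add_cancel] at this
  rw [this]; abel

lemma bil_diff_le (f f' g g' : W) :
    ‖bil h f g - bil h f' g'‖ ≤ ‖f‖ * ‖g - g'‖ + ‖f - f'‖ * ‖g'‖ := by
  have e : bil h f g - bil h f' g' = bil h f (g - g') + bil h (f - f') g' := by
    rw [bil_sub_left hh, bil_sub_right hh]; abel
  rw [e]
  exact (norm_add_le _ _).trans (add_le_add (norm_bil_le hh _ _) (norm_bil_le hh _ _))

lemma pair_bil (a b c : ℕ → ℝ) (ha : ∀ n, |a n| ≤ 1) (hb : ∀ n, |b n| ≤ 1) (hc : ∀ n, |c n| ≤ 1)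
    (habc : ∀ i j, pair a ha (h (i, j)) = b i * c j) (f g : W) :
    pair a ha (bil h f g) = pair b hb f * pair c hc g := by
  unfold bil
  rw [(pair a ha).map_tsum (bil_summable hh f g), pair_apply b, pair_apply c]
  rw [(pair_summable b hb f).tsum_mul_tsum (pair_summable c hc g)]
  · apply tsum_congr
    intro p
    rw [map_smul, smul_eq_mul, habc]
    ring
  · apply Summable.of_norm_bounded (prod_summable f g)
    intro p
    rw [Real.norm_eq_abs, abs_mul, abs_mul, abs_mul]
    have h1 := hb p.1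
    have h2 := hc p.2
    have h3 := abs_nonneg (b p.1)
    have h4 := abs_nonneg (c p.2)
    have h5 : |f p.1| * |b p.1| ≤ |f p.1| := mul_le_of_le_one_right (abs_nonneg _) h1
    have h6 : |g p.2| * |c p.2| ≤ |g p.2| := mul_le_of_le_one_right (abs_nonneg _) h2
    exact mul_le_mul h5 h6 (by positivity) (abs_nonneg _)

lemma bil_bs (i j : ℕ) : bil h (bs i) (bs j) = h (i, j) := by
  unfold bil
  rw [tsum_eq_single (i, j)]
  · simp [bs_apply]
  · rintro ⟨k, l⟩ hkl
    by_cases h1 : k = i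
    · have h2 : l ≠ j := fun h2 => hkl (by rw [h1, h2])
      simp [bs_apply, h2]
    · simp [bs_apply, h1]

end Bil

/-- `cos (i t) cos (j t)` -/
noncomputable def hc (p : ℕ × ℕ) : W := (1/2 : ℝ) • (bs (p.1 + p.2) + bs (Nat.dist p.1 p.2))

/-- `sin (i t) sin (j t)` -/
noncomputable def hs (p : ℕ × ℕ) : W := (1/2 : ℝ) • (bs (Nat.dist p.1 p.2) - bs (p.1 + p.2))

lemma norm_hc (p : ℕ × ℕ) : ‖hc p‖ ≤ 1 := by
  unfold hc
  rw [norm_smul]
  have := norm_add_le (bs (p.1 + p.2)) (bs (Nat.dist p.1 p.2))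
  rw [norm_bs, norm_bs] at this
  norm_num
  linarith

lemma norm_hs (p : ℕ × ℕ) : ‖hs p‖ ≤ 1 := by
  unfold hs
  rw [norm_smul]
  have := norm_sub_le (bs (Nat.dist p.1 p.2)) (bs (p.1 + p.2))
  rw [norm_bs, norm_bs] at this
  norm_num
  linarith

lemma cos_dist (i j : ℕ) (t : ℝ) : Real.cos ((Nat.dist i j : ℕ) * t) = Real.cos (i * t - j * t) := by
  rcases le_total i j with hij | hij
  · rw [Nat.dist_eq_sub_of_le hij, Nat.cast_sub hij, ← Real.cos_neg]
    congr 1; ring
  · rw [Nat.dist_eq_sub_of_le_right hij, Nat.cast_sub hij]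
    congr 1; ring

/-- product of two cosine series -/
noncomputable def mul (f g : W) : W := bil hc f g

/-- product of two sine series -/
noncomputable def sml (f g : W) : W := bil hs f g

lemma ev_mul (t : ℝ) (f g : W) : ev t (mul f g) = ev t f * ev t g := by
  apply pair_bil norm_hc
  intro i j
  unfold hc
  rw [map_smul, map_add, pair_bs, pair_bs, smul_eq_mul, cos_dist, Real.cos_sub]
  push_cast
  rw [add_mul, Real.cos_add]
  ring

lemma ev_sml (t : ℝ) (f g : W) : ev t (sml f g) = es t f * es t g := by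
  apply pair_bil norm_hs
  intro i j
  unfold hs
  rw [map_smul, map_sub, pair_bs, pair_bs, smul_eq_mul, cos_dist, Real.cos_sub]
  push_cast
  rw [add_mul, Real.cos_add]
  ring

lemma norm_mul_le' (f g : W) : ‖mul f g‖ ≤ ‖f‖ * ‖g‖ := norm_bil_le norm_hc f g
lemma norm_sml_le (f g : W) : ‖sml f g‖ ≤ ‖f‖ * ‖g‖ := norm_bil_le norm_hs f g
lemma mul_diff_le (f f' g g' : W) :
    ‖mul f g - mul f' g'‖ ≤ ‖f‖ * ‖g - g'‖ + ‖f - f'‖ * ‖g'‖ := bil_diff_le norm_hc f f' g g'
lemma sml_diff_le (f f' g g' : W) :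
    ‖sml f g - sml f' g'‖ ≤ ‖f‖ * ‖g - g'‖ + ‖f - f'‖ * ‖g'‖ := bil_diff_le norm_hs f f' g g'

lemma ev_bs (t : ℝ) (n : ℕ) : ev t (bs n) = Real.cos (n * t) := pair_bs _ _ _
lemma es_bs (t : ℝ) (n : ℕ) : es t (bs n) = Real.sin (n * t) := pair_bs _ _ _

/-! ### powers and power series -/

/-- powers for the product of cosine series -/
noncomputable def pw (f : W) : ℕ → W
  | 0 => bs 0
  | (n + 1) => mul f (pw f n)

lemma norm_pw_le (f : W) (n : ℕ) : ‖pw f n‖ ≤ ‖f‖ ^ n := by
  induction n with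
  | zero => simp [pw, norm_bs]
  | succ n ih =>
    calc ‖pw f (n+1)‖ ≤ ‖f‖ * ‖pw f n‖ := norm_mul_le' _ _
      _ ≤ ‖f‖ * ‖f‖ ^ n := by gcongr
      _ = ‖f‖ ^ (n+1) := by ring

lemma ev_pw (t : ℝ) (f : W) (n : ℕ) : ev t (pw f n) = (ev t f) ^ n := by
  induction n with
  | zero => simp [pw, ev_bs]
  | succ n ih => rw [pw, ev_mul, ih]; ring

lemma pw_sub_le {f g : W} {R : ℝ} (hf : ‖f‖ ≤ R) (hg : ‖g‖ ≤ R) (n : ℕ) :
    ‖pw f n - pw g n‖ ≤ n * R ^ (n - 1) * ‖f - g‖ := by
  have hR : 0 ≤ R := (norm_nonneg f).trans hf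
  induction n with
  | zero => simp [pw]
  | succ n ih =>
    have h1 : ‖pw g n‖ ≤ R ^ n := (norm_pw_le g n).trans (by gcongr)
    calc ‖pw f (n+1) - pw g (n+1)‖ ≤ ‖f‖ * ‖pw f n - pw g n‖ + ‖f - g‖ * ‖pw g n‖ :=
          mul_diff_le _ _ _ _
      _ ≤ R * (n * R ^ (n - 1) * ‖f - g‖) + ‖f - g‖ * R ^ n := by gcongr
      _ = ((n + 1 : ℕ) : ℝ) * R ^ (n + 1 - 1) * ‖f - g‖ := by
        rcases n with _ | n
        · simp
        · simp only [Nat.add_sub_cancel]
          push_cast
          ring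

/-- power series -/
noncomputable def ps (c : ℕ → ℝ) (f : W) : W := ∑' n, c n • pw f n

lemma ps_norm_summable {c : ℕ → ℝ} {R : ℝ} (hc : Summable fun n => |c n| * R ^ n) {f : W}
    (hf : ‖f‖ ≤ R) : Summable fun n => ‖c n • pw f n‖ := by
  apply Summable.of_nonneg_of_le (fun n => norm_nonneg _) _ hc
  intro n
  rw [norm_smul, Real.norm_eq_abs]
  exact mul_le_mul_of_nonneg_left ((norm_pw_le f n).trans (by gcongr)) (abs_nonneg _)

lemma ps_summable {c : ℕ → ℝ} {R : ℝ} (hc : Summable fun n => |c n| * R ^ n) {f : W}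
    (hf : ‖f‖ ≤ R) : Summable fun n => c n • pw f n := (ps_norm_summable hc hf).of_norm

lemma norm_ps_le {c : ℕ → ℝ} {R : ℝ} (hc : Summable fun n => |c n| * R ^ n) {f : W}
    (hf : ‖f‖ ≤ R) : ‖ps c f‖ ≤ ∑' n, |c n| * R ^ n := by
  refine (norm_tsum_le_tsum_norm (ps_norm_summable hc hf)).trans ?_
  apply Summable.tsum_le_tsum _ (ps_norm_summable hc hf) hc
  intro n
  rw [norm_smul, Real.norm_eq_abs]
  exact mul_le_mul_of_nonneg_left ((norm_pw_le f n).trans (by gcongr)) (abs_nonneg _)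

lemma ev_ps {c : ℕ → ℝ} {R : ℝ} (hc : Summable fun n => |c n| * R ^ n) {f : W}
    (hf : ‖f‖ ≤ R) (t : ℝ) : ev t (ps c f) = ∑' n, c n * (ev t f) ^ n := by
  unfold ps
  rw [(ev t).map_tsum (ps_summable hc hf)]
  apply tsum_congr
  intro n
  rw [map_smul, ev_pw, smul_eq_mul]

lemma ps_sub_le {c : ℕ → ℝ} {R : ℝ} (hc : Summable fun n => |c n| * R ^ n)
    (hc' : Summable fun n => |c n| * (n * R ^ (n - 1))) {f g : W}
    (hf : ‖f‖ ≤ R) (hg : ‖g‖ ≤ R) :
    ‖ps c f - ps c g‖ ≤ (∑' n, |c n| * (n * R ^ (n - 1))) * ‖f - g‖ := by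
  unfold ps
  rw [← (ps_summable hc hf).tsum_sub (ps_summable hc hg)]
  have hterm : ∀ n, ‖c n • pw f n - c n • pw g n‖ ≤ |c n| * (n * R ^ (n - 1)) * ‖f - g‖ := by
    intro n
    rw [← smul_sub, norm_smul, Real.norm_eq_abs, mul_assoc]
    exact mul_le_mul_of_nonneg_left (pw_sub_le hf hg n) (abs_nonneg _)
  have hs : Summable fun n => ‖c n • pw f n - c n • pw g n‖ :=
    Summable.of_nonneg_of_le (fun n => norm_nonneg _) hterm (hc'.mul_right _)
  refine (norm_tsum_le_tsum_norm hs).trans ?_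
  rw [← tsum_mul_right]
  exact Summable.tsum_le_tsum hterm hs (hc'.mul_right _)

/-- truncation of a power series -/
lemma ps_trunc {c : ℕ → ℝ} {R : ℝ} (hc : Summable fun n => |c n| * R ^ n) {f : W}
    (hf : ‖f‖ ≤ R) (N : ℕ) :
    ‖ps c f - ∑ n ∈ Finset.range N, c n • pw f n‖ ≤ ∑' n, |c (n + N)| * R ^ (n + N) := by
  have h1 := (ps_summable hc hf).sum_add_tsum_nat_add N
  have e : ps c f - ∑ n ∈ Finset.range N, c n • pw f n = ∑' n, c (n + N) • pw f (n + N) := by
    unfold ps
    rw [← h1]; abel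
  rw [e]
  have hs : Summable fun n => ‖c (n + N) • pw f (n + N)‖ :=
    (summable_nat_add_iff N).mpr (ps_norm_summable hc hf)
  refine (norm_tsum_le_tsum_norm hs).trans ?_
  apply Summable.tsum_le_tsum _ hs ((summable_nat_add_iff N).mpr hc)
  intro n
  rw [norm_smul, Real.norm_eq_abs]
  exact mul_le_mul_of_nonneg_left ((norm_pw_le f _).trans (by gcongr)) (abs_nonneg _)

/-- comparison with a shifted geometric series -/
lemma tsum_shift_le {a : ℕ → ℝ} {k : ℕ} {A r : ℝ} (h0 : ∀ n, 0 ≤ a n) (hz : ∀ n < k, a n = 0)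
    (hr0 : 0 ≤ r) (hr : r < 1) (ha : ∀ n, a (n + k) ≤ A * r ^ n) :
    Summable a ∧ ∑' n, a n ≤ A / (1 - r) := by
  have hg : Summable fun n : ℕ => A * r ^ n := (summable_geometric_of_lt_one hr0 hr).mul_left A
  have hs' : Summable fun n => a (n + k) :=
    Summable.of_nonneg_of_le (fun n => h0 _) ha hg
  have hs : Summable a := (summable_nat_add_iff k).mp hs'
  refine ⟨hs, ?_⟩
  rw [← hs.sum_add_tsum_nat_add k, Finset.sum_eq_zero, zero_add]
  · calc ∑' n, a (n + k) ≤ ∑' n : ℕ, A * r ^ n := hs'.tsum_le_tsum ha hg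
      _ = A / (1 - r) := by
        rw [tsum_mul_left, tsum_geometric_of_lt_one hr0 hr, div_eq_mul_inv]
  · intro n hn
    exact hz n (Finset.mem_range.mp hn)

end Pool.Agent.Work.MP_5da384_an
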